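import Mathlib
import Pool.Agent.H350R3.MG.Frob

/-!
Apolarity: the dimension of the space of forms killed by the powers of directional derivatives.
-/

set_option autoImplicit false
set_option linter.unusedSectionVars false

namespace Pool.Agent.TH130.FP

open Module MvPolynomial H350MG

noncomputable section

variable {𝕜 : Type} [Field 𝕜] [CharZero 𝕜] {σ : Type} [Fintype σ] [DecidableEq σ]

lemma pr_monomial (α : σ →₀ ℕ) (G : MvPolynomial σ 𝕜) :
    pr (monomial α 1) G = (∏ i, ((α i).factorial : 𝕜)) * coeff α G := by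
  induction G using MvPolynomial.induction_on' with
  | add p q hp hq => rw [map_add, hp, hq, coeff_add]; ring
  | monomial m a =>
    have h1 : (monomial m a : MvPolynomial σ 𝕜) = a • monomial m 1 := by
      rw [smul_monomial, smul_eq_mul, mul_one]
    rw [h1, map_smul, pr_basis, coeff_smul, coeff_monomial, coeff_monomial, smul_eq_mul,
      smul_eq_mul]
    by_cases h : α = m
    · subst h; simp; ring
    · rw [if_neg h, if_neg (Ne.symm h)]; ring

lemma pr_K_J {r : ℕ} (e : Fin r → ℕ) (P : Fin r × σ → 𝕜) (j : ℕ) {F G : MvPolynomial σ 𝕜}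
    (hF : F ∈ K (ptList e P) j) (hG : G ∈ J (powList e P) j) : pr F G = 0 := by
  have h : J (powList e P) j ≤ LinearMap.ker (pr F) := by
    refine J_le_of ?_
    intro c hc
    unfold powList at hc
    rw [List.mem_ofFn'] at hc
    obtain ⟨k, rfl⟩ := hc
    unfold Jt
    simp only
    split_ifs with hk
    · rintro _ ⟨H, hH, rfl⟩
      rw [LinearMap.mem_ker, LinearMap.mulLeft_apply, pr_linpow]
      have h1 := (mem_K.1 hF).2 _ (mem_ptList P k)
      have h2 : (D (fun i => P (k, i)) ^ e k) F = 0 := h1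
      rw [h2]
      have h3 : pr (0 : MvPolynomial σ 𝕜) = 0 := (prL (𝕜 := 𝕜) (σ := σ)).map_zero
      rw [h3, LinearMap.zero_apply]
    · exact bot_le
  exact h hG

/-- equality in apolarity -/
theorem finrank_K_add_J {r : ℕ} (e : Fin r → ℕ) (P : Fin r × σ → 𝕜) (j : ℕ) :
    finrank 𝕜 (K (ptList e P) j) + finrank 𝕜 (J (powList e P) j) = finrank 𝕜 (Rj 𝕜 σ j) := by
  refine le_antisymm ?_ (apolar e P j)
  have hJ : J (powList e P) j ≤ Rj 𝕜 σ j := J_le (powList_good e P) j
  have hfd : FiniteDimensional 𝕜 (J (powList e P) j) := Submodule.finiteDimensional_of_le hJ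
  let K' : Submodule 𝕜 (Rj 𝕜 σ j) := Submodule.comap (Rj 𝕜 σ j).subtype (K (ptList e P) j)
  let Θ0 : MvPolynomial σ 𝕜 →ₗ[𝕜] Dual 𝕜 (Rj 𝕜 σ j) :=
    (LinearMap.lcomp 𝕜 𝕜 (Rj 𝕜 σ j).subtype) ∘ₗ prL.flip
  have hΘ0 : ∀ G (F : Rj 𝕜 σ j), Θ0 G F = pr (F : MvPolynomial σ 𝕜) G := fun _ _ => rfl
  let Θ : J (powList e P) j →ₗ[𝕜] K'.dualAnnihilator :=
    LinearMap.codRestrict _ (Θ0 ∘ₗ (J (powList e P) j).subtype) (by
      intro G
      rw [Submodule.mem_dualAnnihilator]
      intro F hF
      change Θ0 (G : MvPolynomial σ 𝕜) F = 0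
      rw [hΘ0]
      exact pr_K_J e P j hF G.2)
  have hinj : Function.Injective Θ := by
    refine (injective_iff_map_eq_zero Θ).2 ?_
    intro G hG
    apply Subtype.ext
    change (G : MvPolynomial σ 𝕜) = 0
    ext α
    rw [coeff_zero]
    by_cases hα : α.degree = j
    · have h1 : Θ0 (G : MvPolynomial σ 𝕜) ⟨monomial α 1, isHomogeneous_monomial _ hα⟩ = 0 := by
        have h2 := congrArg Subtype.val hG
        have h3 : ((Θ G : K'.dualAnnihilator) : Dual 𝕜 (Rj 𝕜 σ j)) =
          Θ0 (G : MvPolynomial σ 𝕜) := rfl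
        rw [h3] at h2
        rw [h2]; rfl
      rw [hΘ0] at h1
      change pr (monomial α 1) (G : MvPolynomial σ 𝕜) = 0 at h1
      rw [pr_monomial] at h1
      rcases mul_eq_zero.1 h1 with h2 | h2
      · exfalso
        rw [Finset.prod_eq_zero_iff] at h2
        obtain ⟨i, _, hi⟩ := h2
        exact Nat.factorial_ne_zero (α i) (by exact_mod_cast hi)
      · exact h2
    · have hH' : (G : MvPolynomial σ 𝕜).IsHomogeneous j := hJ G.2
      exact hH'.coeff_eq_zero hα
  have h1 := LinearMap.finrank_le_finrank_of_injective hinj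
  have h2 := Subspace.finrank_add_finrank_dualAnnihilator_eq K'
  have h3 : finrank 𝕜 K' = finrank 𝕜 (K (ptList e P) j) := finrank_comap_K _ _
  omega

/-- the Hilbert function of the quotient is the dimension of the space of the killed forms -/
lemma qd_powList {r : ℕ} (e : Fin r → ℕ) (P : Fin r × σ → 𝕜) (j : ℕ) :
    qd (powList e P) j = (finrank 𝕜 (K (ptList e P) j) : ℤ) := by
  have h := finrank_K_add_J e P j
  unfold qd
  rw [← finrank_Rj' (𝕜 := 𝕜) j, ← h]
  push_cast
  ring

lemma eq_lin {f : MvPolynomial σ 𝕜} (hf : f ∈ Rj 𝕜 σ 1) :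
    f = lin fun i => coeff (Finsupp.single i 1) f := by
  ext m
  unfold lin
  rw [coeff_sum]
  by_cases hm : m.degree = 1
  · obtain ⟨u, rfl⟩ : ∃ u, m = Finsupp.single u 1 := by
      have h1 : ∃ u, m u ≠ 0 := by
        by_contra hcon
        push Not at hcon
        have : m = 0 := Finsupp.ext hcon
        rw [this, map_zero] at hm
        omega
      obtain ⟨u, hu⟩ := h1
      refine ⟨u, ?_⟩
      have hle : Finsupp.single u 1 ≤ m := by
        rw [Finsupp.single_le_iff]; omega
      have h2 : m - Finsupp.single u 1 + Finsupp.single u 1 = m := tsub_add_cancel_of_le hle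
      have h3 := congrArg Finsupp.degree h2
      rw [map_add, Finsupp.degree_single, hm] at h3
      have h4 : m - Finsupp.single u 1 = 0 := (Finsupp.degree_eq_zero_iff _).1 (by omega)
      rw [h4, zero_add] at h2
      exact h2.symm
    rw [Finset.sum_eq_single u]
    · simp
    · intro i _ hi
      rw [coeff_smul, coeff_X, if_neg, smul_zero]
      intro h
      exact hi ((Finsupp.single_left_inj one_ne_zero).1 h)
    · intro h; exact absurd (Finset.mem_univ _) h
  · rw [(hf : f.IsHomogeneous 1).coeff_eq_zero hm]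
    symm
    refine Finset.sum_eq_zero fun i _ => ?_
    rw [coeff_smul, coeff_X, if_neg, smul_zero]
    rintro rfl
    exact hm (Finsupp.degree_single _ _)

end

end Pool.Agent.TH130.FP
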