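import Mathlib
import Pool.Agent.W431.Frob.Core

/-!
Decomposable parameters: the forms of type `U` are products of linear forms, one in each of the
blocks of `U`. Semicontinuity and the elimination of one block.
-/

set_option autoImplicit false
set_option linter.unusedSectionVars false

namespace Pool.Agent.TH130.FP

open Module MvPolynomial Pool.Agent.W431.Frob

noncomputable section

lemma isPoly_prod {K : Type} [Field K] {Γ κ : Type*} (s : Finset κ) {f : κ → (Γ → K) → K}
    (hf : ∀ k ∈ s, H350MG.IsPoly (f k)) : H350MG.IsPoly (fun x => ∏ k ∈ s, f k x) := by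
  classical
  choose! p hp using hf
  refine ⟨∏ k ∈ s, p k, fun x => ?_⟩
  rw [map_prod]
  exact Finset.prod_congr rfl fun k hk => hp k hk x

variable {K : Type} [Field K] {ι : Type} [Fintype ι] [DecidableEq ι] {M : ℕ} [NeZero M]

/-- parameters: the coefficient of the `j`-th variable of the block `a` in the factor of the
`i`-th form of type `U` -/
abbrev ParD (ι : Type) (M : ℕ) : Type := Finset ι × ℕ × ι × Fin M

/-- the values of the products -/
def th (y : ParD ι M → K) : Par ι M → K := fun t => ∏ a ∈ t.1, y (t.1, t.2.1, a, t.2.2 a)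

lemma ff_th (y : ParD ι M → K) (U : Finset ι) (i : ℕ) (x : ι → Fin M) :
    ff (th y) U i x = ∏ a ∈ U, y (U, i, a, x a) := by
  unfold ff th
  refine Finset.prod_congr rfl fun a ha => ?_
  simp only
  rw [rho_of_mem ha]

lemma isPoly_th (t : Par ι M) : H350MG.IsPoly (fun y : ParD ι M → K => th y t) := by
  unfold th
  exact isPoly_prod _ fun a _ => H350MG.IsPoly.coord _

/-- semicontinuity -/
lemma gen_covD {y0 : ParD ι M → K} {w : Finset ι → ℕ} {S : Finset ι} {c : ℕ}
    (H : Cov (th y0) w S c) : Gen K (fun y : ParD ι M → K => Cov (th y) w S c) := by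
  classical
  let 𝒦 : Finset (Σ _ : Finset ι, ℕ) :=
    (S.powerset.filter Finset.Nonempty).sigma fun U => Finset.range (w U)
  let L : (ParD ι M → K) → (𝒦 → ((ι → Fin M) → K)) →ₗ[K] ((ι → Fin M) → K) := fun y =>
    ∑ κ : 𝒦, (LinearMap.mulLeft K (ff (th y) κ.1.1 κ.1.2)) ∘ₗ (prS K M (S \ κ.1.1)) ∘ₗ
      (LinearMap.proj κ)
  have hLx : ∀ y (g : 𝒦 → ((ι → Fin M) → K)), L y g =
      ∑ κ : 𝒦, ff (th y) κ.1.1 κ.1.2 * prS K M (S \ κ.1.1) (g κ) := by
    intro y g
    simp only [L, LinearMap.sum_apply]
    rfl
  have hL : ∀ (g : 𝒦 → ((ι → Fin M) → K)) (ψ : ((ι → Fin M) → K) →ₗ[K] K),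
      H350MG.IsPoly (fun y => ψ (L y g)) := by
    intro g ψ
    have h1 : (fun y : ParD ι M → K => ψ (L y g)) = fun y =>
        ∑ x : ι → Fin M, ∑ κ : 𝒦, th y (κ.1.1, κ.1.2, rho κ.1.1 x) *
          (prS K M (S \ κ.1.1) (g κ) x * ψ fun y => if x = y then 1 else 0) := by
      funext y
      rw [LinearMap.pi_apply_eq_sum_univ ψ (L y g)]
      refine Finset.sum_congr rfl fun x _ => ?_
      rw [hLx, Finset.sum_apply, smul_eq_mul, Finset.sum_mul]
      refine Finset.sum_congr rfl fun κ _ => ?_
      rw [Pi.mul_apply, ff, mul_assoc]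
    rw [h1]
    exact H350MG.IsPoly.sum _ fun x _ => H350MG.IsPoly.sum _ fun κ _ =>
      (isPoly_th _).mul (H350MG.IsPoly.const _)
  obtain ⟨Φ, h0, hΦ⟩ := H350MG.generic_ker L hL y0
  have hrange : ∀ y, LinearMap.range (L y) = II (th y) w S := by
    intro y
    refine le_antisymm ?_ (Submodule.span_le.2 ?_)
    · rintro _ ⟨g, rfl⟩
      rw [hLx]
      refine Submodule.sum_mem _ fun κ _ => ?_
      have h2 := κ.2
      rw [Finset.mem_sigma, Finset.mem_filter, Finset.mem_powerset, Finset.mem_range] at h2
      exact mem_II h2.1.1 h2.1.2 h2.2 (prS_mem _ _)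
    · rintro _ ⟨U, hU, hn, i, hi, g, hg, rfl⟩
      have h2 : (⟨U, i⟩ : Σ _ : Finset ι, ℕ) ∈ 𝒦 := by
        rw [Finset.mem_sigma, Finset.mem_filter, Finset.mem_powerset, Finset.mem_range]
        exact ⟨⟨hU, hn⟩, hi⟩
      refine ⟨Pi.single ⟨⟨U, i⟩, h2⟩ g, ?_⟩
      rw [hLx, Finset.sum_eq_single ⟨⟨U, i⟩, h2⟩]
      · rw [Pi.single_eq_same, prS_eq hg]
      · intro κ _ hκ
        rw [Pi.single_eq_of_ne hκ, map_zero, mul_zero]
      · intro h'; exact absurd (Finset.mem_univ _) h'
  refine ⟨Φ, h0, fun y hy => ?_⟩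
  have h1 := hΦ y hy
  have h2 := LinearMap.finrank_range_add_finrank_ker (L y)
  have h3 := LinearMap.finrank_range_add_finrank_ker (L y0)
  unfold Cov at H
  rw [← hrange] at H
  change M ^ S.card ≤ finrank K (II (th y) w S) + c
  rw [← hrange]
  omega

/-- the recursion step for decomposable parameters -/
lemma rec_stepD {z : ι} {S : Finset ι} (hz : z ∉ S) (y : ParD ι M → K) (w m l : Finset ι → ℕ)
    (hm0 : m ∅ ≤ w {z})
    (hml : ∀ U ⊆ S, U.Nonempty → m U * l U ≤ w (insert z U))
    (hzero : ∀ U ⊆ S, U.Nonempty → 0 < m U → Cov (th y) (Function.update w U (w U + l U)) S 0)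
    {c : ℕ} (hc : Cov (th y) w S c) :
    ∃ y' : ParD ι M → K, Cov (th y') w (insert z S) ((M - ∑ U ∈ S.powerset, m U) * c) := by
  classical
  let T : Finset (Σ _ : Finset ι, ℕ) := S.powerset.sigma fun U => Finset.range (m U)
  have hTcard : T.card = ∑ U ∈ S.powerset, m U := by
    rw [Finset.card_sigma]
    exact Finset.sum_congr rfl fun U _ => Finset.card_range _
  let e : T ≃ Fin T.card := T.equivFin
  let pos : (Σ _ : Finset ι, ℕ) → ℕ := fun t => if h : t ∈ T then (e ⟨t, h⟩ : ℕ) else M
  let y' : ParD ι M → K := fun t =>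
    if z ∈ t.1 then
      (if t.2.2.1 = z then
        (if t.1.erase z = ∅ then (if (t.2.2.2 : ℕ) = pos ⟨∅, t.2.1⟩ then 1 else 0) else
          (if (t.2.2.2 : ℕ) = pos ⟨t.1.erase z, t.2.1 / l (t.1.erase z)⟩ then 1 else 0))
      else y (t.1.erase z, w (t.1.erase z) + t.2.1 % l (t.1.erase z), t.2.2.1, t.2.2.2))
    else y t
  -- forms of the types not containing `z`
  have hff : ∀ (U : Finset ι) (i : ℕ), z ∉ U → ff (th y') U i = ff (th y) U i := by
    intro U i hU
    funext x
    rw [ff_th, ff_th]
    refine Finset.prod_congr rfl fun a _ => ?_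
    simp only [y', hU, if_false]
  -- forms of type `{z}`
  have hffz : ∀ (i : ℕ) (j : Fin M), (j : ℕ) = pos ⟨∅, i⟩ → ff (th y') {z} i = ind K z j := by
    intro i j hj
    funext x
    rw [ff_th, Finset.prod_singleton]
    simp only [y', Finset.mem_singleton, if_true, Finset.erase_singleton, ← hj, ind]
    by_cases h : x z = j
    · rw [if_pos h, if_pos (by rw [h])]
    · rw [if_neg h, if_neg (fun h' => h (Fin.ext h'))]
  have hffU : ∀ (U : Finset ι) (s i : ℕ) (j : Fin M), z ∉ U → U.Nonempty → i < l U →
      (j : ℕ) = pos ⟨U, s⟩ → ff (th y') (insert z U) (s * l U + i) =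
        ind K z j * ff (th y) U (w U + i) := by
    intro U s i j hzU hU hi hj
    funext x
    have h2 : (insert z U).erase z = U := Finset.erase_insert hzU
    have h3 : (s * l U + i) / l U = s := by
      rw [Nat.mul_comm s, Nat.mul_add_div (by omega), Nat.div_eq_of_lt hi, Nat.add_zero]
    have h4 : (s * l U + i) % l U = i := by
      rw [Nat.mul_comm s, Nat.mul_add_mod, Nat.mod_eq_of_lt hi]
    rw [Pi.mul_apply, ff_th, ff_th, Finset.prod_insert hzU]
    congr 1
    · simp only [y', Finset.mem_insert_self, if_true, h2, hU.ne_empty, if_false, h3, ← hj, ind]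
      by_cases h : x z = j
      · rw [if_pos h, if_pos (by rw [h])]
      · rw [if_neg h, if_neg (fun h' => h (Fin.ext h'))]
    · refine Finset.prod_congr rfl fun a ha => ?_
      have haz : a ≠ z := fun h => hzU (h ▸ ha)
      simp only [y', Finset.mem_insert_self, if_true, h2, haz, if_false, h4]
  have hsing : ({z} : Finset ι) ⊆ insert z S := by simp
  have hdisj : Disjoint S ({z} : Finset ι) := Finset.disjoint_singleton_right.2 hz
  -- what comes from `S`
  have hIS : ∀ (j : Fin M) (F : (ι → Fin M) → K), F ∈ II (th y) w S →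
      ind K z j * F ∈ II (th y') w (insert z S) := by
    intro j F hF
    have h1 : F ∈ II (th y') w S := by
      refine (Submodule.span_le.2 ?_ : II (th y) w S ≤ II (th y') w S) hF
      rintro _ ⟨U, hU, hn, i, hi, g, hg, rfl⟩
      rw [← hff U i (fun h => hz (hU h))]
      exact mem_II hU hn hi hg
    exact mul_II (Finset.subset_insert z S) hsing hdisj h1 (ind_mem z j)
  -- the slices which are killed
  have hkill : ∀ (j : Fin M), (j : ℕ) < T.card → ∀ F ∈ VS K M S,
      ind K z j * F ∈ II (th y') w (insert z S) := by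
    intro j hj F hF
    obtain ⟨⟨⟨U, s⟩, hmem⟩, ht⟩ : ∃ t : T, e t = ⟨j, hj⟩ := ⟨e.symm ⟨j, hj⟩, by simp⟩
    have hposj : (j : ℕ) = pos ⟨U, s⟩ := by
      simp only [pos]
      rw [dif_pos hmem, ht]
    rw [Finset.mem_sigma, Finset.mem_powerset, Finset.mem_range] at hmem
    obtain ⟨hUS, hs⟩ := hmem
    simp only at hUS hs
    have hzU : z ∉ U := fun h => hz (hUS h)
    by_cases hU0 : U = ∅
    · subst hU0
      rw [← hffz s j hposj]
      refine mem_II hsing (Finset.singleton_nonempty z) (lt_of_lt_of_le hs hm0) ?_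
      rw [Finset.sdiff_singleton_eq_erase, Finset.erase_insert hz]
      exact hF
    · have hUn : U.Nonempty := Finset.nonempty_iff_ne_empty.2 hU0
      have h1 := Cov.zero_iff.1 (hzero U hUS hUn (by omega)) hF
      clear hF
      unfold II at h1
      induction h1 using Submodule.span_induction with
      | mem G hG =>
        obtain ⟨U', hU', hn', i, hi, g, hg, rfl⟩ := hG
        have hzU' : z ∉ U' := fun h => hz (hU' h)
        by_cases hiw : i < w U'
        · refine hIS j _ (mem_II hU' hn' hiw hg)
        · have hUU' : U' = U := by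
            by_contra hne
            rw [Function.update_of_ne hne] at hi
            exact hiw hi
          subst hUU'
          rw [Function.update_self] at hi
          have hil : i - w U' < l U' := by omega
          have h2 := hffU U' s (i - w U') j hzU hUn hil hposj
          rw [show w U' + (i - w U') = i by omega] at h2
          rw [← mul_assoc, ← h2]
          refine mem_II (Finset.insert_subset_insert z hUS) (Finset.insert_nonempty z U') ?_ ?_
          · calc s * l U' + (i - w U') < s * l U' + l U' := by omega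
              _ = (s + 1) * l U' := by ring
              _ ≤ m U' * l U' := Nat.mul_le_mul_right _ hs
              _ ≤ w (insert z U') := hml U' hUS hUn
          · have h3 : insert z S \ insert z U' = S \ U' := by
              ext a
              simp only [Finset.mem_sdiff, Finset.mem_insert]
              constructor
              · rintro ⟨h4, h5⟩
                push Not at h5
                exact ⟨h4.resolve_left h5.1, h5.2⟩
              · rintro ⟨h4, h5⟩
                refine ⟨Or.inr h4, ?_⟩
                push Not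
                exact ⟨fun h => hz (h ▸ h4), h5⟩
            rw [h3]; exact hg
      | zero => rw [mul_zero]; exact Submodule.zero_mem _
      | add F G _ _ h1 h2 =>
        rw [mul_add]
        exact Submodule.add_mem _ h1 h2
      | smul a F _ h1 =>
        rw [mul_smul_comm]
        exact Submodule.smul_mem _ _ h1
  obtain ⟨C, hCc, hCV, hC⟩ := hc.exists_compl
  refine ⟨y', Cov.of_le (⨆ j ∈ (Finset.univ.filter fun j : Fin M => T.card ≤ (j : ℕ)),
    C.map (LinearMap.mulLeft K (ind K z j))) ?_ ?_⟩
  · have h1 : finrank K (⨆ j ∈ (Finset.univ.filter fun j : Fin M => T.card ≤ (j : ℕ)),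
        C.map (LinearMap.mulLeft K (ind K z j)) : Submodule K ((ι → Fin M) → K)) ≤
        ∑ j ∈ (Finset.univ.filter fun j : Fin M => T.card ≤ (j : ℕ)),
          finrank K (C.map (LinearMap.mulLeft K (ind K z j))) :=
      finrank_biSup_le _ _ fun j _ => inferInstance
    refine h1.trans ?_
    have h2 : ∀ j ∈ (Finset.univ.filter fun j : Fin M => T.card ≤ (j : ℕ)),
        finrank K (C.map (LinearMap.mulLeft K (ind K z j))) ≤ c := fun j _ =>
      (Submodule.finrank_map_le _ _).trans hCc
    refine (Finset.sum_le_card_nsmul _ _ _ h2).trans ?_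
    rw [smul_eq_mul]
    refine Nat.mul_le_mul_right _ ?_
    rw [← hTcard]
    have h3 : (Finset.univ.filter fun j : Fin M => T.card ≤ (j : ℕ)).card ≤
        (Finset.Ico T.card M).card := by
      refine Finset.card_le_card_of_injOn (fun j => (j : ℕ)) ?_ ?_
      · intro j hj
        simp only [Finset.coe_filter, Set.mem_ofPred_eq, Finset.mem_univ, true_and] at hj
        simp only [Finset.coe_Ico, Set.mem_Ico]
        exact ⟨hj, j.2⟩
      · intro a _ b _ hab
        exact Fin.ext hab
    rwa [Nat.card_Ico] at h3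
  · intro F hF
    rw [decomp z F]
    refine Submodule.sum_mem _ fun j _ => ?_
    have h1 := slice_mem hz hF j
    by_cases hj : (j : ℕ) < T.card
    · exact Submodule.mem_sup_left (hkill j hj _ h1)
    · have h2 := hC h1
      rw [Submodule.mem_sup] at h2
      obtain ⟨a, ha, b, hb, hab⟩ := h2
      rw [← hab, mul_add]
      refine Submodule.add_mem_sup (hIS j a ha) ?_
      refine Submodule.mem_iSup_of_mem j (Submodule.mem_iSup_of_mem ?_ ⟨b, hb, rfl⟩)
      rw [Finset.mem_filter]
      exact ⟨Finset.mem_univ j, by omega⟩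

end

end Pool.Agent.TH130.FP
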