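import Mathlib
import Pool.Agent.TH130.FP.Dec

/-!
The multilinear part of the ideal of generic decomposable forms: Shearer's bound is attained.
-/

set_option autoImplicit false
set_option linter.unusedSectionVars false

namespace Pool.Agent.TH130.FP

open Module MvPolynomial Pool.Agent.W431.Frob

noncomputable section

/-- The multilinear part of generic ideals: if the weights `p` belong to a finite set, and the
size `M` of the blocks is divisible enough, then the dimension of the quotient in degree `S` is at
most `max 0 (mu p S) * M ^ |S|`. -/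
theorem coreD (k : ℕ) : ∀ A : Set ℚ, A.Finite → (∀ a ∈ A, 0 ≤ a) → ∃ M0 : ℕ, 0 < M0 ∧
    ∀ (M : ℕ) [NeZero M], M0 ∣ M → ∀ (K : Type) [Field K] [Infinite K] (ι : Type) [Fintype ι]
      [LinearOrder ι] (S : Finset ι), S.card ≤ k → ∀ p : Finset ι → ℚ, (∀ U, p U ∈ A) →
      ∀ w : Finset ι → ℕ, (∀ U ⊆ S, U.Nonempty → p U * (M : ℚ) ^ U.card ≤ w U) →
      ∀ c : ℕ, mu p S * (M : ℚ) ^ S.card ≤ c →
      Gen K (fun y : ParD ι M → K => Cov (th y) w S c) := by
  induction k with
  | zero =>
    intro A _ _
    refine ⟨1, one_pos, fun M _ _ K _ _ ι _ _ S hS p _ w _ c hc => ?_⟩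
    have hS0 : S = ∅ := Finset.card_eq_zero.1 (by omega)
    subst hS0
    rw [mu_empty, Finset.card_empty, pow_zero, one_mul] at hc
    have hc1 : 1 ≤ c := by exact_mod_cast hc
    exact Gen.of_forall fun θ => (cov_empty (th θ) w).mono (fun _ _ _ => le_rfl) hc1
  | succ k ih =>
    intro A hA hA0
    obtain ⟨B, hB, hBv⟩ := mu_values (k + 1) A hA
    -- the new weights
    let T3 : Set ℚ := (fun t : ℚ × ℚ × ℚ => t.1 + t.2.1 / t.2.2) '' (A ×ˢ (B ×ˢ B))
    have hT3 : T3.Finite := (hA.prod (hB.prod hB)).image _
    let A' : Set ℚ := A ∪ {q | q ∈ T3 ∧ 0 ≤ q}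
    have hA' : A'.Finite := hA.union (hT3.subset fun q hq => hq.1)
    have hA'0 : ∀ a ∈ A', 0 ≤ a := by
      rintro a (ha | ha)
      · exact hA0 a ha
      · exact ha.2
    obtain ⟨M0', hM0', IH⟩ := ih A' hA' hA'0
    let Λ : Set ℚ := (fun t : ℚ × ℚ × ℚ => t.1 * t.2.1 / t.2.2) '' ((A ∪ {1}) ×ˢ (B ×ˢ B))
    have hΛ : Λ.Finite := ((hA.union (Set.finite_singleton 1)).prod (hB.prod hB)).image _
    obtain ⟨M1, hM1, hden⟩ := common_den Λ hΛ
    refine ⟨M0' * M1, Nat.mul_pos hM0' hM1, ?_⟩
    intro M _ hM K _ _ ι _ _ S hS p hp w hw c hc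
    have hMM0' : M0' ∣ M := (Dvd.intro _ rfl).trans hM
    have hMM1 : M1 ∣ M := (Dvd.intro_left _ rfl).trans hM
    have hMpos : (0 : ℚ) < M := by exact_mod_cast Nat.pos_of_ne_zero (NeZero.ne M)
    have hpA' : ∀ U, p U ∈ A' := fun U => Or.inl (hp U)
    by_cases hSk : S.card ≤ k
    · exact IH M hMM0' K ι S hSk p hpA' w hw c hc
    have hSn : S.Nonempty := by
      rw [← Finset.card_pos]; omega
    obtain ⟨z, S', rfl, hz, hzS⟩ := exists_max hSn
    rw [Finset.card_insert_of_notMem hzS] at hS hSk hc
    have hcard : S'.card = k := by omega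
    have hss : S' ⊆ insert z S' := Finset.subset_insert z S'
    by_cases hcase : ∃ T ⊆ S', mu p T ≤ 0
    · obtain ⟨T, hT, hT0⟩ := hcase
      have h1 : Gen K (fun y : ParD ι M → K => Cov (th y) w T 0) := by
        refine IH M hMM0' K ι T ((Finset.card_le_card hT).trans hcard.le) p hpA' w
          (fun U hU hn => hw U ((hU.trans hT).trans hss) hn) 0 ?_
        rw [Nat.cast_zero]
        exact mul_nonpos_of_nonpos_of_nonneg hT0 (by positivity)
      exact h1.mono fun θ hθ => (Cov.zero_of_subset (hT.trans hss) hθ).mono
        (fun _ _ _ => le_rfl) (Nat.zero_le c)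
    · push Not at hcase
      have hmuB : ∀ T ⊆ S', mu p T ∈ B := fun T hT =>
        hBv ι T p hp ((Finset.card_le_card hT).trans (by omega))
      have hpos' : 0 < mu p S' := hcase S' (Finset.Subset.refl _)
      -- the numbers
      have hm : ∀ U : Finset ι, ∃ m : ℕ, U ⊆ S' →
          (m : ℚ) = p (insert z U) * mu p (S' \ U) / mu p S' * M := by
        intro U
        by_cases hU : U ⊆ S'
        · obtain ⟨t, ht⟩ := hden (p (insert z U) * mu p (S' \ U) / mu p S')
            ⟨(p (insert z U), mu p (S' \ U), mu p S'),
              ⟨Or.inl (hp _), hmuB _ Finset.sdiff_subset, hmuB _ (Finset.Subset.refl _)⟩, rfl⟩ M hMM1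
          have h0 : (0 : ℚ) ≤ t := by
            rw [← ht]
            have := hA0 _ (hp (insert z U))
            have := hcase _ (Finset.sdiff_subset : S' \ U ⊆ S')
            positivity
          have h0' : 0 ≤ t := by exact_mod_cast h0
          refine ⟨t.toNat, fun _ => ?_⟩
          rw [ht]
          have := Int.toNat_of_nonneg h0'
          exact_mod_cast this
        · exact ⟨0, fun h => absurd h hU⟩
      choose m hm using hm
      have hl : ∀ U : Finset ι, ∃ l : ℕ, U ⊆ S' → U.Nonempty →
          (l : ℚ) = mu p S' / mu p (S' \ U) * (M : ℚ) ^ U.card := by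
        intro U
        by_cases hU : U ⊆ S' ∧ U.Nonempty
        · obtain ⟨t, ht⟩ := hden (1 * mu p S' / mu p (S' \ U))
            ⟨(1, mu p S', mu p (S' \ U)),
              ⟨Or.inr rfl, hmuB _ (Finset.Subset.refl _), hmuB _ Finset.sdiff_subset⟩, rfl⟩ M hMM1
          rw [one_mul] at ht
          have h0 : (0 : ℚ) ≤ t := by
            rw [← ht]
            have := hcase _ (Finset.sdiff_subset : S' \ U ⊆ S')
            positivity
          have h0' : 0 ≤ t := by exact_mod_cast h0
          refine ⟨t.toNat * M ^ (U.card - 1), fun _ _ => ?_⟩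
          have h3 : ((t.toNat : ℕ) : ℚ) = t := by
            have := Int.toNat_of_nonneg h0'
            exact_mod_cast this
          have h4 : 0 < U.card := Finset.card_pos.2 hU.2
          have h5 : (M : ℚ) ^ U.card = M * (M : ℚ) ^ (U.card - 1) := by
            rw [← pow_succ', Nat.sub_add_cancel h4]
          push_cast
          rw [h3, ← ht, h5]
          ring
        · exact ⟨0, fun h h' => absurd ⟨h, h'⟩ hU⟩
      choose l hl using hl
      have hc' : ∃ c' : ℕ, (c' : ℚ) = mu p S' * (M : ℚ) ^ k := by
        rcases Nat.eq_zero_or_pos k with hk | hk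
        · have h1 : S' = ∅ := Finset.card_eq_zero.1 (by omega)
          exact ⟨1, by rw [h1, mu_empty, hk]; simp⟩
        · obtain ⟨t, ht⟩ := hden (1 * mu p S' / mu p ∅)
            ⟨(1, mu p S', mu p ∅),
              ⟨Or.inr rfl, hmuB _ (Finset.Subset.refl _), hmuB _ (Finset.empty_subset _)⟩, rfl⟩
            M hMM1
          rw [one_mul, mu_empty, div_one] at ht
          have h0 : (0 : ℚ) ≤ t := by
            rw [← ht]; positivity
          have h0' : 0 ≤ t := by exact_mod_cast h0
          refine ⟨t.toNat * M ^ (k - 1), ?_⟩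
          have h3 : ((t.toNat : ℕ) : ℚ) = t := by
            have := Int.toNat_of_nonneg h0'
            exact_mod_cast this
          have h5 : (M : ℚ) ^ k = M * (M : ℚ) ^ (k - 1) := by
            rw [← pow_succ', Nat.sub_add_cancel hk]
          push_cast
          rw [h3, ← ht, h5]
          ring
      obtain ⟨c', hc'⟩ := hc'
      -- generic properties in degree `S'`
      have G1 : Gen K (fun y : ParD ι M → K => ∀ U ∈ S'.powerset, U.Nonempty →
          Cov (th y) (Function.update w U (w U + l U)) S' 0) := by
        refine Gen.forall_mem fun U hU => ?_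
        rw [Finset.mem_powerset] at hU
        by_cases hUn : U.Nonempty
        · have hx := hcase _ (Finset.sdiff_subset : S' \ U ⊆ S')
          have h1 : Gen K (fun y : ParD ι M → K =>
              Cov (th y) (Function.update w U (w U + l U)) S' 0) := by
            refine IH M hMM0' K ι S' hcard.le
              (Function.update p U (p U + mu p S' / mu p (S' \ U))) ?_ _ ?_ 0 ?_
            · intro V
              by_cases hVU : V = U
              · subst hVU
                rw [Function.update_self]
                refine Or.inr ⟨⟨(p V, mu p S', mu p (S' \ V)),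
                  ⟨hp V, hmuB _ (Finset.Subset.refl _), hmuB _ Finset.sdiff_subset⟩, rfl⟩, ?_⟩
                have := hA0 _ (hp V)
                positivity
              · rw [Function.update_of_ne hVU]; exact hpA' V
            · intro V hV hVn
              by_cases hVU : V = U
              · subst hVU
                rw [Function.update_self, Function.update_self]
                push_cast
                rw [add_mul, hl V hV hVn]
                have := hw V (hV.trans hss) hVn
                linarith
              · rw [Function.update_of_ne hVU, Function.update_of_ne hVU]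
                exact hw V (hV.trans hss) hVn
            · rw [mu_update p hUn, if_pos hU, div_mul_cancel₀ _ hx.ne', sub_self, zero_mul,
                Nat.cast_zero]
          exact h1.mono fun θ hθ _ => hθ
        · exact Gen.of_forall fun θ h => absurd h hUn
      have G2 : Gen K (fun y : ParD ι M → K => Cov (th y) w S' c') :=
        IH M hMM0' K ι S' hcard.le p hpA' w (fun U hU hn => hw U (hU.trans hss) hn) c'
          (by rw [hc', hcard])
      obtain ⟨θ, hθ1, hθ2⟩ := (G1.and G2).exists
      have R1 : m ∅ ≤ w {z} := by
        have h1 := hm ∅ (Finset.empty_subset _)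
        have h2 : insert z (∅ : Finset ι) = {z} := rfl
        rw [h2, Finset.sdiff_empty, mul_div_cancel_right₀ _ hpos'.ne'] at h1
        have h3 := hw {z} (by simp) (Finset.singleton_nonempty z)
        rw [Finset.card_singleton, pow_one] at h3
        have h4 : (m ∅ : ℚ) ≤ w {z} := by rw [h1]; exact h3
        exact_mod_cast h4
      have R2 : ∀ U ⊆ S', U.Nonempty → m U * l U ≤ w (insert z U) := by
        intro U hU hUn
        have h1 := hm U hU
        have h2 := hl U hU hUn
        have hx := hcase _ (Finset.sdiff_subset : S' \ U ⊆ S')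
        have h3 := hw (insert z U) (Finset.insert_subset_insert z hU) (Finset.insert_nonempty z U)
        rw [Finset.card_insert_of_notMem (fun h => hzS (hU h))] at h3
        have h4 : (m U : ℚ) * l U ≤ w (insert z U) := by
          rw [h1, h2]
          refine le_trans (le_of_eq ?_) h3
          field_simp
          ring
        exact_mod_cast h4
      obtain ⟨θ', hθ'⟩ := rec_stepD hzS θ w m l R1 R2
        (fun U hU hUn _ => hθ1 U (Finset.mem_powerset.2 hU) hUn) hθ2
      refine (gen_covD hθ').mono fun θ'' h => h.mono (fun _ _ _ => le_rfl) ?_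
      -- the final estimate
      have h1 : ((∑ U ∈ S'.powerset, m U : ℕ) : ℚ) = (1 - mu p (insert z S') / mu p S') * M := by
        push_cast
        rw [Finset.sum_congr rfl fun U hU => hm U (Finset.mem_powerset.1 hU), ← Finset.sum_mul,
          ← Finset.sum_div, mu_insert p hz]
        field_simp
        ring
      by_cases h2 : M ≤ ∑ U ∈ S'.powerset, m U
      · rw [Nat.sub_eq_zero_of_le h2, zero_mul]; exact Nat.zero_le c
      · push Not at h2
        have h3 : (((M - ∑ U ∈ S'.powerset, m U) * c' : ℕ) : ℚ) ≤ c := by
          rw [Nat.cast_mul, Nat.cast_sub h2.le, h1, hc']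
          refine le_trans (le_of_eq ?_) hc
          rw [hcard]
          field_simp
          ring
        exact_mod_cast h3

end

end Pool.Agent.TH130.FP
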