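import Mathlib
import Pool.Agent.W431.Frob.Spec
import Pool.Agent.TH130.FP.CoreD

/-!
Bounds for the Hilbert function of the ideals generated by powers of the sums of linear forms in
different blocks.
-/

set_option autoImplicit false
set_option linter.unusedSectionVars false

namespace Pool.Agent.TH130.FP

open Module MvPolynomial H350MG Pool.Agent.W431.Frob

noncomputable section

/-- powers of sums of elements of square zero -/
lemma sum_pow_sq_zero {A ι : Type*} [CommRing A] [DecidableEq ι] (c : ι → A) (U : Finset ι)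
    (h : ∀ a ∈ U, c a * c a = 0) :
    (∑ a ∈ U, c a) ^ (U.card + 1) = 0 ∧
      (∑ a ∈ U, c a) ^ U.card = (U.card.factorial : A) * ∏ a ∈ U, c a := by
  induction U using Finset.induction_on with
  | empty => simp
  | insert z U hz ih =>
    obtain ⟨h1, h2⟩ := ih fun a ha => h a (Finset.mem_insert_of_mem ha)
    have hzz := h z (Finset.mem_insert_self z U)
    have key : ∀ (s : A) (n : ℕ), (c z + s) ^ (n + 1) = s ^ (n + 1) + (n + 1 : ℕ) * c z * s ^ n := by
      intro s n
      induction n with
      | zero => simp; ring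
      | succ n ihn =>
        rw [pow_succ, ihn]
        have : (s ^ (n + 1) + (n + 1 : ℕ) * c z * s ^ n) * (c z + s) =
          s ^ (n + 1 + 1) + ((n + 1 + 1 : ℕ) : A) * c z * s ^ (n + 1) +
            ((n + 1 : ℕ) : A) * s ^ n * (c z * c z) := by
          push_cast; ring
        rw [this, hzz, mul_zero, add_zero]
    rw [Finset.sum_insert hz, Finset.card_insert_of_notMem hz, Finset.prod_insert hz]
    constructor
    · rw [key, pow_succ, h1]; simp
    · rw [key, h1, h2, Nat.factorial_succ]
      push_cast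
      ring

variable {K : Type} [Field K] [CharZero K] {ι : Type} [Fintype ι] [DecidableEq ι] {M : ℕ} [NeZero M]
  {σ : Type} [Fintype σ] [DecidableEq σ]

/-- the sum of the linear factors -/
def LF (emb : ι → Fin M → σ) (y : ParD ι M → K) (U : Finset ι) (i : ℕ) : MvPolynomial σ K :=
  ∑ a ∈ U, PT K emb {a} (fun x => y (U, i, a, x a))

lemma LF_hom (emb : ι → Fin M → σ) (y : ParD ι M → K) (U : Finset ι) (i : ℕ) :
    LF emb y U i ∈ Rj K σ 1 := by
  refine Submodule.sum_mem _ fun a _ => ?_
  have := PT_hom (K := K) emb {a} (fun x => y (U, i, a, x a))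
  rwa [Finset.card_singleton] at this

lemma hom_pow {f : MvPolynomial σ K} (hf : f ∈ Rj K σ 1) (e : ℕ) : f ^ e ∈ Rj K σ e := by
  have h : f.IsHomogeneous 1 := hf
  have := h.pow e
  rwa [one_mul] at this

/-- the ideal of the bad monomials -/
def BI (K : Type) [Field K] (emb : ι → Fin M → σ) : Ideal (MvPolynomial σ K) :=
  Ideal.span ((fun m => monomial m (1 : K)) '' {m | ¬ GoodM emb m})

lemma mem_BI {emb : ι → Fin M → σ} {p : MvPolynomial σ K} :
    p ∈ BI K emb ↔ ∀ m ∈ p.support, ¬ GoodM emb m := by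
  unfold BI
  rw [mem_ideal_span_monomial_image]
  constructor
  · intro h m hm hg
    obtain ⟨m', hm', hle⟩ := h m hm
    exact hm' (good_of_le hle hg)
  · intro h m hm
    exact ⟨m, h m hm, le_rfl⟩

/-- the span of the bad monomials of degree `k` -/
def YB (K : Type) [Field K] (emb : ι → Fin M → σ) (k : ℕ) : Submodule K (MvPolynomial σ K) :=
  Submodule.span K ((fun m => monomial m (1 : K)) '' (badM emb k : Set (σ →₀ ℕ)))

lemma finrank_YB (emb : ι → Fin M → σ) (k : ℕ) : FiniteDimensional K (YB K emb k) ∧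
    finrank K (YB K emb k) ≤ (badM emb k).card := by
  classical
  unfold YB
  rw [← Finset.coe_image]
  exact ⟨FiniteDimensional.span_finset K _,
    (finrank_span_finset_le_card _).trans Finset.card_image_le⟩

lemma mem_YB_of {emb : ι → Fin M → σ} {k : ℕ} {p : MvPolynomial σ K} (h1 : p ∈ BI K emb)
    (h2 : p ∈ Rj K σ k) : p ∈ YB K emb k := by
  rw [mem_BI] at h1
  rw [as_sum p]
  refine Submodule.sum_mem _ fun m hm => ?_
  have h3 : monomial m (coeff m p) = coeff m p • monomial m (1 : K) := by
    rw [smul_monomial, smul_eq_mul, mul_one]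
  rw [h3]
  refine Submodule.smul_mem _ _ (Submodule.subset_span ?_)
  refine ⟨m, mem_badM.2 ⟨?_, h1 m hm⟩, rfl⟩
  by_contra hcon
  rw [MvPolynomial.mem_support_iff] at hm
  exact hm ((h2 : p.IsHomogeneous k).coeff_eq_zero hcon)

lemma PT_sq_mem (emb : ι → Fin M → σ) (a : ι) (F G : (ι → Fin M) → K) :
    PT K emb {a} F * PT K emb {a} G ∈ BI K emb := by
  rw [PT_apply, PT_apply, Finset.sum_mul_sum]
  refine Ideal.sum_mem _ fun x _ => Ideal.sum_mem _ fun x' _ => ?_
  rw [smul_mul_smul_comm, monomial_mul, one_mul, smul_monomial, smul_eq_mul, mul_one]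
  rw [mem_BI]
  intro m hm
  have h1 : m = mon emb {a} x + mon emb {a} x' := by
    by_contra hne
    rw [MvPolynomial.mem_support_iff, coeff_monomial, if_neg (Ne.symm hne)] at hm
    exact hm rfl
  subst h1
  intro hg
  have h6 := hg.2 a
  have h7 : ∀ i : Fin M, 1 ≤ ∑ j'' : Fin M, (Finsupp.single (emb a i) 1 : σ →₀ ℕ) (emb a j'') := by
    intro i
    have h8 := Finset.single_le_sum (s := Finset.univ)
      (f := fun j'' : Fin M => (Finsupp.single (emb a i) 1 : σ →₀ ℕ) (emb a j''))
      (fun _ _ => Nat.zero_le _) (Finset.mem_univ i)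
    simpa using h8
  have h9 := h7 (x a)
  have h10 := h7 (x' a)
  simp only [mon, Finset.sum_singleton, Finsupp.add_apply, Finset.sum_add_distrib] at h6
  omega

lemma PT_empty (emb : ι → Fin M → σ) (F : (ι → Fin M) → K) :
    PT K emb ∅ F = C (F 0) := by
  have h : RS M (∅ : Finset ι) = {0} := by
    ext x
    rw [mem_RS, rho_empty, Finset.mem_singleton]
    exact eq_comm
  rw [PT_apply, h, Finset.sum_singleton]
  simp [mon, smul_eq_C_mul]

lemma PT_prod (emb : ι → Fin M → σ) (g : ι → (ι → Fin M) → K)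
    (U : Finset ι) (hg : ∀ a ∈ U, g a ∈ VS K M {a}) :
    PT K emb U (∏ a ∈ U, g a) = ∏ a ∈ U, PT K emb {a} (g a) ∧ (∏ a ∈ U, g a) ∈ VS K M U := by
  induction U using Finset.induction_on with
  | empty =>
    rw [Finset.prod_empty, Finset.prod_empty, PT_empty]
    exact ⟨by simp, fun x => rfl⟩
  | insert z U hz ih =>
    obtain ⟨h1, h2⟩ := ih fun a ha => hg a (Finset.mem_insert_of_mem ha)
    rw [Finset.prod_insert hz, Finset.prod_insert hz, ← h1,
      PT_mul emb (Finset.disjoint_singleton_left.2 hz) (hg z (Finset.mem_insert_self z U)) h2]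
    refine ⟨rfl, ?_⟩
    exact mul_mem_VS (Finset.singleton_subset_iff.2 (Finset.mem_insert_self z U))
      (Finset.subset_insert z U) (hg z (Finset.mem_insert_self z U)) h2

lemma LF_pow_sub (emb : ι → Fin M → σ) (y : ParD ι M → K) (U : Finset ι) (i : ℕ) :
    LF emb y U i ^ U.card - (U.card.factorial : K) • PT K emb U (ff (th y) U i) ∈ BI K emb := by
  rw [← Ideal.Quotient.eq_zero_iff_mem, map_sub, map_pow, sub_eq_zero]
  unfold LF
  rw [map_sum]
  obtain ⟨-, h2⟩ := sum_pow_sq_zero (A := MvPolynomial σ K ⧸ BI K emb)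
    (fun a => Ideal.Quotient.mk (BI K emb) (PT K emb {a} (fun x => y (U, i, a, x a)))) U (by
      intro a _
      rw [← map_mul, Ideal.Quotient.eq_zero_iff_mem]
      exact PT_sq_mem emb a _ _)
  rw [h2, ← map_prod]
  have h3 : ff (th y) U i = ∏ a ∈ U, (fun x : ι → Fin M => y (U, i, a, x a)) := by
    funext x
    rw [ff_th, Finset.prod_apply]
  have h4 := (PT_prod (K := K) emb (fun a x => y (U, i, a, x a)) U (by
    intro a _
    refine mem_VS_of fun x x' hx => ?_
    rw [hx a (Finset.mem_singleton_self a)])).1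
  rw [h3, h4, Algebra.smul_def, map_mul]
  simp

/-- the family contains the powers of the sums of linear factors -/
def SlotsD (emb : ι → Fin M → σ) (y : ParD ι M → K) (w : Finset ι → ℕ) (k : ℕ) {r : ℕ}
    (d : Fin r → ℕ) (F : Fin r → MvPolynomial σ K) : Prop :=
  ∀ U : Finset ι, U.Nonempty → U.card ≤ k → ∀ i < w U, ∃ s : Fin r, d s = U.card ∧
    F s = LF emb y U i ^ U.card

variable {emb : ι → Fin M → σ} {y : ParD ι M → K} {w : Finset ι → ℕ} {k r : ℕ} {d : Fin r → ℕ}
  {F : Fin r → MvPolynomial σ K}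

lemma PT_II_memD (hsl : SlotsD emb y w k d F) {S : Finset ι} (hS : S.card = k)
    {G : (ι → Fin M) → K} (hG : G ∈ II (th y) w S) :
    PT K emb S G ∈ J (fList d F) k ⊔ YB K emb k := by
  unfold II at hG
  induction hG using Submodule.span_induction with
  | mem G hG =>
    obtain ⟨U, hU, hn, i, hi, g, hg, rfl⟩ := hG
    have hUk : U.card ≤ k := hS ▸ Finset.card_le_card hU
    obtain ⟨s, hs1, hs2⟩ := hsl U hn hUk i hi
    have h1 : U ∪ S \ U = S := Finset.union_sdiff_of_subset hU
    have h2 := PT_mul (K := K) emb (Finset.disjoint_sdiff : Disjoint U (S \ U))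
      (ff_mem (th y) U i) hg
    rw [h1] at h2
    rw [← h2]
    have h3 : PT K emb (S \ U) g ∈ Rj K σ (k - U.card) := by
      have h3 := PT_hom (K := K) emb (S \ U) g
      rw [Finset.card_sdiff_of_subset hU] at h3
      rwa [← hS]
    have h4 := LF_pow_sub emb y U i
    have hf0 : (U.card.factorial : K) ≠ 0 := Nat.cast_ne_zero.2 (Nat.factorial_ne_zero _)
    have h5 : PT K emb U (ff (th y) U i) * PT K emb (S \ U) g =
        (U.card.factorial : K)⁻¹ • (F s * PT K emb (S \ U) g) -
        (U.card.factorial : K)⁻¹ • ((LF emb y U i ^ U.card -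
          (U.card.factorial : K) • PT K emb U (ff (th y) U i)) * PT K emb (S \ U) g) := by
      rw [← smul_sub, ← sub_mul, hs2, sub_sub_cancel, smul_mul_assoc, smul_smul,
        inv_mul_cancel₀ hf0, one_smul]
    rw [h5]
    refine Submodule.sub_mem _ (Submodule.smul_mem _ _ (Submodule.mem_sup_left ?_))
      (Submodule.smul_mem _ _ (Submodule.mem_sup_right ?_))
    · refine mem_J_of_mul (by omega) ?_
      rwa [hs1]
    · refine mem_YB_of (Ideal.mul_mem_right _ _ h4) ?_
      have h6 : LF emb y U i ^ U.card - (U.card.factorial : K) • PT K emb U (ff (th y) U i) ∈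
          Rj K σ U.card :=
        Submodule.sub_mem _ (hom_pow (LF_hom _ _ _ _) _)
          (Submodule.smul_mem _ _ (PT_hom (K := K) emb U _))
      have h7 := (h6 : IsHomogeneous _ _).mul (h3 : IsHomogeneous _ _)
      rw [Nat.add_sub_cancel' hUk] at h7
      exact h7
  | zero => rw [map_zero]; exact Submodule.zero_mem _
  | add F G _ _ h1 h2 => rw [map_add]; exact Submodule.add_mem _ h1 h2
  | smul a F _ h1 => rw [map_smul]; exact Submodule.smul_mem _ _ h1

lemma qd_le_sumD (hemb : Function.Injective fun q : ι × Fin M => emb q.1 q.2)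
    (hF : ∀ s, F s ∈ Rj K σ (d s)) (hsl : SlotsD emb y w k d F) {c : Finset ι → ℕ}
    (hCov : ∀ S : Finset ι, S.card = k → Cov (th y) w S (c S)) :
    qd (fList d F) k ≤ ((∑ S ∈ (Finset.univ : Finset ι).powersetCard k, c S : ℕ) : ℤ) +
      ((badM emb k).card : ℤ) := by
  classical
  have hC : ∀ S : Finset ι, ∃ C : Submodule K ((ι → Fin M) → K), S.card = k →
      (finrank K C ≤ c S ∧ VS K M S ≤ II (th y) w S ⊔ C) := by
    intro S
    by_cases hS : S.card = k
    · obtain ⟨C, h1, -, h2⟩ := (hCov S hS).exists_compl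
      exact ⟨C, fun _ => ⟨h1, h2⟩⟩
    · exact ⟨⊥, fun h => absurd h hS⟩
  choose C hC using hC
  let X : Submodule K (MvPolynomial σ K) :=
    ⨆ S ∈ (Finset.univ : Finset ι).powersetCard k, (C S).map (PT K emb S)
  let Y : Submodule K (MvPolynomial σ K) := YB K emb k
  have hJR : J (fList d F) k ≤ Rj K σ k := by
    refine J_le ?_ k
    intro a ha
    obtain ⟨i, rfl⟩ := mem_fList.1 ha
    exact hF i
  have : FiniteDimensional K (J (fList d F) k) := Submodule.finiteDimensional_of_le hJR
  have hXf : FiniteDimensional K X := by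
    have h := Submodule.finiteDimensional_finset_sup ((Finset.univ : Finset ι).powersetCard k)
      (fun S => (C S).map (PT K emb S))
    rw [Finset.sup_eq_iSup] at h
    exact h
  have hXr : finrank K X ≤ ∑ S ∈ (Finset.univ : Finset ι).powersetCard k, c S := by
    refine (finrank_biSup_le _ _ fun S _ => inferInstance).trans ?_
    refine Finset.sum_le_sum fun S hS => ?_
    rw [Finset.mem_powersetCard] at hS
    exact (Submodule.finrank_map_le _ _).trans (hC S hS.2).1
  have hYf : FiniteDimensional K Y := (finrank_YB emb k).1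
  have hYr : finrank K Y ≤ (badM emb k).card := (finrank_YB emb k).2
  have hle : Rj K σ k ≤ (J (fList d F) k ⊔ X) ⊔ Y := by
    refine Rj_le_of fun m hm => ?_
    by_cases hg : GoodM emb m
    · obtain ⟨T, x, hx, rfl⟩ := exists_mon hemb hg
      rw [mon_degree] at hm
      obtain ⟨G, hG, hGx⟩ := exists_PT_eq (K := K) emb T x
      rw [← hGx]
      have h1 := (hC T hm).2 hG
      rw [Submodule.mem_sup] at h1
      obtain ⟨a, ha, b, hb, hab⟩ := h1
      rw [← hab, map_add]
      refine Submodule.add_mem _ ?_ (Submodule.mem_sup_left (Submodule.mem_sup_right ?_))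
      · have h2 := PT_II_memD hsl hm ha
        exact (sup_le (le_sup_left.trans le_sup_left) le_sup_right :
          J (fList d F) k ⊔ YB K emb k ≤ (J (fList d F) k ⊔ X) ⊔ Y) h2
      · refine Submodule.mem_iSup_of_mem T (Submodule.mem_iSup_of_mem ?_ ⟨b, hb, rfl⟩)
        rw [Finset.mem_powersetCard]
        exact ⟨Finset.subset_univ T, hm⟩
    · refine Submodule.mem_sup_right (Submodule.subset_span ?_)
      exact ⟨m, mem_badM.2 ⟨hm, hg⟩, rfl⟩
  have h1 := Submodule.finrank_mono hle
  have h2 := Submodule.finrank_add_le_finrank_add_finrank (J (fList d F) k ⊔ X) Y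
  have h3 := Submodule.finrank_add_le_finrank_add_finrank (J (fList d F) k) X
  unfold qd
  rw [← finrank_Rj' (𝕜 := K) k]
  have h4 : finrank K (Rj K σ k) ≤ finrank K (J (fList d F) k) +
    (∑ S ∈ (Finset.univ : Finset ι).powersetCard k, c S) + (badM emb k).card := by omega
  have h5 : (finrank K (Rj K σ k) : ℤ) ≤ finrank K (J (fList d F) k) +
    ((∑ S ∈ (Finset.univ : Finset ι).powersetCard k, c S : ℕ) : ℤ) + (badM emb k).card := by
    exact_mod_cast h4
  linarith

lemma qd_leD (hemb : Function.Injective fun q : ι × Fin M => emb q.1 q.2)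
    (hF : ∀ s, F s ∈ Rj K σ (d s)) (hsl : SlotsD emb y w k d F) {c : ℕ}
    (hCov : ∀ S : Finset ι, S.card = k → Cov (th y) w S c) :
    qd (fList d F) k ≤ ((Fintype.card ι).choose k * c : ℕ) + ((badM emb k).card : ℤ) := by
  have h := qd_le_sumD hemb hF hsl (c := fun _ => c) hCov
  rw [Finset.sum_const, Finset.card_powersetCard, Finset.card_univ, smul_eq_mul] at h
  exact h

/-- vanishing beyond the critical density -/
lemma Rj_le_JD (hemb : Function.Injective fun q : ι × Fin M => emb q.1 q.2)
    (hsl : SlotsD emb y w k d F) (hCov : ∀ S : Finset ι, S.card = k → Cov (th y) w S 0)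
    (hbad : ∀ m ∈ badM emb k, monomial m (1 : K) ∈ J (fList d F) k) :
    Rj K σ k ≤ J (fList d F) k := by
  have hY : YB K emb k ≤ J (fList d F) k := by
    refine Submodule.span_le.2 ?_
    rintro _ ⟨m, hm, rfl⟩
    exact hbad m hm
  refine Rj_le_of fun m hm => ?_
  by_cases hg : GoodM emb m
  · obtain ⟨T, x, hx, rfl⟩ := exists_mon hemb hg
    rw [mon_degree] at hm
    obtain ⟨G, hG, hGx⟩ := exists_PT_eq (K := K) emb T x
    rw [← hGx]
    exact (sup_le le_rfl hY) (PT_II_memD hsl hm (Cov.zero_iff.1 (hCov T hm) hG))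
  · exact hbad m (mem_badM.2 ⟨hm, hg⟩)

end

end Pool.Agent.TH130.FP
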