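import Mathlib
import Pool.Agent.W431.Frob.Prep
import Pool.Agent.TH130.FP.SpecD

/-!
Polarisation, and families of powers of linear forms.
-/

set_option autoImplicit false
set_option linter.unusedSectionVars false

namespace Pool.Agent.TH130.FP

open Module MvPolynomial H350MG Pool.Agent.W431.Frob

noncomputable section

section Polar

variable {A : Type*} [CommRing A] {κ : Type*} [DecidableEq κ]

/-- alternating sums of powers of partial sums -/
def altS (v : κ → A) (T : Finset κ) (n : ℕ) : A :=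
  ∑ S ∈ T.powerset, (-1) ^ (T.card + S.card) * (∑ i ∈ S, v i) ^ n

lemma altS_insert (v : κ → A) {a : κ} {T : Finset κ} (ha : a ∉ T) (n : ℕ) :
    altS v (insert a T) n =
      ∑ m ∈ Finset.range n, (n.choose m : A) * v a ^ (n - m) * altS v T m := by
  unfold altS
  rw [Finset.sum_powerset_insert ha, ← Finset.sum_add_distrib]
  have h1 : ∀ S ∈ T.powerset, (-1 : A) ^ ((insert a T).card + S.card) * (∑ i ∈ S, v i) ^ n +
      (-1) ^ ((insert a T).card + (insert a S).card) * (∑ i ∈ insert a S, v i) ^ n =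
      ∑ m ∈ Finset.range n, (n.choose m : A) * v a ^ (n - m) *
        ((-1) ^ (T.card + S.card) * (∑ i ∈ S, v i) ^ m) := by
    intro S hS
    have haS : a ∉ S := fun h => ha (Finset.mem_powerset.1 hS h)
    rw [Finset.card_insert_of_notMem ha, Finset.card_insert_of_notMem haS, Finset.sum_insert haS,
      add_comm (v a), add_pow, Finset.sum_range_succ]
    have h2 : (-1 : A) ^ (T.card + 1 + (S.card + 1)) = (-1) ^ (T.card + S.card) := by
      rw [show T.card + 1 + (S.card + 1) = (T.card + S.card) + 2 by ring, pow_add]; simp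
    have h3 : (-1 : A) ^ (T.card + 1 + S.card) = - (-1) ^ (T.card + S.card) := by
      rw [show T.card + 1 + S.card = (T.card + S.card) + 1 by ring, pow_succ]; ring
    rw [h2, h3, mul_add, Finset.mul_sum]
    simp only [Nat.sub_self, pow_zero, mul_one, Nat.choose_self, Nat.cast_one]
    have h4 : ∀ x z : A, -x * z + ((∑ i ∈ Finset.range n, x *
        ((∑ i ∈ S, v i) ^ i * v a ^ (n - i) * (n.choose i : A))) + x * z) =
        ∑ i ∈ Finset.range n, x * ((∑ i ∈ S, v i) ^ i * v a ^ (n - i) * (n.choose i : A)) := by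
      intro x z; ring
    rw [h4]
    refine Finset.sum_congr rfl fun m _ => ?_
    ring
  rw [Finset.sum_congr rfl h1, Finset.sum_comm]
  refine Finset.sum_congr rfl fun m _ => ?_
  rw [Finset.mul_sum]

lemma altS_eq (v : κ → A) (T : Finset κ) : (∀ n < T.card, altS v T n = 0) ∧
    altS v T T.card = (T.card.factorial : A) * ∏ i ∈ T, v i := by
  induction T using Finset.induction_on with
  | empty => simp [altS]
  | insert a T ha ih =>
    obtain ⟨h1, h2⟩ := ih
    rw [Finset.card_insert_of_notMem ha]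
    constructor
    · intro n hn
      rw [altS_insert v ha]
      refine Finset.sum_eq_zero fun m hm => ?_
      rw [Finset.mem_range] at hm
      rw [h1 m (by omega), mul_zero]
    · rw [altS_insert v ha, Finset.sum_range_succ, Finset.sum_eq_zero, zero_add, h2,
        Finset.prod_insert ha, Nat.add_sub_cancel_left, pow_one, Nat.factorial_succ]
      · have : ((T.card + 1).choose T.card : A) = ((T.card + 1 : ℕ) : A) := by
          rw [Nat.choose_succ_self_right]
        rw [this]
        push_cast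
        ring
      · intro m hm
        rw [Finset.mem_range] at hm
        rw [h1 m hm, mul_zero]

end Polar

section

variable {K : Type} [Field K] [CharZero K] {σ : Type} [Fintype σ] [DecidableEq σ]

/-- the powers of the partial sums of the variables -/
def pset (K : Type) [Field K] {σ : Type} [DecidableEq σ] {δ : ℕ} (v : Fin δ → σ) :
    Set (MvPolynomial σ K) :=
  Set.range fun S : Finset (Fin δ) => (∑ i ∈ S, (X (v i) : MvPolynomial σ K)) ^ δ

lemma exists_fun : ∀ (δ : ℕ) (m : σ →₀ ℕ), m.degree = δ →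
    ∃ v : Fin δ → σ, m = ∑ i, Finsupp.single (v i) 1 := by
  intro δ
  induction δ with
  | zero =>
    intro m hm
    refine ⟨Fin.elim0, ?_⟩
    rw [Finset.univ_eq_empty, Finset.sum_empty]
    exact (Finsupp.degree_eq_zero_iff m).1 hm
  | succ δ ih =>
    intro m hm
    have h1 : ∃ u, m u ≠ 0 := by
      by_contra hcon
      push Not at hcon
      have : m = 0 := Finsupp.ext hcon
      rw [this, map_zero] at hm
      omega
    obtain ⟨u, hu⟩ := h1
    have hle : Finsupp.single u 1 ≤ m := by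
      rw [Finsupp.single_le_iff]; omega
    have h2 : m - Finsupp.single u 1 + Finsupp.single u 1 = m := tsub_add_cancel_of_le hle
    have h3 : (m - Finsupp.single u 1).degree = δ := by
      have := congrArg Finsupp.degree h2
      rw [map_add, Finsupp.degree_single, hm] at this
      omega
    obtain ⟨v, hv⟩ := ih _ h3
    refine ⟨Fin.cons u v, ?_⟩
    rw [Fin.sum_univ_succ, Fin.cons_zero]
    simp only [Fin.cons_succ]
    rw [← hv, add_comm]
    exact h2.symm

lemma monomial_mem_span {δ : ℕ} (v : Fin δ → σ) :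
    monomial (∑ i, Finsupp.single (v i) 1) (1 : K) ∈ Submodule.span K (pset K v) := by
  have h1 : monomial (∑ i, Finsupp.single (v i) 1) (1 : K) = ∏ i, X (v i) := by
    rw [monomial_sum_one]
    rfl
  have h2 := (altS_eq (fun i => (X (v i) : MvPolynomial σ K)) (Finset.univ : Finset (Fin δ))).2
  rw [Finset.card_univ, Fintype.card_fin] at h2
  have hf0 : (δ.factorial : K) ≠ 0 := Nat.cast_ne_zero.2 (Nat.factorial_ne_zero _)
  have h3 : ∏ i, (X (v i) : MvPolynomial σ K) = (δ.factorial : K)⁻¹ •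
      altS (fun i => (X (v i) : MvPolynomial σ K)) (Finset.univ : Finset (Fin δ)) δ := by
    rw [h2]
    have : ((δ.factorial : ℕ) : MvPolynomial σ K) = C (δ.factorial : K) := by simp
    rw [this, ← smul_eq_C_mul, smul_smul, inv_mul_cancel₀ hf0, one_smul]
  rw [h1, h3]
  refine Submodule.smul_mem _ _ ?_
  unfold altS
  refine Submodule.sum_mem _ fun S _ => ?_
  have h4 : ((-1 : MvPolynomial σ K) ^ ((Finset.univ : Finset (Fin δ)).card + S.card)) =
      C ((-1 : K) ^ ((Finset.univ : Finset (Fin δ)).card + S.card)) := by simp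
  rw [h4, ← smul_eq_C_mul]
  exact Submodule.smul_mem _ _ (Submodule.subset_span ⟨S, rfl⟩)

/-- powers of linear forms -/
def PW (K : Type) [Field K] (σ : Type) (δ : ℕ) : Set (MvPolynomial σ K) :=
  {f | ∃ ℓ ∈ Rj K σ 1, f = ℓ ^ δ}

lemma pset_sub {δ : ℕ} (v : Fin δ → σ) : pset K v ⊆ PW K σ δ := by
  rintro _ ⟨S, rfl⟩
  exact ⟨_, Submodule.sum_mem _ fun i _ => isHomogeneous_X K (v i), rfl⟩

lemma span_PW (δ : ℕ) : Submodule.span K (PW K σ δ) = Rj K σ δ := by
  refine le_antisymm (Submodule.span_le.2 ?_) (Rj_le_of ?_)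
  · rintro _ ⟨ℓ, hℓ, rfl⟩
    exact hom_pow hℓ δ
  · intro m hm
    obtain ⟨v, rfl⟩ := exists_fun δ m hm
    exact Submodule.span_mono (pset_sub v) (monomial_mem_span v)

/-- families with prescribed powers of linear forms -/
lemma exists_familyD {r : ℕ} (d : Fin r → ℕ) (𝓕 : ℕ → Finset (MvPolynomial σ K))
    (h1 : ∀ δ, ∀ f ∈ 𝓕 δ, f ∈ PW K σ δ) (h2 : ∀ δ, (𝓕 δ).card ≤ cnt d δ) :
    ∃ ℓ : Fin r → MvPolynomial σ K, (∀ s, ℓ s ∈ Rj K σ 1) ∧
      ∀ δ, ∀ f ∈ 𝓕 δ, ∃ s, d s = δ ∧ ℓ s ^ d s = f := by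
  classical
  have h3 : ∀ δ, Nonempty (𝓕 δ ↪ {i // i ∈ (Finset.univ.filter fun i : Fin r => d i = δ)}) := by
    intro δ
    refine Function.Embedding.nonempty_of_card_le ?_
    rw [Fintype.card_coe, Fintype.card_coe]
    exact h2 δ
  let e : ∀ δ, 𝓕 δ ↪ {i // i ∈ (Finset.univ.filter fun i : Fin r => d i = δ)} := fun δ =>
    (h3 δ).some
  let G : ℕ → Fin r → MvPolynomial σ K := fun δ s =>
    if h : ∃ f : 𝓕 δ, ((e δ f : _) : Fin r) = s then (h1 δ _ h.choose.2).choose else 0
  have hG : ∀ δ s, G δ s ∈ Rj K σ 1 := by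
    intro δ s
    simp only [G]
    split_ifs with h
    · exact (h1 δ _ h.choose.2).choose_spec.1
    · exact Submodule.zero_mem _
  refine ⟨fun s => G (d s) s, fun s => hG (d s) s, ?_⟩
  intro δ f hf
  have h4 := (e δ ⟨f, hf⟩).2
  rw [Finset.mem_filter] at h4
  refine ⟨(e δ ⟨f, hf⟩ : _), h4.2, ?_⟩
  have h5 : ∃ f' : 𝓕 δ, ((e δ f' : _) : Fin r) = ((e δ ⟨f, hf⟩ : _) : Fin r) := ⟨⟨f, hf⟩, rfl⟩
  have h6 : G δ ((e δ ⟨f, hf⟩ : _) : Fin r) ^ δ = f := by
    simp only [G]
    rw [dif_pos h5]
    have h7 := h5.choose_spec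
    have h8 := (e δ).injective (Subtype.ext h7)
    have h9 := (h1 δ _ h5.choose.2).choose_spec.2
    rw [← h9, h8]
  simp only
  rw [h4.2]
  exact h6

/-- multiples of the span of members of the family -/
lemma mul_span_mem {r : ℕ} {d : Fin r → ℕ} {F : Fin r → MvPolynomial σ K} {δ k : ℕ} (hδ : δ ≤ k)
    {b : Set (MvPolynomial σ K)} (hb : ∀ f ∈ b, ∃ s, d s = δ ∧ F s = f)
    {p G : MvPolynomial σ K} (hp : p ∈ Submodule.span K b) (hG : G ∈ Rj K σ (k - δ)) :
    p * G ∈ J (fList d F) k := by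
  induction hp using Submodule.span_induction with
  | mem f hf =>
    obtain ⟨s, hs1, hs2⟩ := hb f hf
    rw [← hs2]
    refine mem_J_of_mul (by omega) ?_
    rwa [hs1]
  | zero => rw [zero_mul]; exact Submodule.zero_mem _
  | add f g _ _ h1 h2 => rw [add_mul]; exact Submodule.add_mem _ h1 h2
  | smul a f _ h1 => rw [smul_mul_assoc]; exact Submodule.smul_mem _ _ h1

/-- if a basis of powers of some degree `δ ≤ k` is in the family -/
lemma family_fullD {n k δ r : ℕ} {d : Fin r → ℕ} (hδk : δ ≤ k)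
    (h : gj (Fin n) δ ≤ (cnt d δ : ℤ)) :
    ∃ ℓ : Fin r → MvPolynomial (Fin n) K, (∀ s, ℓ s ∈ Rj K (Fin n) 1) ∧
      Rj K (Fin n) k ≤ J (fList d fun s => ℓ s ^ d s) k := by
  classical
  obtain ⟨b, hb1, hb2, hb3⟩ := exists_linearIndependent K (PW K (Fin n) δ)
  rw [span_PW] at hb2
  have hbR : ∀ f ∈ b, f ∈ Rj K (Fin n) δ := fun f hf => hb2 ▸ Submodule.subset_span hf
  have hfin : FiniteDimensional K (Submodule.span K b) := by rw [hb2]; infer_instance
  have hbf : b.Finite := by
    have h0 : LinearIndependent K (fun x : b => (⟨x, Submodule.subset_span x.2⟩ :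
        Submodule.span K b)) := by
      refine LinearIndependent.of_comp (Submodule.span K b).subtype ?_
      exact hb3
    have h9 : Finite b := h0.finite
    exact Set.toFinite b
  have hcard : (hbf.toFinset.card : ℤ) = gj (Fin n) δ := by
    have h1 := finrank_span_finset_eq_card (R := K) (s := hbf.toFinset) (by
      rw [Set.Finite.coe_toFinset]; exact hb3)
    rw [Set.Finite.coe_toFinset, hb2] at h1
    rw [← h1, finrank_Rj']
  obtain ⟨ℓ, hℓ, hF⟩ := exists_familyD (K := K) (σ := Fin n) d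
    (fun δ' => if δ' = δ then hbf.toFinset else ∅) (by
      intro δ' f hf
      by_cases hδ' : δ' = δ
      · rw [if_pos hδ', Set.Finite.mem_toFinset] at hf
        rw [hδ']
        exact hb1 hf
      · rw [if_neg hδ'] at hf
        exact absurd hf (Finset.notMem_empty _)) (by
      intro δ'
      by_cases hδ' : δ' = δ
      · rw [if_pos hδ', hδ']
        rw [← hcard] at h
        exact_mod_cast h
      · rw [if_neg hδ']; simp)
  refine ⟨ℓ, hℓ, Rj_le_of fun m hm => ?_⟩
  obtain ⟨m', hm', hd⟩ := exists_le_degree (m := m) δ (by omega)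
  have h1 : monomial m (1 : K) = monomial m' 1 * monomial (m - m') 1 := by
    rw [monomial_mul, one_mul, add_tsub_cancel_of_le hm']
  rw [h1]
  refine mul_span_mem (δ := δ) (b := b) hδk ?_ ?_ (isHomogeneous_monomial _ ?_)
  · intro f hf
    refine hF δ f ?_
    rw [if_pos rfl, Set.Finite.mem_toFinset]
    exact hf
  · rw [hb2]
    exact isHomogeneous_monomial _ hd
  · have h2 : (m - m') + m' = m := tsub_add_cancel_of_le hm'
    have h3 := congrArg Finsupp.degree h2
    rw [map_add] at h3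
    omega

/-- powers spanning the bad monomials -/
lemma exists_bads {ι : Type} [Fintype ι] [DecidableEq ι] {M : ℕ} [NeZero M]
    (emb : ι → Fin M → σ) (δ k : ℕ) (hδ : δ ≤ k) :
    ∃ 𝓑 : Finset (MvPolynomial σ K), (∀ f ∈ 𝓑, f ∈ PW K σ δ) ∧
      𝓑.card ≤ 2 ^ k * (badM emb δ).card ∧
      ∀ m ∈ badM emb δ, monomial m (1 : K) ∈ Submodule.span K (𝓑 : Set (MvPolynomial σ K)) := by
  classical
  have h0 : ∀ m : badM emb δ, ∃ v : Fin δ → σ, m.1 = ∑ i, Finsupp.single (v i) 1 := fun m =>
    exists_fun δ m.1 (mem_badM.1 m.2).1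
  choose v hv using h0
  refine ⟨Finset.univ.biUnion fun m : badM emb δ => Finset.univ.image
    fun S : Finset (Fin δ) => (∑ i ∈ S, (X (v m i) : MvPolynomial σ K)) ^ δ, ?_, ?_, ?_⟩
  · intro f hf
    rw [Finset.mem_biUnion] at hf
    obtain ⟨m, -, hf⟩ := hf
    rw [Finset.mem_image] at hf
    obtain ⟨S, -, rfl⟩ := hf
    exact pset_sub (v m) ⟨S, rfl⟩
  · refine Finset.card_biUnion_le.trans ?_
    refine (Finset.sum_le_card_nsmul _ _ (2 ^ k) fun m _ => ?_).trans ?_
    · refine Finset.card_image_le.trans ?_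
      rw [Finset.card_univ, Fintype.card_finset, Fintype.card_fin]
      exact Nat.pow_le_pow_right (by norm_num) hδ
    · rw [Finset.card_univ, Fintype.card_coe, smul_eq_mul, Nat.mul_comm]
  · intro m hm
    have h1 := monomial_mem_span (K := K) (v ⟨m, hm⟩)
    rw [← hv ⟨m, hm⟩] at h1
    refine Submodule.span_mono ?_ h1
    rintro _ ⟨S, rfl⟩
    rw [Finset.mem_coe, Finset.mem_biUnion]
    exact ⟨⟨m, hm⟩, Finset.mem_univ _, Finset.mem_image_of_mem _ (Finset.mem_univ S)⟩

end

end

end Pool.Agent.TH130.FP
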