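import Mathlib
import Pool.Agent.W431.Frob.Up2
import Pool.Agent.TH130.FP.FamD

/-!
The sharper upper bound below the critical density, for powers of linear forms.
-/

set_option autoImplicit false
set_option linter.unusedSectionVars false

namespace Pool.Agent.TH130.FP

open Module MvPolynomial H350MG Pool.Agent.W431.Frob

noncomputable section

theorem upper2D (k : ℕ) (hk : 1 ≤ k) (ε : ℚ) (hε : 0 < ε) : ∃ (C : ℚ) (n0 : ℕ), 0 ≤ C ∧ 1 ≤ n0 ∧
    ∀ (K : Type) [Field K] [CharZero K] (n : ℕ), n0 ≤ n → ∀ (r : ℕ) (d : Fin r → ℕ),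
      (∀ i, 1 ≤ d i) →
      (∀ j ≤ k, ε * (n : ℚ) ^ j ≤ (E (gj (Fin n)) (List.ofFn d) j : ℚ)) →
      ∃ F : Fin r → MvPolynomial (Fin n) K, (∃ ℓ : Fin r → MvPolynomial (Fin n) K,
          (∀ s, ℓ s ∈ Rj K (Fin n) 1) ∧ ∀ s, F s = ℓ s ^ d s) ∧
        (n : ℚ) * ((qd (fList d F) k : ℚ) - (E (gj (Fin n)) (List.ofFn d) k : ℚ)) ≤
          C * (n : ℚ) ^ k := by
  classical
  -- constants
  choose B' hB'0 hB' using fun j => E_sub 2 (by norm_num) j
  let B : ℚ := ∑ j ∈ Finset.range (k + 1), B' j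
  have hB0 : 0 ≤ B := Finset.sum_nonneg fun j _ => hB'0 j
  have hB'B : ∀ j ≤ k, B' j ≤ B := fun j hj =>
    Finset.single_le_sum (fun i _ => hB'0 i) (Finset.mem_range.2 (by omega))
  obtain ⟨Q, hQ⟩ := exists_nat_ge (max 1 (4 * (B * (k + 1)) / ε))
  have hQ1 : (1 : ℚ) ≤ Q := (le_max_left _ _).trans hQ
  have hQ0 : (0 : ℚ) < Q := by linarith
  have hQN : 0 < Q := by exact_mod_cast hQ0
  have hQ2 : B * (k + 1) / Q ≤ ε / 4 := by
    have h1 := (le_max_right _ _).trans hQ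
    rw [div_le_iff₀ hε] at h1
    rw [div_le_iff₀ hQ0]
    linarith
  let H : ℕ := Q * (2 ^ k * k.factorial) + 1
  let A : Set ℚ := (fun t : ℕ => (t : ℚ) / Q) '' (Set.Iic H)
  have hA : A.Finite := (Set.finite_Iic H).image _
  obtain ⟨M0, hM0, hcore⟩ := coreD k A hA (by
    rintro _ ⟨t, -, rfl⟩
    positivity)
  obtain ⟨M3, hM3, hint⟩ := mu_int k A hA
  let M : ℕ := M0 * Q * M3
  have hMpos : 0 < M := Nat.mul_pos (Nat.mul_pos hM0 hQN) hM3
  have : NeZero M := ⟨hMpos.ne'⟩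
  have hMQ : (0 : ℚ) < M := by exact_mod_cast hMpos
  have hM0M : M0 ∣ M := ⟨Q * M3, by simp only [M]; ring⟩
  have hQM : Q ∣ M := ⟨M0 * M3, by simp only [M]; ring⟩
  have hM3M : M3 ∣ M := ⟨M0 * Q, by simp only [M]; ring⟩
  let a : ℚ := (H : ℚ) / Q
  have ha : 0 ≤ a := by positivity
  choose C1' hC1'0 hC1' using fun j => compare M a 2 ha (by norm_num) j
  let C1 : ℚ := ∑ j ∈ Finset.range (k + 1), C1' j
  have hC10 : 0 ≤ C1 := Finset.sum_nonneg fun j _ => hC1'0 j
  have hC1'C : ∀ j ≤ k, C1' j ≤ C1 := fun j hj =>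
    Finset.single_le_sum (fun i _ => hC1'0 i) (Finset.mem_range.2 (by omega))
  obtain ⟨C2, hC20, hC2⟩ := beta_all M k
  obtain ⟨n1, hn1⟩ := exists_nat_ge (4 * C1 / ε)
  refine ⟨C1 + C2, n1 + 2 * k * M + M + 1, by positivity, by omega, ?_⟩
  intro K _ _ n hn r d hd hreg
  have hn1' : 1 ≤ n := by omega
  have hnQ : (0 : ℚ) < n := by exact_mod_cast hn1'
  have hnε : C1 / n ≤ ε / 4 := by
    have h1 : (n1 : ℚ) ≤ n := by exact_mod_cast (by omega : n1 ≤ n)
    have h2 := hn1.trans h1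
    rw [div_le_iff₀ hε] at h2
    rw [div_le_iff₀ hnQ]
    linarith
  have hEpos : ∀ j ≤ k, 0 < E (gj (Fin n)) (List.ofFn d) j := by
    intro j hj
    have h1 := hreg j hj
    have h2 : (0 : ℚ) < ε * (n : ℚ) ^ j := by positivity
    have h3 : (0 : ℚ) < (E (gj (Fin n)) (List.ofFn d) j : ℚ) := by linarith
    exact_mod_cast h3
  have hdL : ∀ δ ∈ List.ofFn d, 1 ≤ δ := by
    intro δ hδ
    rw [List.mem_ofFn'] at hδ
    obtain ⟨i, rfl⟩ := hδ
    exact hd i
  have hcase : ∀ δ, 1 ≤ δ → δ ≤ k → (cnt d δ : ℤ) < gj (Fin n) δ := by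
    intro δ h1 h2
    have h3 := E_pos_count hdL hEpos δ h1 h2
    rw [cnt_eq] at h3
    have h4 := hEpos δ h2
    linarith
  -- the blocks
  let N : ℕ := n / M
  have hN1 : N * M ≤ n := Nat.div_mul_le_self n M
  have hN2 : n < N * M + M := Nat.lt_div_mul_add (a := n) hMpos
  let t : ℕ → ℕ := fun δ => if 1 ≤ δ ∧ δ ≤ k then
    Q * cnt d δ / (N.choose δ * M ^ δ) + 1 else 0
  let w0 : ℕ → ℕ := fun δ => t δ * (M ^ δ / Q)
  have hQMδ : ∀ δ, 1 ≤ δ → Q * (M ^ δ / Q) = M ^ δ := by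
    intro δ hδ
    exact Nat.mul_div_cancel' (hQM.trans (dvd_pow_self M (by omega)))
  let q : ℕ → ℚ := fun δ => (t δ : ℚ) / Q
  have hw0q : ∀ δ, 1 ≤ δ → (w0 δ : ℚ) = q δ * (M : ℚ) ^ δ := by
    intro δ hδ
    have h1 : ((Q * (M ^ δ / Q) : ℕ) : ℚ) = ((M ^ δ : ℕ) : ℚ) := by rw [hQMδ δ hδ]
    push_cast at h1
    simp only [w0, q]
    push_cast
    rw [← h1]
    field_simp
  have ht0 : ∀ δ, ¬ (1 ≤ δ ∧ δ ≤ k) → t δ = 0 := fun δ h => if_neg h
  have hw00 : ∀ δ, ¬ (1 ≤ δ ∧ δ ≤ k) → w0 δ = 0 := by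
    intro δ h
    simp only [w0]
    rw [ht0 δ h, zero_mul]
  have hcpos : ∀ δ, δ ≤ k → 0 < N.choose δ * M ^ δ := by
    intro δ hδk
    have h1 := pow_le_choose hMpos hδk (show 2 * k * M ≤ n by omega) hN2
    by_contra hcon
    have h2 : N.choose δ * M ^ δ = 0 := by omega
    rw [h2, mul_zero] at h1
    have h3 : 0 < n ^ δ := Nat.pow_pos (by omega)
    omega
  have hcnt : ∀ δ, 1 ≤ δ → δ ≤ k → cnt d δ ≤ n ^ δ := by
    intro δ h1 h2
    have h3 := hcase δ h1 h2
    have h4 := gj_le_pow hn1' δ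
    have h5 : (cnt d δ : ℚ) < (gj (Fin n) δ : ℚ) := by exact_mod_cast h3
    have h6 : (cnt d δ : ℚ) ≤ ((n ^ δ : ℕ) : ℚ) := by push_cast; linarith
    exact_mod_cast h6
  have htH : ∀ δ, t δ ≤ H := by
    intro δ
    by_cases h : 1 ≤ δ ∧ δ ≤ k
    · simp only [t]
      rw [if_pos h]
      have h1 := pow_le_choose hMpos h.2 (show 2 * k * M ≤ n by omega) hN2
      refine Nat.succ_le_succ (Nat.div_le_of_le_mul ?_)
      calc Q * cnt d δ ≤ Q * n ^ δ := Nat.mul_le_mul_left _ (hcnt δ h.1 h.2)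
        _ ≤ Q * (2 ^ k * k.factorial * (N.choose δ * M ^ δ)) := Nat.mul_le_mul_left _ h1
        _ = N.choose δ * M ^ δ * (Q * (2 ^ k * k.factorial)) := by ring
    · rw [ht0 δ h]; exact Nat.zero_le _
  have hqA : ∀ δ, q δ ∈ A := fun δ => ⟨t δ, htH δ, rfl⟩
  have hQw : ∀ δ, 1 ≤ δ → Q * (N.choose δ * w0 δ) = t δ * (N.choose δ * M ^ δ) := by
    intro δ h1
    calc Q * (N.choose δ * w0 δ) = t δ * (N.choose δ * (Q * (M ^ δ / Q))) := by
          simp only [w0]; ring
      _ = t δ * (N.choose δ * M ^ δ) := by rw [hQMδ δ h1]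
  have hF3 : ∀ δ, 1 ≤ δ → δ ≤ k → cnt d δ ≤ N.choose δ * w0 δ := by
    intro δ h1 h2
    have h3 : Q * cnt d δ < t δ * (N.choose δ * M ^ δ) := by
      simp only [t]
      rw [if_pos ⟨h1, h2⟩, Nat.add_mul, Nat.one_mul]
      exact Nat.lt_div_mul_add (hcpos δ h2)
    rw [← hQw δ h1] at h3
    exact Nat.le_of_mul_le_mul_left h3.le hQN
  have hF4 : ∀ δ, 1 ≤ δ → δ ≤ k →
      ((N.choose δ * w0 δ : ℕ) : ℚ) - cnt d δ ≤ (n : ℚ) ^ δ / Q := by
    intro δ h1 h2
    have h3 : t δ * (N.choose δ * M ^ δ) ≤ Q * cnt d δ + N.choose δ * M ^ δ := by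
      simp only [t]
      rw [if_pos ⟨h1, h2⟩, Nat.add_mul, Nat.one_mul]
      exact Nat.add_le_add_right (Nat.div_mul_le_self _ _) _
    rw [← hQw δ h1] at h3
    have h4 : ((Q * (N.choose δ * w0 δ) : ℕ) : ℚ) ≤ ((Q * cnt d δ + N.choose δ * M ^ δ : ℕ) : ℚ) := by
      exact_mod_cast h3
    have h6 : ((N.choose δ * M ^ δ : ℕ) : ℚ) ≤ (n : ℚ) ^ δ := by
      have h7 := beta_nonneg hN1 δ
      have h8 := gj_le_pow hn1' δ
      linarith
    rw [le_div_iff₀ hQ0]
    rw [Nat.cast_mul, Nat.cast_add, Nat.cast_mul Q] at h4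
    linarith
  have hcw2 : ∀ δ, 1 ≤ δ → δ ≤ k → ((N.choose δ * w0 δ : ℕ) : ℚ) ≤ 2 * (n : ℚ) ^ δ := by
    intro δ h1 h2
    have h3 := hF4 δ h1 h2
    have h4 : (cnt d δ : ℚ) ≤ (n : ℚ) ^ δ := by exact_mod_cast hcnt δ h1 h2
    have h5 : (n : ℚ) ^ δ / Q ≤ (n : ℚ) ^ δ := div_le_self (by positivity) hQ1
    linarith
  let w' : Finset (Fin N) → ℕ := fun U => w0 U.card
  have hw's : ∀ δ, ∑ U ∈ (Finset.univ : Finset (Fin N)).powersetCard δ, w' U =
      N.choose δ * w0 δ := by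
    intro δ
    rw [Finset.sum_congr rfl (g := fun _ => w0 δ)]
    · rw [Finset.sum_const, Finset.card_powersetCard, Finset.card_univ, Fintype.card_fin,
        smul_eq_mul]
    · intro U hU
      simp only [w']
      rw [(Finset.mem_powersetCard.1 hU).2]
  -- the distribution of the forms
  have hdist : ∀ δ, ∃ g : Finset (Fin N) → ℕ, (∀ U, g U ≤ w' U) ∧ (1 ≤ δ → δ ≤ k →
      ∑ U ∈ (Finset.univ : Finset (Fin N)).powersetCard δ, g U = cnt d δ) := by
    intro δ
    by_cases h : 1 ≤ δ ∧ δ ≤ k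
    · obtain ⟨g, hg1, hg2⟩ := exists_le_sum ((Finset.univ : Finset (Fin N)).powersetCard δ) w'
        (cnt d δ) (by rw [hw's]; exact hF3 δ h.1 h.2)
      exact ⟨g, hg1, fun _ _ => hg2⟩
    · exact ⟨fun _ => 0, fun _ => Nat.zero_le _, fun h1 h2 => absurd ⟨h1, h2⟩ h⟩
  choose g hg1 hg2 using hdist
  let w : Finset (Fin N) → ℕ := fun U => g U.card U
  have hww' : ∀ U, w U ≤ w' U := fun U => hg1 U.card U
  have hws : ∀ δ, 1 ≤ δ → δ ≤ k →
      ∑ U ∈ (Finset.univ : Finset (Fin N)).powersetCard δ, w U = cnt d δ := by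
    intro δ h1 h2
    rw [← hg2 δ h1 h2]
    refine Finset.sum_congr rfl fun U hU => ?_
    simp only [w]
    rw [(Finset.mem_powersetCard.1 hU).2]
  have hw'0 : ∀ U : Finset (Fin N), ¬ (1 ≤ U.card ∧ U.card ≤ k) → w' U = 0 := fun U h => hw00 _ h
  have hws0 : ∀ δ, ¬ (1 ≤ δ ∧ δ ≤ k) →
      ∑ U ∈ (Finset.univ : Finset (Fin N)).powersetCard δ, w U = 0 := by
    intro δ h
    refine Finset.sum_eq_zero fun U hU => ?_
    have h1 := hww' U
    rw [hw'0 U (by rw [(Finset.mem_powersetCard.1 hU).2]; exact h)] at h1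
    omega
  obtain ⟨l, hl1, hl2⟩ := exists_list w
  obtain ⟨l', hl'1, hl'2⟩ := exists_list w'
  have hl'3 : ∀ δ, (l'.map Finset.card).count δ = N.choose δ * w0 δ := by
    intro δ; rw [hl'2, hw's]
  have ha' : ∀ U : Finset (Fin N), (w' U : ℚ) ≤ a * (M : ℚ) ^ U.card := by
    intro U
    by_cases h : 1 ≤ U.card
    · simp only [w']
      rw [hw0q _ h]
      refine mul_le_mul_of_nonneg_right ?_ (by positivity)
      simp only [q, a]
      refine div_le_div_of_nonneg_right ?_ hQ0.le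
      exact_mod_cast htH _
    · rw [hw'0 U (fun h' => h h'.1), Nat.cast_zero]
      positivity
  have hgood : GoodL M n a 2 l := by
    refine ⟨?_, ?_, ?_, ?_⟩
    · intro U hU
      by_contra hcon
      rw [Finset.not_nonempty_iff_eq_empty] at hcon
      have h1 := List.count_pos_iff.2 hU
      rw [hl1] at h1
      have h2 := hww' U
      rw [hw'0 U (by rw [hcon]; simp)] at h2
      omega
    · intro U
      rw [hl1]
      refine le_trans ?_ (ha' U)
      exact_mod_cast hww' U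
    · intro δ hδ
      by_contra hcon
      have h1 := List.count_pos_iff.2 hδ
      rw [hl2, hws0 δ (fun h => hcon h.1)] at h1
      omega
    · intro δ
      rw [hl2]
      by_cases h : 1 ≤ δ ∧ δ ≤ k
      · rw [hws δ h.1 h.2]
        have h4 : (cnt d δ : ℚ) ≤ (n : ℚ) ^ δ := by exact_mod_cast hcnt δ h.1 h.2
        have h5 : (0 : ℚ) ≤ (n : ℚ) ^ δ := by positivity
        linarith
      · rw [hws0 δ h, Nat.cast_zero]; positivity
  have hgood' : GoodL M n a 2 l' := by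
    refine ⟨?_, ?_, ?_, ?_⟩
    · intro U hU
      by_contra hcon
      rw [Finset.not_nonempty_iff_eq_empty] at hcon
      have h1 := List.count_pos_iff.2 hU
      rw [hl'1, hw'0 U (by rw [hcon]; simp)] at h1
      omega
    · intro U
      rw [hl'1]
      exact ha' U
    · intro δ hδ
      by_contra hcon
      have h1 := List.count_pos_iff.2 hδ
      rw [hl'3, hw00 δ (fun h => hcon h.1)] at h1
      omega
    · intro δ
      rw [hl'3]
      by_cases h : 1 ≤ δ ∧ δ ≤ k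
      · exact hcw2 δ h.1 h.2
      · rw [hw00 δ h, mul_zero, Nat.cast_zero]; positivity
  -- the degree lists
  have hEl : ∀ j ≤ k, E (gj (Fin n)) (l.map Finset.card) j = E (gj (Fin n)) (List.ofFn d) j := by
    refine E_eq_of_count fun δ hδ => ?_
    rw [hl2, cnt_eq]
    by_cases h : 1 ≤ δ
    · exact hws δ h hδ
    · rw [hws0 δ (fun h' => h h'.1)]
      symm
      unfold cnt
      rw [Finset.card_eq_zero, Finset.filter_eq_empty_iff]
      intro i _
      have := hd i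
      omega
  have hEl' : ∀ j ≤ k, 0 < XX M l' j := by
    intro j hj
    have hnj : (0 : ℚ) < (n : ℚ) ^ j := by positivity
    have h1 := hB' j n hn1' (l'.map Finset.card) (l.map Finset.card) hgood'.2.2 (by
      intro δ
      rw [hl'3, hl2]
      by_cases h : 1 ≤ δ ∧ δ ≤ k
      · rw [hws δ h.1 h.2]; exact hF3 δ h.1 h.2
      · rw [hws0 δ h]; exact Nat.zero_le _)
    have h2 : ∀ δ ∈ Finset.range (j + 1),
        (((l'.map Finset.card).count δ : ℚ) - ((l.map Finset.card).count δ : ℚ)) *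
          (n : ℚ) ^ (j - δ) ≤ (1 / Q) * (n : ℚ) ^ j := by
      intro δ hδ
      rw [Finset.mem_range] at hδ
      by_cases h : 1 ≤ δ
      · rw [hl'3, hl2, hws δ h (by omega)]
        have h3 := hF4 δ h (by omega)
        have h5 : (n : ℚ) ^ j = (n : ℚ) ^ δ * (n : ℚ) ^ (j - δ) := by
          rw [← pow_add]; congr 1; omega
        rw [h5]
        refine (mul_le_mul_of_nonneg_right h3 (pow_nonneg hnQ.le _)).trans (le_of_eq (by ring))
      · rw [hl'3, hl2, hws0 δ (fun h' => h h'.1), hw00 δ (fun h' => h h'.1)]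
        simp only [mul_zero, Nat.cast_zero, sub_zero, zero_mul]
        positivity
    have h3 := Finset.sum_le_sum h2
    rw [Finset.sum_const, Finset.card_range, nsmul_eq_mul] at h3
    have h4 : B' j * ∑ δ ∈ Finset.range (j + 1),
        (((l'.map Finset.card).count δ : ℚ) - ((l.map Finset.card).count δ : ℚ)) *
          (n : ℚ) ^ (j - δ) ≤ ε / 4 * (n : ℚ) ^ j := by
      calc B' j * ∑ δ ∈ Finset.range (j + 1),
            (((l'.map Finset.card).count δ : ℚ) - ((l.map Finset.card).count δ : ℚ)) *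
              (n : ℚ) ^ (j - δ)
          ≤ B' j * (((j + 1 : ℕ) : ℚ) * ((1 / Q) * (n : ℚ) ^ j)) :=
            mul_le_mul_of_nonneg_left h3 (hB'0 j)
        _ ≤ B * (((k + 1 : ℕ) : ℚ) * ((1 / Q) * (n : ℚ) ^ j)) := by
            refine mul_le_mul (hB'B j hj) ?_ (by positivity) hB0
            refine mul_le_mul_of_nonneg_right ?_ (by positivity)
            exact_mod_cast (by omega : j + 1 ≤ k + 1)
        _ = B * (k + 1) / Q * (n : ℚ) ^ j := by push_cast; ring
        _ ≤ _ := mul_le_mul_of_nonneg_right hQ2 hnj.le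
    have h5 := (abs_le.1 (h1.trans h4)).1
    have h6 := hC1' j n N hn1' hN1 hN2 l' hgood'
    have h7 : |XX M l' j - (E (gj (Fin n)) (l'.map Finset.card) j : ℚ)| ≤ ε / 4 * (n : ℚ) ^ j := by
      have h8 : |XX M l' j - (E (gj (Fin n)) (l'.map Finset.card) j : ℚ)| ≤
          C1' j / n * (n : ℚ) ^ j := by
        rw [div_mul_eq_mul_div, le_div_iff₀ hnQ, mul_comm]
        exact h6
      refine h8.trans (mul_le_mul_of_nonneg_right ?_ hnj.le)
      refine le_trans ?_ hnε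
      exact div_le_div_of_nonneg_right (hC1'C j hj) hnQ.le
    have h8 := (abs_le.1 h7).1
    have h9 := hreg j hj
    rw [← hEl j hj] at h9
    have h10 : ε * (n : ℚ) ^ j = ε / 4 * (n : ℚ) ^ j + ε / 4 * (n : ℚ) ^ j + ε / 2 * (n : ℚ) ^ j := by
      ring
    have h11 : 0 < ε / 2 * (n : ℚ) ^ j := by positivity
    linarith
  have hpw' : pw M l' = fun U : Finset (Fin N) => q U.card := by
    funext U
    unfold pw
    rw [hl'1]
    by_cases h : 1 ≤ U.card
    · simp only [w']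
      rw [hw0q _ h]
      field_simp
    · simp only [w', q]
      rw [hw00 _ (fun h' => h h'.1), ht0 _ (fun h' => h h'.1)]
      simp
  have hnupos : ∀ j ≤ k, 0 < nu q j := by
    intro j hj
    have h1 := hEl' j hj
    unfold XX at h1
    rw [hpw', Finset.sum_congr rfl (g := fun _ => (M : ℚ) ^ j * nu q j)] at h1
    · rw [Finset.sum_const, Finset.card_powersetCard, Finset.card_univ, Fintype.card_fin,
        nsmul_eq_mul] at h1
      by_contra hcon
      push Not at hcon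
      have h2 : (N.choose j : ℚ) * ((M : ℚ) ^ j * nu q j) ≤ 0 :=
        mul_nonpos_of_nonneg_of_nonpos (by positivity)
          (mul_nonpos_of_nonneg_of_nonpos (by positivity) hcon)
      linarith
    · intro S hS
      rw [mu_card, (Finset.mem_powersetCard.1 hS).2]
  have hint' : ∀ T : Finset (Fin N), ∃ c : ℕ, T.card ≤ k →
      (c : ℚ) = (M : ℚ) ^ T.card * mu (fun U => q U.card) T := by
    intro T
    by_cases hT : T.card ≤ k
    · obtain ⟨c, hc⟩ := hint M hM3M (Fin N) T (fun U => q U.card) (fun U => hqA _) hT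
        (by rw [mu_card]; exact hnupos _ hT)
      exact ⟨c, fun _ => hc⟩
    · exact ⟨0, fun h => absurd h hT⟩
  choose c hc using hint'
  have hgen : Gen K (fun θ : ParD (Fin N) M → K =>
      ∀ S ∈ (Finset.univ : Finset (Finset (Fin N))).filter (fun S => S.card ≤ k),
        Cov (th θ) w' S (c S)) := by
    refine Gen.forall_mem fun S hS => ?_
    rw [Finset.mem_filter] at hS
    refine hcore M hM0M K (Fin N) S hS.2 (fun U => q U.card) (fun U => hqA _) w' ?_ (c S) ?_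
    · intro U _ hUn
      simp only [w']
      rw [hw0q _ (Finset.card_pos.2 hUn)]
    · rw [hc S hS.2, mul_comm]
  obtain ⟨θ, hθ⟩ := hgen.exists
  have hpwf' : pwf M w' = fun U => q U.card := by
    rw [← hpw']
    funext U
    unfold pwf pw
    rw [hl'1]
  have hpwf : pwf M w = pw M l := by
    funext U
    unfold pwf pw
    rw [hl1]
  have hcd := subfamily (th θ) w' k (by
    intro T hT
    rw [hpwf', ← hc T hT]
    exact_mod_cast cd_le (hθ T (Finset.mem_filter.2 ⟨Finset.mem_univ T, hT⟩)))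
  -- the family
  let slots : ℕ → Finset (MvPolynomial (Fin n) K) := fun δ =>
    (((Finset.univ : Finset (Fin N)).powersetCard δ).sigma fun U => Finset.range (w U)).image
      fun x => LF (embF hN1) θ x.1 x.2 ^ δ
  obtain ⟨ℓ, hℓ, hF2⟩ := exists_familyD (K := K) (σ := Fin n) d
    (fun δ => if 1 ≤ δ ∧ δ ≤ k then slots δ else ∅) (by
      intro δ f hf
      by_cases h : 1 ≤ δ ∧ δ ≤ k
      · rw [if_pos h, Finset.mem_image] at hf
        obtain ⟨x, hx, rfl⟩ := hf
        exact ⟨_, LF_hom _ _ _ _, rfl⟩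
      · rw [if_neg h] at hf
        exact absurd hf (Finset.notMem_empty _)) (by
      intro δ
      by_cases h : 1 ≤ δ ∧ δ ≤ k
      · rw [if_pos h]
        refine Finset.card_image_le.trans (le_of_eq ?_)
        rw [Finset.card_sigma, ← hws δ h.1 h.2]
        exact Finset.sum_congr rfl fun U _ => Finset.card_range _
      · rw [if_neg h]; simp)
  obtain ⟨F, hFdef⟩ : ∃ F : Fin r → MvPolynomial (Fin n) K, F = fun s => ℓ s ^ d s := ⟨_, rfl⟩
  have hFs : ∀ s, F s = ℓ s ^ d s := fun s => by rw [hFdef]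
  have hF0 : ∃ ℓ : Fin r → MvPolynomial (Fin n) K,
        (∀ s, ℓ s ∈ Rj K (Fin n) 1) ∧ ∀ s, F s = ℓ s ^ d s := ⟨ℓ, hℓ, hFs⟩
  have hF1 : ∀ s, F s ∈ Rj K (Fin n) (d s) := fun s => by
    rw [hFs]; exact hom_pow (hℓ s) _
  simp only [← hFs] at hF2
  have hslots : SlotsD (embF hN1) θ w k d F := by
    intro U hUn hUk i hi
    have hU1 : 1 ≤ U.card := Finset.card_pos.2 hUn
    refine hF2 U.card _ ?_
    rw [if_pos ⟨hU1, hUk⟩, Finset.mem_image]
    refine ⟨⟨U, i⟩, ?_, rfl⟩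
    rw [Finset.mem_sigma, Finset.mem_powersetCard, Finset.mem_range]
    exact ⟨⟨Finset.subset_univ U, rfl⟩, hi⟩
  refine ⟨F, hF0, ?_⟩
  have h1 := qd_le_sumD (embF_inj hN1) hF1 hslots (c := fun S => cd (th θ) w S)
    (fun S _ => cov_cd (th θ) w S)
  have h2 : ((∑ S ∈ (Finset.univ : Finset (Fin N)).powersetCard k, cd (th θ) w S : ℕ) : ℚ) ≤
      XX M l k := by
    push_cast
    unfold XX
    refine Finset.sum_le_sum fun S hS => ?_
    have hS' := (Finset.mem_powersetCard.1 hS).2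
    have h3 := hcd S hS'.le w hww'
    rw [hpwf, hS'] at h3
    exact h3
  have h3 : (qd (fList d F) k : ℚ) ≤
      ((∑ S ∈ (Finset.univ : Finset (Fin N)).powersetCard k, cd (th θ) w S : ℕ) : ℚ) +
      ((badM (embF hN1) k).card : ℚ) := by exact_mod_cast h1
  have h4 := hC2 n N hn1' hN1 hN2 k hk le_rfl
  have h5 := hC1' k n N hn1' hN1 hN2 l hgood
  have h6 := (abs_le.1 (le_of_eq (rfl : |XX M l k - (E (gj (Fin n)) (l.map Finset.card) k : ℚ)| =
    |XX M l k - (E (gj (Fin n)) (l.map Finset.card) k : ℚ)|))).2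
  rw [hEl k le_rfl] at h5 h6
  have h7 : (n : ℚ) * ((qd (fList d F) k : ℚ) - (E (gj (Fin n)) (List.ofFn d) k : ℚ)) ≤
      (n : ℚ) * |XX M l k - (E (gj (Fin n)) (List.ofFn d) k : ℚ)| +
      (n : ℚ) * ((badM (embF hN1) k).card : ℚ) := by
    rw [← mul_add]
    refine mul_le_mul_of_nonneg_left ?_ hnQ.le
    linarith
  have h8 : C1' k * (n : ℚ) ^ k ≤ C1 * (n : ℚ) ^ k :=
    mul_le_mul_of_nonneg_right (hC1'C k le_rfl) (by positivity)
  rw [add_mul]
  linarith

end

end Pool.Agent.TH130.FP
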