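import Mathlib
import Pool.Agent.W431.Frob.Up
import Pool.Agent.TH130.FP.FamD

/-!
The upper bound for the Hilbert function, and the vanishing beyond the critical density, for powers
of linear forms.
-/

set_option autoImplicit false
set_option linter.unusedSectionVars false

namespace Pool.Agent.TH130.FP

open Module MvPolynomial H350MG Pool.Agent.W431.Frob

noncomputable section

theorem upperD (k : ℕ) (hk : 1 ≤ k) (η : ℚ) (hη : 0 < η) : ∃ n0 : ℕ, 1 ≤ n0 ∧
    ∀ (K : Type) [Field K] [CharZero K] (n : ℕ), n0 ≤ n → ∀ (r : ℕ) (d : Fin r → ℕ),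
      (∀ i, 1 ≤ d i) →
      ∃ F : Fin r → MvPolynomial (Fin n) K, (∃ ℓ : Fin r → MvPolynomial (Fin n) K,
          (∀ s, ℓ s ∈ Rj K (Fin n) 1) ∧ ∀ s, F s = ℓ s ^ d s) ∧
        (qd (fList d F) k : ℚ) ≤
          max 0 (E (gj (Fin n)) (List.ofFn d) k : ℚ) + η * (n : ℚ) ^ k ∧
        ((E (gj (Fin n)) (List.ofFn d) k : ℚ) ≤ -(η * (n : ℚ) ^ k) → qd (fList d F) k ≤ 0) := by
  classical
  obtain ⟨B, hB0, hB⟩ := E_sub 1 zero_le_one k
  obtain ⟨Q, hQ⟩ := exists_nat_ge (max 1 (4 * (B * (k + 1)) / η))
  have hQ1 : (1 : ℚ) ≤ Q := (le_max_left _ _).trans hQ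
  have hQ0 : (0 : ℚ) < Q := by linarith
  have hQN : 0 < Q := by exact_mod_cast hQ0
  have hQ2 : B * (k + 1) / Q ≤ η / 4 := by
    have h1 := (le_max_right _ _).trans hQ
    rw [div_le_iff₀ hη] at h1
    rw [div_le_iff₀ hQ0]
    linarith
  let H : ℕ := Q * (2 ^ k * k.factorial)
  let A : Set ℚ := (fun t : ℕ => (t : ℚ) / Q) '' (Set.Iic H)
  have hA : A.Finite := (Set.finite_Iic H).image _
  obtain ⟨M0, hM0, hcore⟩ := coreD k A hA (by
    rintro _ ⟨t, -, rfl⟩
    positivity)
  obtain ⟨M2, hM2⟩ := exists_nat_ge (max 1 (4 / η))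
  have hM21 : (1 : ℚ) ≤ M2 := (le_max_left _ _).trans hM2
  have hM2N : 0 < M2 := by
    have : (0 : ℚ) < M2 := by linarith
    exact_mod_cast this
  let M : ℕ := M0 * Q * M2
  have hMpos : 0 < M := Nat.mul_pos (Nat.mul_pos hM0 hQN) hM2N
  have : NeZero M := ⟨hMpos.ne'⟩
  have hMQ : (0 : ℚ) < M := by exact_mod_cast hMpos
  have hM0M : M0 ∣ M := ⟨Q * M2, by simp only [M]; ring⟩
  have hQM : Q ∣ M := ⟨M0 * M2, by simp only [M]; ring⟩
  have hMη : 1 / (M : ℚ) ≤ η / 4 := by
    have h1 : 4 / η ≤ M := by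
      refine ((le_max_right _ _).trans hM2).trans ?_
      have : M2 ≤ M := Nat.le_mul_of_pos_left _ (Nat.mul_pos hM0 hQN)
      exact_mod_cast this
    rw [div_le_iff₀ hη] at h1
    rw [div_le_iff₀ hMQ]
    linarith
  let a : ℚ := (H : ℚ) / Q
  have ha : 0 ≤ a := by positivity
  obtain ⟨C1, hC10, hC1⟩ := compare M a 1 ha zero_le_one k
  obtain ⟨C2', hC20', hC2'⟩ := beta_all M k
  obtain ⟨C2, hC2def⟩ : ∃ C2 : ℚ, C2 = 2 ^ k * C2' := ⟨_, rfl⟩
  have hC20 : 0 ≤ C2 := by rw [hC2def]; positivity
  have hC2 : ∀ n N : ℕ, 1 ≤ n → ∀ (h : N * M ≤ n), n < N * M + M → ∀ δ, 1 ≤ δ → δ ≤ k →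
      (n : ℚ) * ((2 ^ k * (badM (embF h) δ).card : ℕ) : ℚ) ≤ C2 * (n : ℚ) ^ δ := by
    intro n N h1 h2 h3 δ h4 h5
    have h6 := hC2' n N h1 h2 h3 δ h4 h5
    rw [hC2def]
    push_cast
    calc (n : ℚ) * (2 ^ k * ((badM (embF h2) δ).card : ℚ)) =
          2 ^ k * ((n : ℚ) * ((badM (embF h2) δ).card : ℚ)) := by ring
      _ ≤ 2 ^ k * (C2' * (n : ℚ) ^ δ) := mul_le_mul_of_nonneg_left h6 (by positivity)
      _ = _ := by ring
  obtain ⟨n1, hn1⟩ := exists_nat_ge (4 * (C1 + C2 + B * (k + 1) * C2) / η)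
  refine ⟨n1 + 2 * k * M + M + 1, by omega, ?_⟩
  intro K _ _ n hn r d hd
  have hn1' : 1 ≤ n := by omega
  have hnQ : (0 : ℚ) < n := by exact_mod_cast hn1'
  have hnη : (C1 + C2 + B * (k + 1) * C2) / n ≤ η / 4 := by
    have h1 : (n1 : ℚ) ≤ n := by exact_mod_cast (by omega : n1 ≤ n)
    have h2 := hn1.trans h1
    rw [div_le_iff₀ hη] at h2
    rw [div_le_iff₀ hnQ]
    linarith
  -- the case of very many forms of some degree
  by_cases hcase : ∃ δ, 1 ≤ δ ∧ δ ≤ k ∧ gj (Fin n) δ ≤ (cnt d δ : ℤ)
  · obtain ⟨δ, -, hδk, hδ⟩ := hcase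
    obtain ⟨ℓ, hℓ, hF2⟩ := family_fullD (K := K) hδk hδ
    have hF1 : ∀ s, (fun s => ℓ s ^ d s) s ∈ Rj K (Fin n) (d s) := fun s => hom_pow (hℓ s) _
    have h1 := qd_le_zero hF2 hF1
    have h2 : (qd (fList d fun s => ℓ s ^ d s) k : ℚ) ≤ 0 := by exact_mod_cast h1
    refine ⟨fun s => ℓ s ^ d s, ⟨ℓ, hℓ, fun _ => rfl⟩, h2.trans ?_, fun _ => h1⟩
    have := le_max_left (0 : ℚ) (E (gj (Fin n)) (List.ofFn d) k : ℚ)
    positivity
  · push Not at hcase
    -- the blocks
    let N : ℕ := n / M
    have hN1 : N * M ≤ n := Nat.div_mul_le_self n M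
    have hN2 : n < N * M + M := by
      have := Nat.lt_div_mul_add (a := n) hMpos
      exact this
    have hNM : 1 ≤ N := (Nat.one_le_div_iff hMpos).2 (by omega)
    let ρ : ℕ → ℕ := fun δ => 2 ^ k * (badM (embF hN1) δ).card
    have hρ : ∀ δ, 1 ≤ δ → δ ≤ k → (ρ δ : ℚ) ≤ C2 / n * (n : ℚ) ^ δ := by
      intro δ h1 h2
      have h3 := hC2 n N hn1' hN1 hN2 δ h1 h2
      rw [div_mul_eq_mul_div, le_div_iff₀ hnQ, mul_comm]
      exact h3
    let t : ℕ → ℕ := fun δ => if 1 ≤ δ ∧ δ ≤ k then
      Q * (cnt d δ - ρ δ) / (N.choose δ * M ^ δ) else 0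
    let w0 : ℕ → ℕ := fun δ => t δ * (M ^ δ / Q)
    have hQMδ : ∀ δ, 1 ≤ δ → Q * (M ^ δ / Q) = M ^ δ := by
      intro δ hδ
      exact Nat.mul_div_cancel' (hQM.trans (dvd_pow_self M (by omega)))
    let q : ℕ → ℚ := fun δ => (t δ : ℚ) / Q
    have hw0q : ∀ δ, 1 ≤ δ → (w0 δ : ℚ) = q δ * (M : ℚ) ^ δ := by
      intro δ hδ
      have h1 : ((Q * (M ^ δ / Q) : ℕ) : ℚ) = ((M ^ δ : ℕ) : ℚ) := by rw [hQMδ δ hδ]
      push_cast at h1
      simp only [w0, q]
      push_cast
      rw [← h1]
      field_simp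
    have ht0 : ∀ δ, ¬ (1 ≤ δ ∧ δ ≤ k) → t δ = 0 := fun δ h => if_neg h
    have hw00 : ∀ δ, ¬ (1 ≤ δ ∧ δ ≤ k) → w0 δ = 0 := by
      intro δ h
      simp only [w0]
      rw [ht0 δ h, zero_mul]
    have hcpos : ∀ δ, δ ≤ k → 0 < N.choose δ * M ^ δ := by
      intro δ hδk
      have h1 := pow_le_choose hMpos hδk (show 2 * k * M ≤ n by omega) hN2
      by_contra hcon
      have h2 : N.choose δ * M ^ δ = 0 := by omega
      rw [h2, mul_zero] at h1
      have h3 : 0 < n ^ δ := Nat.pow_pos (by omega)
      omega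
    have hcnt : ∀ δ, 1 ≤ δ → δ ≤ k → cnt d δ ≤ n ^ δ := by
      intro δ h1 h2
      have h3 := hcase δ h1 h2
      have h4 := gj_le_pow hn1' δ
      have h5 : (cnt d δ : ℚ) < (gj (Fin n) δ : ℚ) := by exact_mod_cast h3
      have h6 : (cnt d δ : ℚ) ≤ ((n ^ δ : ℕ) : ℚ) := by push_cast; linarith
      exact_mod_cast h6
    -- (F1)
    have htH : ∀ δ, t δ ≤ H := by
      intro δ
      by_cases h : 1 ≤ δ ∧ δ ≤ k
      · simp only [t]
        rw [if_pos h]
        have h1 := pow_le_choose hMpos h.2 (show 2 * k * M ≤ n by omega) hN2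
        refine Nat.div_le_of_le_mul ?_
        calc Q * (cnt d δ - ρ δ) ≤ Q * n ^ δ :=
              Nat.mul_le_mul_left _ ((Nat.sub_le _ _).trans (hcnt δ h.1 h.2))
          _ ≤ Q * (2 ^ k * k.factorial * (N.choose δ * M ^ δ)) := Nat.mul_le_mul_left _ h1
          _ = N.choose δ * M ^ δ * H := by simp only [H]; ring
      · rw [ht0 δ h]; exact Nat.zero_le _
    have hqA : ∀ δ, q δ ∈ A := fun δ => ⟨t δ, htH δ, rfl⟩
    -- (F3)
    have hF3 : ∀ δ, 1 ≤ δ → δ ≤ k → N.choose δ * w0 δ ≤ cnt d δ - ρ δ := by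
      intro δ h1 h2
      have h3 : t δ * (N.choose δ * M ^ δ) ≤ Q * (cnt d δ - ρ δ) := by
        simp only [t]
        rw [if_pos ⟨h1, h2⟩]
        exact Nat.div_mul_le_self _ _
      have h4 : Q * (N.choose δ * w0 δ) ≤ Q * (cnt d δ - ρ δ) := by
        calc Q * (N.choose δ * w0 δ) = t δ * (N.choose δ * (Q * (M ^ δ / Q))) := by
              simp only [w0]; ring
          _ = t δ * (N.choose δ * M ^ δ) := by rw [hQMδ δ h1]
          _ ≤ _ := h3
      exact Nat.le_of_mul_le_mul_left h4 hQN
    -- (F4)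
    have hF4 : ∀ δ, 1 ≤ δ → δ ≤ k →
        (cnt d δ : ℚ) - (N.choose δ * w0 δ : ℕ) ≤ ρ δ + (n : ℚ) ^ δ / Q := by
      intro δ h1 h2
      by_cases h3 : ρ δ ≤ cnt d δ
      · have h4 : Q * (cnt d δ - ρ δ) < t δ * (N.choose δ * M ^ δ) + N.choose δ * M ^ δ := by
          simp only [t]
          rw [if_pos ⟨h1, h2⟩]
          exact Nat.lt_div_mul_add (hcpos δ h2)
        have h5 : (Q : ℚ) * ((cnt d δ : ℚ) - ρ δ) ≤
            t δ * ((N.choose δ * M ^ δ : ℕ) : ℚ) + ((N.choose δ * M ^ δ : ℕ) : ℚ) := by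
          have h6 : ((Q * (cnt d δ - ρ δ) : ℕ) : ℚ) ≤
            ((t δ * (N.choose δ * M ^ δ) + N.choose δ * M ^ δ : ℕ) : ℚ) := by exact_mod_cast h4.le
          rw [Nat.cast_mul, Nat.cast_sub h3] at h6
          push_cast at h6 ⊢
          exact h6
        have h6 : ((N.choose δ * M ^ δ : ℕ) : ℚ) ≤ (n : ℚ) ^ δ := by
          have h7 := beta_nonneg hN1 δ
          have h8 := gj_le_pow hn1' δ
          linarith
        have h7 : ((N.choose δ * w0 δ : ℕ) : ℚ) = t δ * ((N.choose δ * M ^ δ : ℕ) : ℚ) / Q := by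
          rw [Nat.cast_mul, hw0q δ h1]
          simp only [q]
          push_cast
          ring
        rw [h7]
        have h8 : (cnt d δ : ℚ) - ρ δ ≤
            (t δ * ((N.choose δ * M ^ δ : ℕ) : ℚ) + (n : ℚ) ^ δ) / Q := by
          rw [le_div_iff₀ hQ0]
          linarith
        rw [add_div] at h8
        linarith
      · push Not at h3
        have h4 : (cnt d δ : ℚ) ≤ ρ δ := by exact_mod_cast h3.le
        have h5 : (0 : ℚ) ≤ (N.choose δ * w0 δ : ℕ) := by positivity
        have h6 : (0 : ℚ) ≤ (n : ℚ) ^ δ / Q := by positivity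
        linarith
    let w : Finset (Fin N) → ℕ := fun U => w0 U.card
    obtain ⟨l, hl1, hl2⟩ := exists_list w
    have hl3 : ∀ δ, (l.map Finset.card).count δ = N.choose δ * w0 δ := by
      intro δ
      rw [hl2 δ, Finset.sum_congr rfl (g := fun _ => w0 δ)]
      · rw [Finset.sum_const, Finset.card_powersetCard, Finset.card_univ, Fintype.card_fin,
          smul_eq_mul]
      · intro U hU
        simp only [w]
        rw [(Finset.mem_powersetCard.1 hU).2]
    have hlgood : GoodL M n a 1 l := by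
      refine ⟨?_, ?_, ?_, ?_⟩
      · intro U hU
        by_contra hcon
        rw [Finset.not_nonempty_iff_eq_empty] at hcon
        have h1 := List.count_pos_iff.2 hU
        rw [hl1, hcon] at h1
        simp only [w] at h1
        rw [Finset.card_empty, hw00 0 (by omega)] at h1
        omega
      · intro U
        rw [hl1]
        by_cases h : 1 ≤ U.card
        · simp only [w]
          rw [hw0q _ h]
          refine mul_le_mul_of_nonneg_right ?_ (by positivity)
          simp only [q, a]
          refine div_le_div_of_nonneg_right ?_ hQ0.le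
          exact_mod_cast htH _
        · simp only [w]
          rw [hw00 _ (fun h' => h h'.1)]
          push_cast
          positivity
      · intro δ hδ
        by_contra hcon
        have h1 := List.count_pos_iff.2 hδ
        rw [hl3, hw00 δ (fun h => hcon h.1)] at h1
        omega
      · intro δ
        rw [hl3, one_mul]
        by_cases h : 1 ≤ δ ∧ δ ≤ k
        · have h1 := hF3 δ h.1 h.2
          have h2 := hcnt δ h.1 h.2
          have h3 : N.choose δ * w0 δ ≤ n ^ δ := h1.trans ((Nat.sub_le _ _).trans h2)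
          exact_mod_cast h3
        · rw [hw00 δ h, mul_zero, Nat.cast_zero]; positivity
    have hpw : pw M l = fun U : Finset (Fin N) => q U.card := by
      funext U
      unfold pw
      rw [hl1]
      by_cases h : 1 ≤ U.card
      · simp only [w]
        rw [hw0q _ h]
        field_simp
      · simp only [w, q]
        rw [hw00 _ (fun h' => h h'.1), ht0 _ (fun h' => h h'.1)]
        simp
    have hXX : XX M l k = (N.choose k : ℚ) * ((M : ℚ) ^ k * nu q k) := by
      unfold XX
      rw [hpw, Finset.sum_congr rfl (g := fun _ => (M : ℚ) ^ k * nu q k)]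
      · rw [Finset.sum_const, Finset.card_powersetCard, Finset.card_univ, Fintype.card_fin,
          nsmul_eq_mul]
      · intro S hS
        rw [mu_card, (Finset.mem_powersetCard.1 hS).2]
    let c : ℕ := ⌈nu q k * (M : ℚ) ^ k⌉₊
    -- generic parameters
    have hgen : Gen K (fun θ : ParD (Fin N) M → K =>
        ∀ S ∈ (Finset.univ : Finset (Fin N)).powersetCard k, Cov (th θ) w S c) := by
      refine Gen.forall_mem fun S hS => ?_
      rw [Finset.mem_powersetCard] at hS
      refine hcore M hM0M K (Fin N) S hS.2.le (fun U => q U.card) (fun U => hqA _) w ?_ c ?_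
      · intro U _ hUn
        simp only [w]
        rw [hw0q _ (Finset.card_pos.2 hUn)]
      · rw [mu_card, hS.2]
        exact Nat.le_ceil _
    obtain ⟨θ, hθ⟩ := hgen.exists
    have hCov : ∀ S : Finset (Fin N), S.card = k → Cov (th θ) w S c := fun S hS =>
      hθ S (Finset.mem_powersetCard.2 ⟨Finset.subset_univ S, hS⟩)
    -- the family
    choose! 𝓑 h𝓑1 h𝓑2 h𝓑3 using fun (δ : ℕ) (hδ : δ ≤ k) =>
      exists_bads (K := K) (embF hN1) δ k hδ
    let slots : ℕ → Finset (MvPolynomial (Fin n) K) := fun δ =>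
      (((Finset.univ : Finset (Fin N)).powersetCard δ).sigma fun U => Finset.range (w U)).image
        fun x => LF (embF hN1) θ x.1 x.2 ^ δ
    let bads : ℕ → Finset (MvPolynomial (Fin n) K) := fun δ =>
      if ρ δ ≤ cnt d δ then 𝓑 δ else ∅
    obtain ⟨ℓ, hℓ, hF2⟩ := exists_familyD (K := K) (σ := Fin n) d
      (fun δ => if 1 ≤ δ ∧ δ ≤ k then slots δ ∪ bads δ else ∅) (by
        intro δ f hf
        by_cases h : 1 ≤ δ ∧ δ ≤ k
        · rw [if_pos h, Finset.mem_union] at hf
          rcases hf with hf | hf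
          · rw [Finset.mem_image] at hf
            obtain ⟨x, hx, rfl⟩ := hf
            exact ⟨_, LF_hom _ _ _ _, rfl⟩
          · simp only [bads] at hf
            split_ifs at hf
            · exact h𝓑1 δ h.2 f hf
            · exact absurd hf (Finset.notMem_empty _)
        · rw [if_neg h] at hf
          exact absurd hf (Finset.notMem_empty _)) (by
        intro δ
        by_cases h : 1 ≤ δ ∧ δ ≤ k
        · rw [if_pos h]
          have h1 : (slots δ).card ≤ N.choose δ * w0 δ := by
            refine Finset.card_image_le.trans (le_of_eq ?_)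
            rw [Finset.card_sigma, Finset.sum_congr rfl (g := fun _ => w0 δ)]
            · rw [Finset.sum_const, Finset.card_powersetCard, Finset.card_univ, Fintype.card_fin,
                smul_eq_mul]
            · intro U hU
              rw [Finset.card_range]
              simp only [w]
              rw [(Finset.mem_powersetCard.1 hU).2]
          have h2 := hF3 δ h.1 h.2
          refine (Finset.card_union_le _ _).trans ?_
          by_cases h3 : ρ δ ≤ cnt d δ
          · have h4 : (bads δ).card ≤ ρ δ := by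
              simp only [bads]
              rw [if_pos h3]
              exact h𝓑2 δ h.2
            omega
          · have h4 : (bads δ).card = 0 := by
              simp only [bads]
              rw [if_neg h3, Finset.card_empty]
            omega
        · rw [if_neg h]; simp)
    obtain ⟨F, hFdef⟩ : ∃ F : Fin r → MvPolynomial (Fin n) K, F = fun s => ℓ s ^ d s := ⟨_, rfl⟩
    have hFs : ∀ s, F s = ℓ s ^ d s := fun s => by rw [hFdef]
    have hF0 : ∃ ℓ : Fin r → MvPolynomial (Fin n) K,
          (∀ s, ℓ s ∈ Rj K (Fin n) 1) ∧ ∀ s, F s = ℓ s ^ d s := ⟨ℓ, hℓ, hFs⟩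
    have hF1 : ∀ s, F s ∈ Rj K (Fin n) (d s) := fun s => by
      rw [hFs]; exact hom_pow (hℓ s) _
    simp only [← hFs] at hF2
    have hslots : SlotsD (embF hN1) θ w k d F := by
      intro U hUn hUk i hi
      have hU1 : 1 ≤ U.card := Finset.card_pos.2 hUn
      refine hF2 U.card _ ?_
      rw [if_pos ⟨hU1, hUk⟩, Finset.mem_union]
      left
      rw [Finset.mem_image]
      refine ⟨⟨U, i⟩, ?_, rfl⟩
      rw [Finset.mem_sigma, Finset.mem_powersetCard, Finset.mem_range]
      exact ⟨⟨Finset.subset_univ U, rfl⟩, hi⟩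
    -- the numerical comparison
    have hLk := few_filter (k := k) hn1' hd hcase
    have hcount : ∀ δ, 1 ≤ δ → δ ≤ k →
        ((List.ofFn d).filter fun δ => δ ≤ k).count δ = cnt d δ := by
      intro δ _ h2
      rw [List.count_filter (by simpa using h2), cnt_eq]
    have hcount0 : ∀ δ, ¬ (1 ≤ δ ∧ δ ≤ k) →
        ((List.ofFn d).filter fun δ => δ ≤ k).count δ = 0 := by
      intro δ h
      rw [List.count_eq_zero]
      intro hmem
      have h1 := hLk.1 δ hmem
      rw [List.mem_filter] at hmem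
      exact h ⟨h1, by simpa using hmem.2⟩
    have hEk := E_filter (gj (Fin n)) k (List.ofFn d) k le_rfl
    have hEl : |(E (gj (Fin n)) (List.ofFn d) k : ℚ) -
        (E (gj (Fin n)) (l.map Finset.card) k : ℚ)| ≤
        (η / 4 + B * (k + 1) * C2 / n) * (n : ℚ) ^ k := by
      have h1 := hB n hn1' _ (l.map Finset.card) hLk (by
        intro δ
        rw [hl3]
        by_cases h : 1 ≤ δ ∧ δ ≤ k
        · rw [hcount δ h.1 h.2]
          have := hF3 δ h.1 h.2
          omega
        · rw [hw00 δ h]; omega)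
      rw [hEk] at h1
      refine h1.trans ?_
      have h2 : ∀ δ ∈ Finset.range (k + 1),
          ((((List.ofFn d).filter fun δ => δ ≤ k).count δ : ℚ) -
            ((l.map Finset.card).count δ : ℚ)) * (n : ℚ) ^ (k - δ) ≤
          (1 / Q + C2 / n) * (n : ℚ) ^ k := by
        intro δ hδ
        rw [Finset.mem_range] at hδ
        by_cases h : 1 ≤ δ ∧ δ ≤ k
        · rw [hcount δ h.1 h.2, hl3]
          have h3 := hF4 δ h.1 h.2
          have h4 := hρ δ h.1 h.2
          have h5 : (n : ℚ) ^ k = (n : ℚ) ^ δ * (n : ℚ) ^ (k - δ) := by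
            rw [← pow_add]; congr 1; omega
          have h6 : (1 / (Q : ℚ) + C2 / n) * (n : ℚ) ^ δ = C2 / n * (n : ℚ) ^ δ + (n : ℚ) ^ δ / Q := by
            ring
          have h7 : ((cnt d δ : ℚ) - ((N.choose δ * w0 δ : ℕ) : ℚ)) * (n : ℚ) ^ (k - δ) ≤
              ((1 / (Q : ℚ) + C2 / n) * (n : ℚ) ^ δ) * (n : ℚ) ^ (k - δ) := by
            refine mul_le_mul_of_nonneg_right ?_ (pow_nonneg hnQ.le _)
            rw [h6]
            linarith
          rw [h5]
          exact h7.trans (le_of_eq (by ring))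
        · rw [hcount0 δ h, hl3, hw00 δ h]
          simp only [mul_zero, Nat.cast_zero, sub_zero, zero_mul]
          positivity
      have h3 := Finset.sum_le_sum h2
      rw [Finset.sum_const, Finset.card_range, nsmul_eq_mul] at h3
      calc B * ∑ δ ∈ Finset.range (k + 1),
            ((((List.ofFn d).filter fun δ => δ ≤ k).count δ : ℚ) -
            ((l.map Finset.card).count δ : ℚ)) * (n : ℚ) ^ (k - δ)
          ≤ B * (((k + 1 : ℕ) : ℚ) * ((1 / Q + C2 / n) * (n : ℚ) ^ k)) :=
            mul_le_mul_of_nonneg_left h3 hB0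
        _ = (B * (k + 1) / Q + B * (k + 1) * C2 / n) * (n : ℚ) ^ k := by push_cast; ring
        _ ≤ _ := mul_le_mul_of_nonneg_right (by linarith) (by positivity)
    have hcmp : |XX M l k - (E (gj (Fin n)) (l.map Finset.card) k : ℚ)| ≤
        C1 / n * (n : ℚ) ^ k := by
      have h1 := hC1 n N hn1' hN1 hN2 l hlgood
      rw [div_mul_eq_mul_div, le_div_iff₀ hnQ, mul_comm]
      exact h1
    have hsplit : C1 / n + C2 / n + B * (k + 1) * C2 / n ≤ η / 4 := by
      have : C1 / n + C2 / n + B * (k + 1) * C2 / n = (C1 + C2 + B * (k + 1) * C2) / n := by ring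
      rw [this]; exact hnη
    have hnk : (0 : ℚ) < (n : ℚ) ^ k := by positivity
    have hC1n : 0 ≤ C1 / n := by positivity
    have hC2n : 0 ≤ C2 / n := by positivity
    have hC3n : 0 ≤ B * (k + 1) * C2 / n := by positivity
    have hXE : |XX M l k - (E (gj (Fin n)) (List.ofFn d) k : ℚ)| ≤ (η / 2 - C2 / n) * (n : ℚ) ^ k := by
      have h1 : XX M l k - (E (gj (Fin n)) (List.ofFn d) k : ℚ) =
        (XX M l k - (E (gj (Fin n)) (l.map Finset.card) k : ℚ)) -
        ((E (gj (Fin n)) (List.ofFn d) k : ℚ) - (E (gj (Fin n)) (l.map Finset.card) k : ℚ)) := by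
        ring
      rw [h1]
      refine (abs_sub _ _).trans ((add_le_add hcmp hEl).trans ?_)
      rw [← add_mul]
      refine mul_le_mul_of_nonneg_right ?_ hnk.le
      linarith
    refine ⟨F, hF0, ?_, ?_⟩
    · have h1 := qd_leD (embF_inj hN1) hF1 hslots hCov
      rw [Fintype.card_fin] at h1
      have h2 : (qd (fList d F) k : ℚ) ≤ ((N.choose k * c : ℕ) : ℚ) + (ρ k : ℚ) := by
        have h1' : (qd (fList d F) k : ℚ) ≤ ((N.choose k * c : ℕ) : ℚ) +
            ((badM (embF hN1) k).card : ℚ) := by exact_mod_cast h1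
        have h1'' : ((badM (embF hN1) k).card : ℚ) ≤ (ρ k : ℚ) := by
          have : (badM (embF hN1) k).card ≤ ρ k := Nat.le_mul_of_pos_left _ (by positivity)
          exact_mod_cast this
        linarith
      have h3 : ((N.choose k * c : ℕ) : ℚ) ≤ max 0 (XX M l k) + N.choose k := by
        rw [hXX]
        have h4 : (c : ℚ) ≤ max 0 (nu q k * (M : ℚ) ^ k) + 1 := by
          by_cases h5 : 0 ≤ nu q k * (M : ℚ) ^ k
          · rw [max_eq_right h5]
            exact (Nat.ceil_lt_add_one h5).le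
          · push Not at h5
            have h6 : c = 0 := Nat.ceil_eq_zero.2 h5.le
            rw [h6, max_eq_left h5.le]; simp
        have h5 : (0 : ℚ) ≤ N.choose k := by positivity
        calc ((N.choose k * c : ℕ) : ℚ) = N.choose k * (c : ℚ) := by push_cast; ring
          _ ≤ N.choose k * (max 0 (nu q k * (M : ℚ) ^ k) + 1) := mul_le_mul_of_nonneg_left h4 h5
          _ = max 0 ((N.choose k : ℚ) * ((M : ℚ) ^ k * nu q k)) + N.choose k := by
            rw [mul_add, mul_one, mul_max_of_nonneg _ _ h5, mul_zero, mul_comm (nu q k)]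
      have h4 : (N.choose k : ℚ) ≤ η / 4 * (n : ℚ) ^ k := by
        have h5 : N.choose k * M ≤ n ^ k := by
          calc N.choose k * M ≤ N ^ k * M ^ k := by
                refine Nat.mul_le_mul (Nat.choose_le_pow N k) ?_
                exact Nat.le_self_pow (by omega) M
            _ = (N * M) ^ k := (mul_pow _ _ _).symm
            _ ≤ n ^ k := Nat.pow_le_pow_left hN1 k
        have h6 : (N.choose k : ℚ) * M ≤ (n : ℚ) ^ k := by exact_mod_cast h5
        have h7 : (N.choose k : ℚ) ≤ (n : ℚ) ^ k * (1 / M) := by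
          rw [mul_one_div, le_div_iff₀ hMQ]; exact h6
        refine h7.trans ?_
        rw [mul_comm (η / 4)]
        exact mul_le_mul_of_nonneg_left hMη hnk.le
      have h5 := hρ k hk le_rfl
      have h6 : max 0 (XX M l k) ≤ max 0 (E (gj (Fin n)) (List.ofFn d) k : ℚ) +
          (η / 2 - C2 / n) * (n : ℚ) ^ k := by
        have h7 := (abs_le.1 hXE).2
        have h8 : 0 ≤ (η / 2 - C2 / n) * (n : ℚ) ^ k := (abs_nonneg _).trans hXE
        refine max_le ?_ ?_
        · have := le_max_left (0 : ℚ) (E (gj (Fin n)) (List.ofFn d) k : ℚ)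
          linarith
        · have := le_max_right (0 : ℚ) (E (gj (Fin n)) (List.ofFn d) k : ℚ)
          linarith
      have h7 : η * (n : ℚ) ^ k = η / 4 * (n : ℚ) ^ k + C2 / n * (n : ℚ) ^ k +
          (η / 2 - C2 / n) * (n : ℚ) ^ k + η / 4 * (n : ℚ) ^ k := by ring
      have h8 : 0 ≤ η / 4 * (n : ℚ) ^ k := by positivity
      rw [h7]
      linarith
    · intro hneg
      -- the multilinear part is killed
      have hnu : nu q k < 0 := by
        have h1 := (abs_le.1 hXE).2
        have h2 : XX M l k < 0 := by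
          have h3 : (η / 2 - C2 / n) * (n : ℚ) ^ k ≤ η / 2 * (n : ℚ) ^ k :=
            mul_le_mul_of_nonneg_right (by linarith) hnk.le
          have h4 : η / 2 * (n : ℚ) ^ k < η * (n : ℚ) ^ k :=
            mul_lt_mul_of_pos_right (by linarith) hnk
          linarith
        rw [hXX] at h2
        by_contra hcon
        push Not at hcon
        have : 0 ≤ (N.choose k : ℚ) * ((M : ℚ) ^ k * nu q k) := by positivity
        linarith
      have hc0 : c = 0 := by
        refine Nat.ceil_eq_zero.2 ?_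
        exact mul_nonpos_of_nonpos_of_nonneg hnu.le (by positivity)
      rw [hc0] at hCov
      -- some degree is abundant
      have hab : ∃ δ, 2 ≤ δ ∧ δ ≤ k ∧ ρ δ ≤ cnt d δ := by
        by_contra hcon
        push Not at hcon
        have h1 := hB n hn1' _ (List.replicate (cnt d 1) 1) hLk (by
          intro δ
          rw [List.count_replicate]
          by_cases h : 1 = δ
          · subst h
            rw [hcount 1 le_rfl hk]; simp
          · simp [h])
        rw [hEk] at h1
        have h2 : ∀ δ ∈ Finset.range (k + 1),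
            ((((List.ofFn d).filter fun δ => δ ≤ k).count δ : ℚ) -
              ((List.replicate (cnt d 1) 1).count δ : ℚ)) * (n : ℚ) ^ (k - δ) ≤
            (C2 / n) * (n : ℚ) ^ k := by
          intro δ hδ
          rw [Finset.mem_range] at hδ
          have h0 : 0 ≤ (C2 / n) * (n : ℚ) ^ k := by positivity
          by_cases h : 1 ≤ δ ∧ δ ≤ k
          · rw [hcount δ h.1 h.2]
            by_cases h' : δ = 1
            · subst h'
              rw [List.count_replicate_self, sub_self, zero_mul]; exact h0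
            · rw [List.count_replicate, if_neg (by simpa using Ne.symm h')]
              have h3 := hcon δ (by omega) h.2
              have h4 := hρ δ h.1 h.2
              have h5 : (n : ℚ) ^ k = (n : ℚ) ^ δ * (n : ℚ) ^ (k - δ) := by
                rw [← pow_add]; congr 1; omega
              rw [h5, ← mul_assoc]
              refine mul_le_mul_of_nonneg_right ?_ (by positivity)
              have h6 : (cnt d δ : ℚ) ≤ ρ δ := by exact_mod_cast h3.le
              simp only [Nat.cast_zero, sub_zero]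
              linarith
          · rw [hcount0 δ h]
            have h3 : (0 : ℚ) ≤ ((List.replicate (cnt d 1) 1).count δ : ℚ) := by positivity
            have h4 : (0 : ℚ) ≤ (n : ℚ) ^ (k - δ) := by positivity
            have h5 : (((0 : ℕ) : ℚ) - ((List.replicate (cnt d 1) 1).count δ : ℚ)) *
                (n : ℚ) ^ (k - δ) ≤ 0 :=
              mul_nonpos_of_nonpos_of_nonneg (by simp) h4
            exact h5.trans h0
        have h3 := Finset.sum_le_sum h2
        rw [Finset.sum_const, Finset.card_range, nsmul_eq_mul] at h3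
        have h4 := mul_le_mul_of_nonneg_left h3 hB0
        have h5 := h1.trans h4
        have h6 : B * (((k + 1 : ℕ) : ℚ) * (C2 / n * (n : ℚ) ^ k)) =
            B * (k + 1) * C2 / n * (n : ℚ) ^ k := by push_cast; ring
        rw [h6] at h5
        have h7 : (cnt d 1 : ℤ) < n := by
          have := hcase 1 le_rfl hk
          unfold gj at this
          simpa using this
        have h8 : cnt d 1 < n := by exact_mod_cast h7
        have h9 := E_ones (cnt d 1) n (n - cnt d 1) k (by omega) (by omega)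
        rw [h9] at h5
        have h10 := (abs_le.1 h5).1
        have h11 : (0 : ℚ) ≤ (((n - cnt d 1 + k - 1).choose k : ℕ) : ℤ) := by positivity
        have h12 : B * (k + 1) * C2 / n * (n : ℚ) ^ k ≤ η / 4 * (n : ℚ) ^ k :=
          mul_le_mul_of_nonneg_right (by linarith) hnk.le
        have h13 : η / 4 * (n : ℚ) ^ k < η * (n : ℚ) ^ k :=
          mul_lt_mul_of_pos_right (by linarith) hnk
        linarith
      obtain ⟨δ, hδ2, hδk, hδ⟩ := hab
      refine qd_le_zero (Rj_le_JD (embF_inj hN1) hslots hCov ?_) hF1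
      intro m hm
      rw [mem_badM] at hm
      obtain ⟨m', hm', hd', hb'⟩ := bad_sub (embF_inj hN1) hm.2 hδ2 (by omega)
      have h1 : monomial m (1 : K) = monomial m' 1 * monomial (m - m') 1 := by
        rw [monomial_mul, one_mul, add_tsub_cancel_of_le hm']
      rw [h1]
      refine mul_span_mem (δ := δ) (b := (𝓑 δ : Set _)) hδk ?_
        (h𝓑3 δ hδk m' (mem_badM.2 ⟨hd', hb'⟩)) (isHomogeneous_monomial _ ?_)
      · intro f hf
        refine hF2 δ f ?_
        rw [if_pos ⟨by omega, hδk⟩, Finset.mem_union]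
        right
        simp only [bads]
        rw [if_pos hδ]
        exact hf
      · have h2 : (m - m') + m' = m := tsub_add_cancel_of_le hm'
        have h3 := congrArg Finsupp.degree h2
        rw [map_add] at h3
        omega

end

end Pool.Agent.TH130.FP
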