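import Mathlib
import Pool.Agent.W431.Frob.Low
import Pool.Agent.W431.Frob.Grow
import Pool.Agent.TH130.FP.UpD
import Pool.Agent.TH130.FP.Up2D
import Pool.Agent.TH130.FP.Dual

/-!
The leading term of the Hilbert function of the ideals generated by powers of generic linear forms.
-/

set_option autoImplicit false
set_option linter.unusedSectionVars false

namespace Pool.Agent.TH130.FP

open Module MvPolynomial H350MG Pool.Agent.W431.Frob

noncomputable section

/-- the powers of the linear forms with given coefficients -/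
def pf {K : Type} [Field K] {σ : Type} [Fintype σ] {r : ℕ} (d : Fin r → ℕ)
    (P : Fin r × σ → K) : Fin r → MvPolynomial σ K := fun k => lin (fun i => P (k, i)) ^ d k

lemma pf_hom {K : Type} [Field K] [CharZero K] {σ : Type} [Fintype σ] [DecidableEq σ] {r : ℕ}
    (d : Fin r → ℕ) (P : Fin r × σ → K) (i : Fin r) : pf d P i ∈ Rj K σ (d i) := linpow_hom _ _

lemma fList_pf {K : Type} [Field K] [CharZero K] {σ : Type} [Fintype σ] [DecidableEq σ] {r : ℕ}
    (d : Fin r → ℕ) (P : Fin r × σ → K) : fList d (pf d P) = powList d P := rfl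

lemma gen_qdP {K : Type} [Field K] [CharZero K] {n r : ℕ} {d : Fin r → ℕ}
    {F : Fin r → MvPolynomial (Fin n) K} (hF : ∃ ℓ : Fin r → MvPolynomial (Fin n) K,
      (∀ s, ℓ s ∈ Rj K (Fin n) 1) ∧ ∀ s, F s = ℓ s ^ d s) (j : ℕ) :
    Gen K (fun c : Fin r × Fin n → K => qd (fList d (pf d c)) j ≤ qd (fList d F) j) := by
  obtain ⟨ℓ, hℓ, hF⟩ := hF
  let P0 : Fin r × Fin n → K := fun x => coeff (Finsupp.single x.2 1) (ℓ x.1)
  have h0 : F = pf d P0 := by
    funext s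
    rw [hF, pf]
    conv_lhs => rw [eq_lin (hℓ s)]
  obtain ⟨Φ, h1, h2⟩ := generic_K d j P0
  refine ⟨Φ, h1, fun c hc => ?_⟩
  change qd (fList d (pf d c)) j ≤ qd (fList d F) j
  rw [h0, fList_pf, fList_pf, qd_powList, qd_powList]
  exact_mod_cast h2 c hc

theorem main_qdP (D : ℕ) (ε : ℚ) (hε : 0 < ε) : ∃ (C : ℚ) (n0 : ℕ), 0 ≤ C ∧ 1 ≤ n0 ∧
    ∀ (K : Type) [Field K] [CharZero K] (n : ℕ), n0 ≤ n → ∀ (r : ℕ) (d : Fin r → ℕ),
      (∀ i, 1 ≤ d i) → Gen K (fun c : Fin r × Fin n → K => ∀ k ≤ D,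
        ((∀ j ≤ k, 0 < E (gj (Fin n)) (List.ofFn d) j) →
          |(qd (fList d (pf d c)) k : ℚ) - (E (gj (Fin n)) (List.ofFn d) k : ℚ)| ≤
            ε * (n : ℚ) ^ k) ∧
        ((∃ j ≤ k, E (gj (Fin n)) (List.ofFn d) j ≤ 0) →
          |(qd (fList d (pf d c)) k : ℚ)| ≤ ε * (n : ℚ) ^ k) ∧
        ((∀ j ≤ k, ε * (n : ℚ) ^ j ≤ (E (gj (Fin n)) (List.ofFn d) j : ℚ)) →
          (n : ℚ) * |(qd (fList d (pf d c)) k : ℚ) - (E (gj (Fin n)) (List.ofFn d) k : ℚ)| ≤
            C * (n : ℚ) ^ k) ∧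
        ((∃ j ≤ k, (E (gj (Fin n)) (List.ofFn d) j : ℚ) ≤ -(ε * (n : ℚ) ^ j)) →
          qd (fList d (pf d c)) k = 0)) := by
  classical
  let η : ℚ := ε / (CB (D + 1) + 1)
  have hCB : 0 ≤ CB (D + 1) := CB_nonneg _
  have hη : 0 < η := by positivity
  have hηε : η ≤ ε := div_le_self hε.le (by linarith)
  have hηε' : CB (D + 1) * η ≤ ε := by
    have h1 : CB (D + 1) * η = ε * (CB (D + 1) / (CB (D + 1) + 1)) := by simp only [η]; ring
    rw [h1]
    have h2 : CB (D + 1) / (CB (D + 1) + 1) ≤ 1 := by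
      rw [div_le_one (by linarith)]; linarith
    calc ε * (CB (D + 1) / (CB (D + 1) + 1)) ≤ ε * 1 := mul_le_mul_of_nonneg_left h2 hε.le
      _ = ε := mul_one _
  choose! n1 _ hU1 using fun (j : ℕ) (hj : 1 ≤ j) => upperD j hj η hη
  choose! C2 n2 hC20 _ hU2 using fun (j : ℕ) (hj : 1 ≤ j) => upper2D j hj ε hε
  let Cs : ℚ := ∑ j ∈ Finset.Icc 1 D, C2 j
  have hCs0 : 0 ≤ Cs := Finset.sum_nonneg fun j hj => hC20 j (Finset.mem_Icc.1 hj).1
  have hCs : ∀ j, 1 ≤ j → j ≤ D → C2 j ≤ Cs := fun j h1 h2 =>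
    Finset.single_le_sum (fun i hi => hC20 i (Finset.mem_Icc.1 hi).1) (Finset.mem_Icc.2 ⟨h1, h2⟩)
  let n0 : ℕ := 1 + ∑ j ∈ Finset.Icc 1 D, (n1 j + n2 j)
  have hn01 : ∀ j, 1 ≤ j → j ≤ D → n1 j + n2 j ≤ n0 := fun j h1 h2 => by
    have := Finset.single_le_sum (f := fun j => n1 j + n2 j) (fun i _ => Nat.zero_le _)
      (Finset.mem_Icc.2 ⟨h1, h2⟩)
    simp only [n0]
    omega
  refine ⟨CB (D + 1) * Cs, n0, by positivity, by simp only [n0]; omega, ?_⟩
  intro K _ _ n hn r d hd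
  have hn1 : 1 ≤ n := by simp only [n0] at hn; omega
  have hnQ : (0 : ℚ) < n := by exact_mod_cast hn1
  have hdL : ∀ δ ∈ List.ofFn d, 1 ≤ δ := by
    intro δ hδ
    rw [List.mem_ofFn'] at hδ
    obtain ⟨i, rfl⟩ := hδ
    exact hd i
  -- generic upper bounds
  have hG1 : ∀ j ∈ Finset.Icc 1 D, Gen K (fun c : Fin r × Fin n → K =>
      (qd (fList d (pf d c)) j : ℚ) ≤
        max 0 (E (gj (Fin n)) (List.ofFn d) j : ℚ) + η * (n : ℚ) ^ j ∧
      ((E (gj (Fin n)) (List.ofFn d) j : ℚ) ≤ -(η * (n : ℚ) ^ j) →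
        qd (fList d (pf d c)) j ≤ 0)) := by
    intro j hj
    rw [Finset.mem_Icc] at hj
    have h0 := hn01 j hj.1 hj.2
    obtain ⟨F, hF1, hF2, hF3⟩ := hU1 j hj.1 K n (by omega) r d hd
    refine (gen_qdP hF1 j).mono fun c hc => ⟨?_, fun h => hc.trans (hF3 h)⟩
    refine le_trans ?_ hF2
    exact_mod_cast hc
  have hG2 : ∀ j ∈ Finset.Icc 1 D, Gen K (fun c : Fin r × Fin n → K =>
      (∀ i ≤ j, ε * (n : ℚ) ^ i ≤ (E (gj (Fin n)) (List.ofFn d) i : ℚ)) →
      (n : ℚ) * ((qd (fList d (pf d c)) j : ℚ) - (E (gj (Fin n)) (List.ofFn d) j : ℚ)) ≤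
        C2 j * (n : ℚ) ^ j) := by
    intro j hj
    rw [Finset.mem_Icc] at hj
    have h0 := hn01 j hj.1 hj.2
    by_cases h : ∀ i ≤ j, ε * (n : ℚ) ^ i ≤ (E (gj (Fin n)) (List.ofFn d) i : ℚ)
    · obtain ⟨F, hF1, hF2⟩ := hU2 j hj.1 K n (by omega) r d hd h
      refine (gen_qdP hF1 j).mono fun c hc _ => ?_
      refine le_trans (mul_le_mul_of_nonneg_left ?_ hnQ.le) hF2
      have : (qd (fList d (pf d c)) j : ℚ) ≤ (qd (fList d F) j : ℚ) := by exact_mod_cast hc
      linarith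
    · exact Gen.of_forall fun c h' => absurd h' h
  refine ((Gen.forall_mem hG1).and (Gen.forall_mem hG2)).mono ?_
  rintro c ⟨hc1, hc2⟩ k hk
  have hmem : ∀ a ∈ fList d (pf d c), a.1 ∈ Rj K (Fin n) a.2 := by
    intro a ha
    obtain ⟨i, rfl⟩ := mem_fList.1 ha
    exact pf_hom d c i
  have hmem' : ∀ a ∈ fList d (pf d c), a.1 ∈ Rj K (Fin n) a.2 ∧ 0 < a.2 := by
    intro a ha
    obtain ⟨i, rfl⟩ := mem_fList.1 ha
    exact ⟨pf_hom d c i, hd i⟩
  have hsnd : (fList d (pf d c)).map Prod.snd = List.ofFn d := by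
    unfold fList
    rw [List.map_ofFn]
    rfl
  have hnn : ∀ j, 0 ≤ qd (fList d (pf d c)) j := fun j => qd_nonneg (pf_hom d c) j
  have hE0 : E (gj (Fin n)) (List.ofFn d) 0 = 1 := E_zero hdL
  have hgrow : ∀ j ≤ k, (qd (fList d (pf d c)) k : ℚ) ≤
      (n : ℚ) ^ (k - j) * (qd (fList d (pf d c)) j : ℚ) := by
    intro j hj
    have h1 := qd_add_le (fList d (pf d c)) hmem j (k - j)
    rw [Nat.add_sub_cancel' hj, Fintype.card_fin] at h1
    exact_mod_cast h1
  have hcount : (∀ j ≤ k, 0 < E (gj (Fin n)) (List.ofFn d) j) → ∀ e ≤ k,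
      (((fList d (pf d c)).map Prod.snd).count e : ℚ) ≤ (n : ℚ) ^ e := by
    intro hpos e he
    rw [hsnd]
    rcases Nat.eq_zero_or_pos e with rfl | he0
    · rw [List.count_eq_zero.2 (fun h => by have := hdL 0 h; omega)]
      simp
    · have h1 := E_pos_count hdL hpos e he0 he
      have h2 := hpos e he
      have h3 : ((List.ofFn d).count e : ℤ) ≤ gj (Fin n) e := by linarith
      have h4 : ((List.ofFn d).count e : ℚ) ≤ (gj (Fin n) e : ℚ) := by exact_mod_cast h3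
      exact h4.trans (gj_le_pow hn1 e)
  refine ⟨?_, ?_, ?_, ?_⟩
  · intro hpos
    have h1 := qd_close k n η hη.le (fList d (pf d c)) hmem' (hcount hpos) (by
      intro j hj
      rw [hsnd]
      rcases Nat.eq_zero_or_pos j with rfl | hj0
      · have h2 := qd_zero_le d (pf d c)
        rw [hE0]
        have h3 : (qd (fList d (pf d c)) 0 : ℚ) ≤ 1 := by exact_mod_cast h2
        push_cast
        have h4 : 0 ≤ η * (n : ℚ) ^ 0 := by positivity
        linarith
      · have h2 := (hc1 j (Finset.mem_Icc.2 ⟨hj0, by omega⟩)).1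
        have h3 : (0 : ℚ) < (E (gj (Fin n)) (List.ofFn d) j : ℚ) := by exact_mod_cast hpos j hj
        rw [max_eq_right h3.le] at h2
        linarith) k le_rfl
    rw [hsnd] at h1
    refine h1.trans ?_
    have h2 : CB (k + 1) ≤ CB (D + 1) := CB_mono (by omega)
    calc CB (k + 1) * (η * (n : ℚ) ^ k) ≤ CB (D + 1) * (η * (n : ℚ) ^ k) :=
          mul_le_mul_of_nonneg_right h2 (by positivity)
      _ = (CB (D + 1) * η) * (n : ℚ) ^ k := by ring
      _ ≤ ε * (n : ℚ) ^ k := mul_le_mul_of_nonneg_right hηε' (by positivity)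
  · rintro ⟨j, hj, hEj⟩
    have hj0 : 1 ≤ j := by
      rcases Nat.eq_zero_or_pos j with rfl | hj0
      · rw [hE0] at hEj; omega
      · exact hj0
    have h2 := (hc1 j (Finset.mem_Icc.2 ⟨hj0, by omega⟩)).1
    have h3 : (E (gj (Fin n)) (List.ofFn d) j : ℚ) ≤ 0 := by exact_mod_cast hEj
    rw [max_eq_left h3, zero_add] at h2
    have h4 : (0 : ℚ) ≤ (qd (fList d (pf d c)) k : ℚ) := by exact_mod_cast hnn k
    rw [abs_of_nonneg h4]
    refine (hgrow j hj).trans ?_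
    calc (n : ℚ) ^ (k - j) * (qd (fList d (pf d c)) j : ℚ) ≤ (n : ℚ) ^ (k - j) * (η * (n : ℚ) ^ j) :=
          mul_le_mul_of_nonneg_left h2 (by positivity)
      _ = η * (n : ℚ) ^ k := by
          rw [← Nat.sub_add_cancel hj, Nat.add_sub_cancel, pow_add]; ring
      _ ≤ ε * (n : ℚ) ^ k := mul_le_mul_of_nonneg_right hηε (by positivity)
  · intro hreg
    have hpos : ∀ j ≤ k, 0 < E (gj (Fin n)) (List.ofFn d) j := by
      intro j hj
      have h1 := hreg j hj
      have h2 : (0 : ℚ) < ε * (n : ℚ) ^ j := by positivity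
      have h3 : (0 : ℚ) < (E (gj (Fin n)) (List.ofFn d) j : ℚ) := by linarith
      exact_mod_cast h3
    have h1 := qd_close k n (Cs / n) (by positivity) (fList d (pf d c)) hmem' (hcount hpos) (by
      intro j hj
      rw [hsnd]
      rcases Nat.eq_zero_or_pos j with rfl | hj0
      · have h2 := qd_zero_le d (pf d c)
        rw [hE0]
        have h3 : (qd (fList d (pf d c)) 0 : ℚ) ≤ 1 := by exact_mod_cast h2
        push_cast
        have h4 : 0 ≤ Cs / n * (n : ℚ) ^ 0 := by positivity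
        linarith
      · have h2 := hc2 j (Finset.mem_Icc.2 ⟨hj0, by omega⟩) fun i hi => hreg i (by omega)
        have h3 : (qd (fList d (pf d c)) j : ℚ) - (E (gj (Fin n)) (List.ofFn d) j : ℚ) ≤
            C2 j * (n : ℚ) ^ j / n := by
          rw [le_div_iff₀ hnQ, mul_comm]
          exact h2
        refine h3.trans ?_
        rw [div_mul_eq_mul_div]
        refine div_le_div_of_nonneg_right ?_ hnQ.le
        exact mul_le_mul_of_nonneg_right (hCs j hj0 (by omega)) (by positivity)) k le_rfl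
    rw [hsnd] at h1
    have h2 : CB (k + 1) ≤ CB (D + 1) := CB_mono (by omega)
    calc (n : ℚ) * |(qd (fList d (pf d c)) k : ℚ) - (E (gj (Fin n)) (List.ofFn d) k : ℚ)|
        ≤ n * (CB (k + 1) * (Cs / n * (n : ℚ) ^ k)) := mul_le_mul_of_nonneg_left h1 hnQ.le
      _ = CB (k + 1) * (Cs * (n : ℚ) ^ k) := by field_simp
      _ ≤ CB (D + 1) * (Cs * (n : ℚ) ^ k) := mul_le_mul_of_nonneg_right h2 (by positivity)
      _ = _ := by ring
  · rintro ⟨j, hj, hEj⟩
    have hj0 : 1 ≤ j := by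
      rcases Nat.eq_zero_or_pos j with rfl | hj0
      · rw [hE0] at hEj
        have : (0 : ℚ) < ε * (n : ℚ) ^ 0 := by positivity
        push_cast at hEj
        linarith
      · exact hj0
    have h2 : (E (gj (Fin n)) (List.ofFn d) j : ℚ) ≤ -(η * (n : ℚ) ^ j) := by
      have : η * (n : ℚ) ^ j ≤ ε * (n : ℚ) ^ j := mul_le_mul_of_nonneg_right hηε (by positivity)
      linarith
    have h3 := (hc1 j (Finset.mem_Icc.2 ⟨hj0, by omega⟩)).2 h2
    have h4 : (qd (fList d (pf d c)) j : ℚ) ≤ 0 := by exact_mod_cast h3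
    have h5 := hgrow j hj
    have h6 : (n : ℚ) ^ (k - j) * (qd (fList d (pf d c)) j : ℚ) ≤ 0 :=
      mul_nonpos_of_nonneg_of_nonpos (by positivity) h4
    have h7 : (qd (fList d (pf d c)) k : ℚ) ≤ 0 := h5.trans h6
    have h8 : qd (fList d (pf d c)) k ≤ 0 := by exact_mod_cast h7
    exact le_antisymm h8 (hnn k)

end

end Pool.Agent.TH130.FP
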