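import Mathlib
import Pool.Agent.TH130.FP.FinalD

/-!
The leading term of the Hilbert function for families which specialise to powers of linear forms,
and the case of powers of generic forms.
-/

set_option autoImplicit false
set_option linter.unusedSectionVars false

namespace Pool.Agent.TH130.FP

open Module MvPolynomial H350MG Pool.Agent.W431.Frob

noncomputable section

/-- the main theorem for any family of forms which can be specialised, as far as the dimensions are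
concerned, to powers of linear forms -/
theorem main_abs (D : ℕ) (ε : ℚ) (hε : 0 < ε) : ∃ (C : ℚ) (n0 : ℕ), 0 ≤ C ∧ 1 ≤ n0 ∧
    ∀ (K : Type) [Field K] [CharZero K] (n : ℕ), n0 ≤ n → ∀ (r : ℕ) (d : Fin r → ℕ),
      (∀ i, 1 ≤ d i) → ∀ (Γ : Type) (G : (Γ → K) → Fin r → MvPolynomial (Fin n) K),
      (∀ c s, G c s ∈ Rj K (Fin n) (d s)) →
      (∀ F : Fin r → MvPolynomial (Fin n) K, (∃ ℓ : Fin r → MvPolynomial (Fin n) K,
        (∀ s, ℓ s ∈ Rj K (Fin n) 1) ∧ ∀ s, F s = ℓ s ^ d s) → ∀ j : ℕ,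
        Gen K (fun c : Γ → K => qd (fList d (G c)) j ≤ qd (fList d F) j)) →
      Gen K (fun c : Γ → K => ∀ k ≤ D,
        ((∀ j ≤ k, 0 < E (gj (Fin n)) (List.ofFn d) j) →
          |(qd (fList d (G c)) k : ℚ) - (E (gj (Fin n)) (List.ofFn d) k : ℚ)| ≤
            ε * (n : ℚ) ^ k) ∧
        ((∃ j ≤ k, E (gj (Fin n)) (List.ofFn d) j ≤ 0) →
          |(qd (fList d (G c)) k : ℚ)| ≤ ε * (n : ℚ) ^ k) ∧
        ((∀ j ≤ k, ε * (n : ℚ) ^ j ≤ (E (gj (Fin n)) (List.ofFn d) j : ℚ)) →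
          (n : ℚ) * |(qd (fList d (G c)) k : ℚ) - (E (gj (Fin n)) (List.ofFn d) k : ℚ)| ≤
            C * (n : ℚ) ^ k) ∧
        ((∃ j ≤ k, (E (gj (Fin n)) (List.ofFn d) j : ℚ) ≤ -(ε * (n : ℚ) ^ j)) →
          qd (fList d (G c)) k = 0)) := by
  classical
  let η : ℚ := ε / (CB (D + 1) + 1)
  have hCB : 0 ≤ CB (D + 1) := CB_nonneg _
  have hη : 0 < η := by positivity
  have hηε : η ≤ ε := div_le_self hε.le (by linarith)
  have hηε' : CB (D + 1) * η ≤ ε := by
    have h1 : CB (D + 1) * η = ε * (CB (D + 1) / (CB (D + 1) + 1)) := by simp only [η]; ring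
    rw [h1]
    have h2 : CB (D + 1) / (CB (D + 1) + 1) ≤ 1 := by
      rw [div_le_one (by linarith)]; linarith
    calc ε * (CB (D + 1) / (CB (D + 1) + 1)) ≤ ε * 1 := mul_le_mul_of_nonneg_left h2 hε.le
      _ = ε := mul_one _
  choose! n1 _ hU1 using fun (j : ℕ) (hj : 1 ≤ j) => upperD j hj η hη
  choose! C2 n2 hC20 _ hU2 using fun (j : ℕ) (hj : 1 ≤ j) => upper2D j hj ε hε
  let Cs : ℚ := ∑ j ∈ Finset.Icc 1 D, C2 j
  have hCs0 : 0 ≤ Cs := Finset.sum_nonneg fun j hj => hC20 j (Finset.mem_Icc.1 hj).1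
  have hCs : ∀ j, 1 ≤ j → j ≤ D → C2 j ≤ Cs := fun j h1 h2 =>
    Finset.single_le_sum (fun i hi => hC20 i (Finset.mem_Icc.1 hi).1) (Finset.mem_Icc.2 ⟨h1, h2⟩)
  let n0 : ℕ := 1 + ∑ j ∈ Finset.Icc 1 D, (n1 j + n2 j)
  have hn01 : ∀ j, 1 ≤ j → j ≤ D → n1 j + n2 j ≤ n0 := fun j h1 h2 => by
    have := Finset.single_le_sum (f := fun j => n1 j + n2 j) (fun i _ => Nat.zero_le _)
      (Finset.mem_Icc.2 ⟨h1, h2⟩)
    simp only [n0]
    omega
  refine ⟨CB (D + 1) * Cs, n0, by positivity, by simp only [n0]; omega, ?_⟩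
  intro K _ _ n hn r d hd Γ G hG hspec
  have hn1 : 1 ≤ n := by simp only [n0] at hn; omega
  have hnQ : (0 : ℚ) < n := by exact_mod_cast hn1
  have hdL : ∀ δ ∈ List.ofFn d, 1 ≤ δ := by
    intro δ hδ
    rw [List.mem_ofFn'] at hδ
    obtain ⟨i, rfl⟩ := hδ
    exact hd i
  -- generic upper bounds
  have hG1 : ∀ j ∈ Finset.Icc 1 D, Gen K (fun c : Γ → K =>
      (qd (fList d (G c)) j : ℚ) ≤
        max 0 (E (gj (Fin n)) (List.ofFn d) j : ℚ) + η * (n : ℚ) ^ j ∧
      ((E (gj (Fin n)) (List.ofFn d) j : ℚ) ≤ -(η * (n : ℚ) ^ j) →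
        qd (fList d (G c)) j ≤ 0)) := by
    intro j hj
    rw [Finset.mem_Icc] at hj
    have h0 := hn01 j hj.1 hj.2
    obtain ⟨F, hF1, hF2, hF3⟩ := hU1 j hj.1 K n (by omega) r d hd
    refine (hspec F hF1 j).mono fun c hc => ⟨?_, fun h => hc.trans (hF3 h)⟩
    refine le_trans ?_ hF2
    exact_mod_cast hc
  have hG2 : ∀ j ∈ Finset.Icc 1 D, Gen K (fun c : Γ → K =>
      (∀ i ≤ j, ε * (n : ℚ) ^ i ≤ (E (gj (Fin n)) (List.ofFn d) i : ℚ)) →
      (n : ℚ) * ((qd (fList d (G c)) j : ℚ) - (E (gj (Fin n)) (List.ofFn d) j : ℚ)) ≤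
        C2 j * (n : ℚ) ^ j) := by
    intro j hj
    rw [Finset.mem_Icc] at hj
    have h0 := hn01 j hj.1 hj.2
    by_cases h : ∀ i ≤ j, ε * (n : ℚ) ^ i ≤ (E (gj (Fin n)) (List.ofFn d) i : ℚ)
    · obtain ⟨F, hF1, hF2⟩ := hU2 j hj.1 K n (by omega) r d hd h
      refine (hspec F hF1 j).mono fun c hc _ => ?_
      refine le_trans (mul_le_mul_of_nonneg_left ?_ hnQ.le) hF2
      have : (qd (fList d (G c)) j : ℚ) ≤ (qd (fList d F) j : ℚ) := by exact_mod_cast hc
      linarith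
    · exact Gen.of_forall fun c h' => absurd h' h
  refine ((Gen.forall_mem hG1).and (Gen.forall_mem hG2)).mono ?_
  rintro c ⟨hc1, hc2⟩ k hk
  have hmem : ∀ a ∈ fList d (G c), a.1 ∈ Rj K (Fin n) a.2 := by
    intro a ha
    obtain ⟨i, rfl⟩ := mem_fList.1 ha
    exact hG c i
  have hmem' : ∀ a ∈ fList d (G c), a.1 ∈ Rj K (Fin n) a.2 ∧ 0 < a.2 := by
    intro a ha
    obtain ⟨i, rfl⟩ := mem_fList.1 ha
    exact ⟨hG c i, hd i⟩
  have hsnd : (fList d (G c)).map Prod.snd = List.ofFn d := by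
    unfold fList
    rw [List.map_ofFn]
    rfl
  have hnn : ∀ j, 0 ≤ qd (fList d (G c)) j := fun j => qd_nonneg (hG c) j
  have hE0 : E (gj (Fin n)) (List.ofFn d) 0 = 1 := E_zero hdL
  have hgrow : ∀ j ≤ k, (qd (fList d (G c)) k : ℚ) ≤
      (n : ℚ) ^ (k - j) * (qd (fList d (G c)) j : ℚ) := by
    intro j hj
    have h1 := qd_add_le (fList d (G c)) hmem j (k - j)
    rw [Nat.add_sub_cancel' hj, Fintype.card_fin] at h1
    exact_mod_cast h1
  have hcount : (∀ j ≤ k, 0 < E (gj (Fin n)) (List.ofFn d) j) → ∀ e ≤ k,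
      (((fList d (G c)).map Prod.snd).count e : ℚ) ≤ (n : ℚ) ^ e := by
    intro hpos e he
    rw [hsnd]
    rcases Nat.eq_zero_or_pos e with rfl | he0
    · rw [List.count_eq_zero.2 (fun h => by have := hdL 0 h; omega)]
      simp
    · have h1 := E_pos_count hdL hpos e he0 he
      have h2 := hpos e he
      have h3 : ((List.ofFn d).count e : ℤ) ≤ gj (Fin n) e := by linarith
      have h4 : ((List.ofFn d).count e : ℚ) ≤ (gj (Fin n) e : ℚ) := by exact_mod_cast h3
      exact h4.trans (gj_le_pow hn1 e)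
  refine ⟨?_, ?_, ?_, ?_⟩
  · intro hpos
    have h1 := qd_close k n η hη.le (fList d (G c)) hmem' (hcount hpos) (by
      intro j hj
      rw [hsnd]
      rcases Nat.eq_zero_or_pos j with rfl | hj0
      · have h2 := qd_zero_le d (G c)
        rw [hE0]
        have h3 : (qd (fList d (G c)) 0 : ℚ) ≤ 1 := by exact_mod_cast h2
        push_cast
        have h4 : 0 ≤ η * (n : ℚ) ^ 0 := by positivity
        linarith
      · have h2 := (hc1 j (Finset.mem_Icc.2 ⟨hj0, by omega⟩)).1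
        have h3 : (0 : ℚ) < (E (gj (Fin n)) (List.ofFn d) j : ℚ) := by exact_mod_cast hpos j hj
        rw [max_eq_right h3.le] at h2
        linarith) k le_rfl
    rw [hsnd] at h1
    refine h1.trans ?_
    have h2 : CB (k + 1) ≤ CB (D + 1) := CB_mono (by omega)
    calc CB (k + 1) * (η * (n : ℚ) ^ k) ≤ CB (D + 1) * (η * (n : ℚ) ^ k) :=
          mul_le_mul_of_nonneg_right h2 (by positivity)
      _ = (CB (D + 1) * η) * (n : ℚ) ^ k := by ring
      _ ≤ ε * (n : ℚ) ^ k := mul_le_mul_of_nonneg_right hηε' (by positivity)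
  · rintro ⟨j, hj, hEj⟩
    have hj0 : 1 ≤ j := by
      rcases Nat.eq_zero_or_pos j with rfl | hj0
      · rw [hE0] at hEj; omega
      · exact hj0
    have h2 := (hc1 j (Finset.mem_Icc.2 ⟨hj0, by omega⟩)).1
    have h3 : (E (gj (Fin n)) (List.ofFn d) j : ℚ) ≤ 0 := by exact_mod_cast hEj
    rw [max_eq_left h3, zero_add] at h2
    have h4 : (0 : ℚ) ≤ (qd (fList d (G c)) k : ℚ) := by exact_mod_cast hnn k
    rw [abs_of_nonneg h4]
    refine (hgrow j hj).trans ?_
    calc (n : ℚ) ^ (k - j) * (qd (fList d (G c)) j : ℚ) ≤ (n : ℚ) ^ (k - j) * (η * (n : ℚ) ^ j) :=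
          mul_le_mul_of_nonneg_left h2 (by positivity)
      _ = η * (n : ℚ) ^ k := by
          rw [← Nat.sub_add_cancel hj, Nat.add_sub_cancel, pow_add]; ring
      _ ≤ ε * (n : ℚ) ^ k := mul_le_mul_of_nonneg_right hηε (by positivity)
  · intro hreg
    have hpos : ∀ j ≤ k, 0 < E (gj (Fin n)) (List.ofFn d) j := by
      intro j hj
      have h1 := hreg j hj
      have h2 : (0 : ℚ) < ε * (n : ℚ) ^ j := by positivity
      have h3 : (0 : ℚ) < (E (gj (Fin n)) (List.ofFn d) j : ℚ) := by linarith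
      exact_mod_cast h3
    have h1 := qd_close k n (Cs / n) (by positivity) (fList d (G c)) hmem' (hcount hpos) (by
      intro j hj
      rw [hsnd]
      rcases Nat.eq_zero_or_pos j with rfl | hj0
      · have h2 := qd_zero_le d (G c)
        rw [hE0]
        have h3 : (qd (fList d (G c)) 0 : ℚ) ≤ 1 := by exact_mod_cast h2
        push_cast
        have h4 : 0 ≤ Cs / n * (n : ℚ) ^ 0 := by positivity
        linarith
      · have h2 := hc2 j (Finset.mem_Icc.2 ⟨hj0, by omega⟩) fun i hi => hreg i (by omega)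
        have h3 : (qd (fList d (G c)) j : ℚ) - (E (gj (Fin n)) (List.ofFn d) j : ℚ) ≤
            C2 j * (n : ℚ) ^ j / n := by
          rw [le_div_iff₀ hnQ, mul_comm]
          exact h2
        refine h3.trans ?_
        rw [div_mul_eq_mul_div]
        refine div_le_div_of_nonneg_right ?_ hnQ.le
        exact mul_le_mul_of_nonneg_right (hCs j hj0 (by omega)) (by positivity)) k le_rfl
    rw [hsnd] at h1
    have h2 : CB (k + 1) ≤ CB (D + 1) := CB_mono (by omega)
    calc (n : ℚ) * |(qd (fList d (G c)) k : ℚ) - (E (gj (Fin n)) (List.ofFn d) k : ℚ)|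
        ≤ n * (CB (k + 1) * (Cs / n * (n : ℚ) ^ k)) := mul_le_mul_of_nonneg_left h1 hnQ.le
      _ = CB (k + 1) * (Cs * (n : ℚ) ^ k) := by field_simp
      _ ≤ CB (D + 1) * (Cs * (n : ℚ) ^ k) := mul_le_mul_of_nonneg_right h2 (by positivity)
      _ = _ := by ring
  · rintro ⟨j, hj, hEj⟩
    have hj0 : 1 ≤ j := by
      rcases Nat.eq_zero_or_pos j with rfl | hj0
      · rw [hE0] at hEj
        have : (0 : ℚ) < ε * (n : ℚ) ^ 0 := by positivity
        push_cast at hEj
        linarith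
      · exact hj0
    have h2 : (E (gj (Fin n)) (List.ofFn d) j : ℚ) ≤ -(η * (n : ℚ) ^ j) := by
      have : η * (n : ℚ) ^ j ≤ ε * (n : ℚ) ^ j := mul_le_mul_of_nonneg_right hηε (by positivity)
      linarith
    have h3 := (hc1 j (Finset.mem_Icc.2 ⟨hj0, by omega⟩)).2 h2
    have h4 : (qd (fList d (G c)) j : ℚ) ≤ 0 := by exact_mod_cast h3
    have h5 := hgrow j hj
    have h6 : (n : ℚ) ^ (k - j) * (qd (fList d (G c)) j : ℚ) ≤ 0 :=
      mul_nonpos_of_nonneg_of_nonpos (by positivity) h4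
    have h7 : (qd (fList d (G c)) k : ℚ) ≤ 0 := h5.trans h6
    have h8 : qd (fList d (G c)) k ≤ 0 := by exact_mod_cast h7
    exact le_antisymm h8 (hnn k)


section PowForms

variable {K : Type} [Field K] [CharZero K] {σ : Type} [Fintype σ] [DecidableEq σ]

lemma isPoly_fcpow {r : ℕ} {d : Fin r → ℕ} (i : Fin r) (ψ : MvPolynomial σ K →ₗ[K] K) (q : ℕ) :
    ∀ x : MvPolynomial σ K, IsPoly (fun c : Cf σ d → K => ψ (fc c i ^ q * x)) := by
  induction q with
  | zero => intro x; simpa using H350MG.IsPoly.const _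
  | succ q ih =>
    intro x
    have h1 : (fun c : Cf σ d → K => ψ (fc c i ^ (q + 1) * x)) = fun c =>
        ∑ m : {m : σ →₀ ℕ // Finsupp.degree m = d i}, c ⟨i, m⟩ *
          ψ (fc c i ^ q * (monomial m.1 1 * x)) := by
      funext c
      rw [pow_succ, mul_assoc]
      conv_lhs => rw [show fc c i * x = (∑ m : {m : σ →₀ ℕ // Finsupp.degree m = d i},
        c ⟨i, m⟩ • monomial m.1 1) * x from rfl]
      rw [Finset.sum_mul, Finset.mul_sum, map_sum]
      refine Finset.sum_congr rfl fun m _ => ?_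
      rw [smul_mul_assoc, mul_smul_comm, map_smul, smul_eq_mul]
    rw [h1]
    exact H350MG.IsPoly.sum _ fun m _ => (H350MG.IsPoly.coord _).mul (ih _)

/-- semicontinuity for the powers of forms -/
theorem generic_Jpow {r : ℕ} (d q : Fin r → ℕ) (j : ℕ) (c0 : Cf σ d → K) :
    ∃ Φ : MvPolynomial (Cf σ d) K, Φ ≠ 0 ∧ ∀ c, eval c Φ ≠ 0 →
      finrank K (J (fList (fun i => d i * q i) (fun i => fc c0 i ^ q i)) j) ≤
        finrank K (J (fList (fun i => d i * q i) (fun i => fc c i ^ q i)) j) := by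
  classical
  let V := (i : Fin r) → Rj K σ (j - d i * q i)
  let L : (Cf σ d → K) → V →ₗ[K] MvPolynomial σ K := fun c =>
    ∑ i : Fin r, if d i * q i ≤ j then
      (LinearMap.mulLeft K (fc c i ^ q i)) ∘ₗ (Rj K σ (j - d i * q i)).subtype ∘ₗ
        (LinearMap.proj i) else 0
  have hLx : ∀ c (x : V), L c x = ∑ i : Fin r, if d i * q i ≤ j then
      fc c i ^ q i * (x i : MvPolynomial σ K) else 0 := by
    intro c x
    simp only [L, LinearMap.sum_apply]
    refine Finset.sum_congr rfl fun i _ => ?_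
    split_ifs <;> rfl
  have hL : ∀ (x : V) (ψ : MvPolynomial σ K →ₗ[K] K), IsPoly (fun c => ψ (L c x)) := by
    intro x ψ
    have h1 : (fun c => ψ (L c x)) = fun c : Cf σ d → K => ∑ i : Fin r,
        (if d i * q i ≤ j then (1 : K) else 0) * ψ (fc c i ^ q i * (x i : MvPolynomial σ K)) := by
      funext c
      rw [hLx, map_sum]
      refine Finset.sum_congr rfl fun i _ => ?_
      by_cases h : d i * q i ≤ j
      · rw [if_pos h, if_pos h, one_mul]
      · rw [if_neg h, if_neg h, map_zero, zero_mul]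
    rw [h1]
    exact H350MG.IsPoly.sum _ fun i _ => (H350MG.IsPoly.const _).mul (isPoly_fcpow i ψ (q i) _)
  obtain ⟨Φ, h0, hΦ⟩ := generic_ker L hL c0
  have hrange : ∀ c, LinearMap.range (L c) =
      J (fList (fun i => d i * q i) (fun i => fc c i ^ q i)) j := by
    intro c
    refine le_antisymm ?_ (J_le_of ?_)
    · rintro _ ⟨x, rfl⟩
      rw [hLx]
      refine Submodule.sum_mem _ fun i _ => ?_
      split_ifs with h
      · refine Jt_le_J (mem_fList.2 ⟨i, rfl⟩) j ?_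
        unfold Jt
        rw [if_pos h]
        exact ⟨x i, (x i).2, rfl⟩
      · exact Submodule.zero_mem _
    · intro a ha
      obtain ⟨i, rfl⟩ := mem_fList.1 ha
      unfold Jt
      split_ifs with h
      · rintro _ ⟨y, hy, rfl⟩
        refine ⟨Pi.single i ⟨y, hy⟩, ?_⟩
        rw [hLx, Finset.sum_eq_single i]
        · simp only at h
          rw [if_pos h, Pi.single_eq_same]; rfl
        · intro k _ hk
          split_ifs
          · rw [Pi.single_eq_of_ne hk]; simp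
          · rfl
        · intro h'; exact absurd (Finset.mem_univ _) h'
      · exact bot_le
  refine ⟨Φ, h0, fun c hc => ?_⟩
  have h1 := hΦ c hc
  have h2 := LinearMap.finrank_range_add_finrank_ker (L c)
  have h3 := LinearMap.finrank_range_add_finrank_ker (L c0)
  rw [← hrange, ← hrange]
  omega

lemma fcpow_hom {r : ℕ} {d q : Fin r → ℕ} (c : Cf σ d → K) (i : Fin r) :
    fc c i ^ q i ∈ Rj K σ (d i * q i) := by
  have h : (fc c i).IsHomogeneous (d i) := fc_hom c i
  exact h.pow (q i)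

/-- powers of generic forms -/
theorem gen_qd_pow {n r : ℕ} (d q : Fin r → ℕ) (F : Fin r → MvPolynomial (Fin n) K)
    (hF : ∃ ℓ : Fin r → MvPolynomial (Fin n) K,
      (∀ s, ℓ s ∈ Rj K (Fin n) 1) ∧ ∀ s, F s = ℓ s ^ (d s * q s)) (j : ℕ) :
    Gen K (fun c : Cf (Fin n) d → K => qd (fList (fun i => d i * q i) (fun i => fc c i ^ q i)) j ≤
      qd (fList (fun i => d i * q i) F) j) := by
  obtain ⟨ℓ, hℓ, hF⟩ := hF
  obtain ⟨c0, hc0⟩ := exists_c0 (d := d) (F := fun s => ℓ s ^ d s) fun s => hom_pow (hℓ s) _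
  obtain ⟨Φ, h1, h2⟩ := generic_Jpow d q j c0
  refine ⟨Φ, h1, fun c hc => ?_⟩
  have h3 := h2 c hc
  have h4 : (fun i => fc c0 i ^ q i) = F := by
    funext i
    rw [hc0, hF, pow_mul]
  rw [h4] at h3
  change qd (fList (fun i => d i * q i) (fun i => fc c i ^ q i)) j ≤
    qd (fList (fun i => d i * q i) F) j
  unfold qd
  have h5 : (finrank K (J (fList (fun i => d i * q i) F) j) : ℤ) ≤
      finrank K (J (fList (fun i => d i * q i) (fun i => fc c i ^ q i)) j) := by
    exact_mod_cast h3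
  linarith

end PowForms

end

end Pool.Agent.TH130.FP
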