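import Mathlib
import Pool.Agent.TH130.FP.FinalD

/-!
The leading term of the dimension of the space of forms killed by powers of generic directional
derivatives.
-/

set_option autoImplicit false
set_option linter.unusedSectionVars false

namespace Pool.Agent.TH130.FP

open Module MvPolynomial H350MG Pool.Agent.W431.Frob

noncomputable section

/-- the dimension is constant on a nonempty open set -/
lemma generic_const {K : Type} [Field K] [CharZero K] {σ : Type} [Fintype σ] [DecidableEq σ]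
    {r : ℕ} (e : Fin r → ℕ) (j : ℕ) :
    ∃ h : ℕ, Gen K (fun P : Fin r × σ → K => finrank K (H350MG.K (ptList e P) j) = h) := by
  classical
  have hex : ∃ h : ℕ, ∃ P : Fin r × σ → K, finrank K (H350MG.K (ptList e P) j) = h :=
    ⟨_, 0, rfl⟩
  obtain ⟨P0, hP0⟩ := Nat.find_spec hex
  obtain ⟨Φ, h1, h2⟩ := generic_K e j P0
  refine ⟨Nat.find hex, Φ, h1, fun P hP => le_antisymm ?_ ?_⟩
  · have := h2 P hP
    omega
  · exact Nat.find_min' hex ⟨P, rfl⟩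

/-- the expected coefficient, truncated -/
def trunc (n : ℕ) (L : List ℕ) (k : ℕ) : ℤ :=
  open Classical in if ∀ j ≤ k, 0 < E (gj (Fin n)) L j then E (gj (Fin n)) L k else 0

theorem main_K (D : ℕ) (ε : ℝ) (hε : 0 < ε) : ∃ (C : ℝ) (n0 : ℕ), 0 ≤ C ∧ 1 ≤ n0 ∧
    ∀ (K : Type) [Field K] [CharZero K] (n : ℕ), n0 ≤ n → ∀ (r : ℕ) (e : Fin r → ℕ),
      (∀ i, 1 ≤ e i) → ∃ h : ℕ → ℕ,
        Gen K (fun P : Fin r × Fin n → K => ∀ k ∈ Finset.range (D + 1),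
          finrank K (H350MG.K (ptList e P) k) = h k) ∧
        ∀ k ≤ D,
          |(h k : ℝ) - (trunc n (List.ofFn e) k : ℝ)| ≤ ε * (n : ℝ) ^ k ∧
          ((∀ j ≤ k, ε * (n : ℝ) ^ j ≤ (E (gj (Fin n)) (List.ofFn e) j : ℝ)) →
            (n : ℝ) * |(h k : ℝ) - (E (gj (Fin n)) (List.ofFn e) k : ℝ)| ≤ C * (n : ℝ) ^ k) ∧
          ((∃ j ≤ k, (E (gj (Fin n)) (List.ofFn e) j : ℝ) ≤ -(ε * (n : ℝ) ^ j)) → h k = 0) := by
  classical
  obtain ⟨q, hq0, hqε⟩ := exists_rat_btwn hε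
  have hq : 0 < q := by exact_mod_cast hq0
  obtain ⟨C, n0, hC0, hn0, H⟩ := main_qdP D q hq
  refine ⟨(C : ℝ), n0, by exact_mod_cast hC0, hn0, ?_⟩
  intro K _ _ n hn r e he
  choose h hh using fun j => generic_const (K := K) (σ := Fin n) e j
  refine ⟨h, Gen.forall_mem fun j _ => hh j, ?_⟩
  obtain ⟨P, hP1, hP2⟩ := ((H K n hn r e he).and
    (Gen.forall_mem (s := Finset.range (D + 1)) fun j _ => hh j)).exists
  intro k hk
  have h1 := hP1 k hk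
  have h2 := hP2 k (Finset.mem_range.2 (by omega))
  rw [fList_pf, qd_powList, h2] at h1
  obtain ⟨h3, h4, h5, h6⟩ := h1
  have hle : ∀ j, (q : ℝ) * (n : ℝ) ^ j ≤ ε * (n : ℝ) ^ j := fun j =>
    mul_le_mul_of_nonneg_right hqε.le (by positivity)
  have hn1 : 1 ≤ n := hn0.trans hn
  have hnR : (0 : ℝ) < n := by exact_mod_cast hn1
  refine ⟨?_, ?_, ?_⟩
  · refine le_trans ?_ (hle k)
    by_cases hp : ∀ j ≤ k, 0 < E (gj (Fin n)) (List.ofFn e) j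
    · have h7 := h3 hp
      unfold trunc
      rw [if_pos hp]
      have h8 : (((|((h k : ℤ) : ℚ) - (E (gj (Fin n)) (List.ofFn e) k : ℚ)| : ℚ)) : ℝ) ≤
          ((q * (n : ℚ) ^ k : ℚ) : ℝ) := by exact_mod_cast h7
      push_cast at h8 ⊢
      exact h8
    · have h7 := h4 (by
        push Not at hp
        exact hp)
      unfold trunc
      rw [if_neg hp]
      have h8 : (((|((h k : ℤ) : ℚ)| : ℚ)) : ℝ) ≤ ((q * (n : ℚ) ^ k : ℚ) : ℝ) := by
        exact_mod_cast h7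
      push_cast at h8 ⊢
      rw [sub_zero]
      exact h8
  · intro hreg
    have hreg' : ∀ j ≤ k, q * (n : ℚ) ^ j ≤ (E (gj (Fin n)) (List.ofFn e) j : ℚ) := by
      intro j hj
      have h7 := (hle j).trans (hreg j hj)
      exact_mod_cast h7
    have h7 := h5 hreg'
    have h8 : (((n : ℚ) * |((h k : ℤ) : ℚ) - (E (gj (Fin n)) (List.ofFn e) k : ℚ)| : ℚ) : ℝ) ≤
        ((C * (n : ℚ) ^ k : ℚ) : ℝ) := by exact_mod_cast h7
    push_cast at h8 ⊢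
    exact h8
  · rintro ⟨j, hj, hEj⟩
    have h7 : (E (gj (Fin n)) (List.ofFn e) j : ℝ) ≤ -((q : ℝ) * (n : ℝ) ^ j) := by
      have := hle j
      linarith
    have h8 := h6 ⟨j, hj, by exact_mod_cast h7⟩
    exact_mod_cast h8

lemma gj_fin (n j : ℕ) : gj (Fin (n + 1)) j = ((n + j).choose n : ℕ) := by
  unfold gj
  rw [Fintype.card_fin]
  have h1 : n + 1 + j - 1 = n + j := by omega
  rw [h1, ← Nat.choose_symm_add]

/-- the version for the variables `x 0, …, x n` -/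
theorem main_K_succ (D : ℕ) (ε : ℝ) (hε : 0 < ε) : ∃ (C : ℝ) (n0 : ℕ), 0 ≤ C ∧ 1 ≤ n0 ∧
    ∀ (K : Type) [Field K] [CharZero K] (n : ℕ), n0 ≤ n → ∀ (r : ℕ) (e : Fin r → ℕ),
      (∀ i, 1 ≤ e i) → ∃ h : ℕ → ℕ,
        Gen K (fun P : Fin r × Fin (n + 1) → K => ∀ k ∈ Finset.range (D + 1),
          finrank K (H350MG.K (ptList e P) k) = h k) ∧
        ∀ k ≤ D,
          |(h k : ℝ) - (trunc (n + 1) (List.ofFn e) k : ℝ)| ≤ ε * (n : ℝ) ^ k ∧
          ((∀ j ≤ k, ε * (n : ℝ) ^ j ≤ (E (gj (Fin (n + 1))) (List.ofFn e) j : ℝ)) →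
            (n : ℝ) * |(h k : ℝ) - (E (gj (Fin (n + 1))) (List.ofFn e) k : ℝ)| ≤
              C * (n : ℝ) ^ k) ∧
          ((∃ j ≤ k, (E (gj (Fin (n + 1))) (List.ofFn e) j : ℝ) ≤ -(ε * (n : ℝ) ^ j)) →
            h k = 0) := by
  obtain ⟨C, n0, hC0, hn0, H⟩ := main_K D (ε / 2 ^ D) (by positivity)
  refine ⟨C * 2 ^ D, n0, by positivity, hn0, ?_⟩
  intro K _ _ n hn r e he
  obtain ⟨h, hg, hb⟩ := H K (n + 1) (by omega) r e he
  refine ⟨h, hg, fun k hk => ?_⟩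
  have hn1 : 1 ≤ n := hn0.trans hn
  have hnR : (1 : ℝ) ≤ n := by exact_mod_cast hn1
  have hpow : ∀ j ≤ D, ((n + 1 : ℕ) : ℝ) ^ j ≤ 2 ^ D * (n : ℝ) ^ j := by
    intro j hj
    have h1 : ((n + 1 : ℕ) : ℝ) ≤ 2 * n := by push_cast; linarith
    calc ((n + 1 : ℕ) : ℝ) ^ j ≤ (2 * (n : ℝ)) ^ j := pow_le_pow_left₀ (by positivity) h1 j
      _ = 2 ^ j * (n : ℝ) ^ j := mul_pow _ _ _
      _ ≤ 2 ^ D * (n : ℝ) ^ j :=
        mul_le_mul_of_nonneg_right (pow_le_pow_right₀ (by norm_num) hj) (by positivity)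
  have hε' : ∀ j ≤ D, ε / 2 ^ D * ((n + 1 : ℕ) : ℝ) ^ j ≤ ε * (n : ℝ) ^ j := by
    intro j hj
    calc ε / 2 ^ D * ((n + 1 : ℕ) : ℝ) ^ j ≤ ε / 2 ^ D * (2 ^ D * (n : ℝ) ^ j) :=
          mul_le_mul_of_nonneg_left (hpow j hj) (by positivity)
      _ = ε * (n : ℝ) ^ j := by field_simp
  obtain ⟨h1, h2, h3⟩ := hb k hk
  refine ⟨h1.trans (hε' k hk), ?_, ?_⟩
  · intro hreg
    have h4 := h2 fun j hj => (hε' j (by omega)).trans (hreg j hj)
    have h5 : (n : ℝ) * |(h k : ℝ) - (E (gj (Fin (n + 1))) (List.ofFn e) k : ℝ)| ≤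
        ((n + 1 : ℕ) : ℝ) * |(h k : ℝ) - (E (gj (Fin (n + 1))) (List.ofFn e) k : ℝ)| :=
      mul_le_mul_of_nonneg_right (by push_cast; linarith) (abs_nonneg _)
    refine h5.trans (h4.trans ?_)
    calc C * ((n + 1 : ℕ) : ℝ) ^ k ≤ C * (2 ^ D * (n : ℝ) ^ k) :=
          mul_le_mul_of_nonneg_left (hpow k hk) hC0
      _ = C * 2 ^ D * (n : ℝ) ^ k := by ring
  · rintro ⟨j, hj, hEj⟩
    refine h3 ⟨j, hj, hEj.trans ?_⟩
    have := hε' j (by omega)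
    linarith

end

end Pool.Agent.TH130.FP
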