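import Mathlib
import Pool.Agent.TH130.FP.Pts

/-!
Two points whose multiplicities have a sum greater than `d + 1` do not impose independent conditions
on forms of degree `d`; the coefficients of the series if there are no two such points.
-/

set_option autoImplicit false
set_option linter.unusedSectionVars false

namespace Pool.Agent.TH130.FP

open Module MvPolynomial H350MG

noncomputable section

/-- coefficients if the sum of any two entries is greater than `d` -/
lemma E_pairwise {σ : Type*} [Fintype σ] [DecidableEq σ] {d : ℕ} : ∀ L : List ℕ,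
    L.Pairwise (fun a b => d < a + b) → ∀ j ≤ d, E (gj σ) L j = gj σ j - sm σ L j := by
  intro L
  induction L with
  | nil => intro _ j _; simp [E, sm]
  | cons a L ih =>
    intro hL j hj
    rw [List.pairwise_cons] at hL
    rw [sm_cons]
    simp only [E]
    rw [ih hL.2 j hj]
    by_cases h : a ≤ j
    · rw [if_pos h, if_pos h, ih hL.2 (j - a) (by omega)]
      have h0 : sm σ L (j - a) = 0 := by
        unfold sm
        rw [List.sum_eq_zero]
        intro x hx
        rw [List.mem_map] at hx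
        obtain ⟨δ, hδ, rfl⟩ := hx
        have := hL.1 δ hδ
        rw [if_neg (by omega)]
      rw [h0]; ring
    · rw [if_neg h, if_neg h]; ring

lemma gj_succ_mul (n b : ℕ) :
    gj (Fin (n + 1)) (b + 1) * (b + 1) = gj (Fin (n + 1)) b * (n + b + 1) := by
  rw [gj_fin, gj_fin]
  have h1 := Nat.add_one_mul_choose_eq (n + b) b
  have h2 : (n + (b + 1)).choose n = (n + b + 1).choose (b + 1) :=
    Nat.choose_symm_add (a := n) (b := b + 1)
  have h3 : (n + b).choose n = (n + b).choose b := Nat.choose_symm_add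
  have h4 : (n + (b + 1)).choose n * (b + 1) = (n + b).choose n * (n + b + 1) := by
    rw [h2, h3, ← h1]; ring
  exact_mod_cast h4

lemma gj_fin_pos (n b : ℕ) : 0 < gj (Fin (n + 1)) b := by
  rw [gj_fin]
  exact_mod_cast Nat.choose_pos (Nat.le_add_right _ _)

/-- the terms relative to the first one increase -/
lemma term_step (n j δ : ℕ) :
    (if δ ≤ j then gj (Fin (n + 1)) (j - δ) else 0) * gj (Fin (n + 1)) (j + 1) ≤
      (if δ ≤ j + 1 then gj (Fin (n + 1)) (j + 1 - δ) else 0) * gj (Fin (n + 1)) j := by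
  by_cases h : δ ≤ j
  · rw [if_pos h, if_pos (by omega)]
    obtain ⟨a, rfl⟩ : ∃ a, j = δ + a := ⟨j - δ, by omega⟩
    have e1 : δ + a - δ = a := by omega
    have e2 : δ + a + 1 - δ = a + 1 := by omega
    rw [e1, e2]
    have h1 := gj_succ_mul n (δ + a)
    have h2 := gj_succ_mul n a
    have p1 := gj_fin_pos n a
    have p2 := gj_fin_pos n (δ + a)
    have hpos : (0 : ℤ) < ((δ : ℤ) + a + 1) * (a + 1) := by positivity
    refine le_of_mul_le_mul_right ?_ hpos
    push_cast at h1 h2
    calc gj (Fin (n + 1)) a * gj (Fin (n + 1)) (δ + a + 1) * (((δ : ℤ) + a + 1) * (a + 1))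
        = gj (Fin (n + 1)) a * (gj (Fin (n + 1)) (δ + a + 1) * ((δ : ℤ) + a + 1)) * (a + 1) := by
          ring
      _ = gj (Fin (n + 1)) a * gj (Fin (n + 1)) (δ + a) * ((n + ((δ : ℤ) + a) + 1) * (a + 1)) := by
          rw [h1]; ring
      _ ≤ gj (Fin (n + 1)) a * gj (Fin (n + 1)) (δ + a) * ((n + a + 1) * ((δ : ℤ) + a + 1)) := by
          refine mul_le_mul_of_nonneg_left ?_ (by positivity)
          have : (0 : ℤ) ≤ n * δ := by positivity
          nlinarith
      _ = (gj (Fin (n + 1)) a * (n + a + 1)) * gj (Fin (n + 1)) (δ + a) * ((δ : ℤ) + a + 1) := by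
          ring
      _ = _ := by rw [← h2]; ring
  · rw [if_neg h, zero_mul]
    split_ifs
    · have p1 := gj_fin_pos n (j + 1 - δ)
      have p2 := gj_fin_pos n j
      positivity
    · simp

lemma sm_step (n j : ℕ) (L : List ℕ) :
    sm (Fin (n + 1)) L j * gj (Fin (n + 1)) (j + 1) ≤
      sm (Fin (n + 1)) L (j + 1) * gj (Fin (n + 1)) j := by
  induction L with
  | nil => simp [sm]
  | cons a L ih =>
    rw [sm_cons, sm_cons, add_mul, add_mul]
    exact add_le_add (term_step n j a) ih

lemma naive_step {n j : ℕ} {L : List ℕ} (h : gj (Fin (n + 1)) j ≤ sm (Fin (n + 1)) L j) :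
    gj (Fin (n + 1)) (j + 1) ≤ sm (Fin (n + 1)) L (j + 1) := by
  have h1 := sm_step n j L
  have p1 := gj_fin_pos n j
  have p2 := gj_fin_pos n (j + 1)
  have h2 : gj (Fin (n + 1)) j * gj (Fin (n + 1)) (j + 1) ≤
      sm (Fin (n + 1)) L j * gj (Fin (n + 1)) (j + 1) := mul_le_mul_of_nonneg_right h p2.le
  have h3 := h2.trans h1
  rw [mul_comm] at h3
  exact le_of_mul_le_mul_right h3 p1

lemma naive_pos {n d : ℕ} {L : List ℕ} (h : 0 < gj (Fin (n + 1)) d - sm (Fin (n + 1)) L d) :
    ∀ j ≤ d, 0 < gj (Fin (n + 1)) j - sm (Fin (n + 1)) L j := by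
  by_contra hcon
  push Not at hcon
  obtain ⟨j, hj, h1⟩ := hcon
  have key : ∀ a, gj (Fin (n + 1)) (j + a) ≤ sm (Fin (n + 1)) L (j + a) := by
    intro a
    induction a with
    | zero => simp only [Nat.add_zero]; linarith
    | succ a ih => exact naive_step ih
  have h2 := key (d - j)
  rw [Nat.add_sub_cancel' hj] at h2
  linarith

section

variable {𝕜 : Type} [Field 𝕜] [CharZero 𝕜] {σ : Type*} [Fintype σ] [DecidableEq σ]

/-- conditions imposed by further points -/
lemma finrank_append (l2 : List ((σ → 𝕜) × ℕ)) (j : ℕ) : ∀ l1 : List ((σ → 𝕜) × ℕ),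
    (finrank 𝕜 (K l2 j) : ℤ) - sm σ (l1.map Prod.snd) j ≤ (finrank 𝕜 (K (l1 ++ l2) j) : ℤ) := by
  intro l1
  induction l1 with
  | nil => simp [sm]
  | cons c l ih =>
    rw [List.map_cons, sm_cons, List.cons_append]
    have h1 := rank_nullity c (l ++ l2) j
    have h2 := finrank_imK_le c (l ++ l2) j
    have h4 : (Module.finrank 𝕜 (K (l ++ l2) j) : ℤ) = Module.finrank 𝕜 (K (c :: (l ++ l2)) j)
      + Module.finrank 𝕜 (imK c (l ++ l2) j) := by exact_mod_cast h1
    by_cases hcj : c.2 ≤ j
    · have h5 := finrank_K_le (𝕜 := 𝕜) (l ++ l2) (j - c.2)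
      simp only [hcj, if_true] at h2 ⊢
      linarith
    · simp only [hcj, if_false] at h2 ⊢
      linarith

/-- one point imposes conditions -/
lemma finrank_one_lt {v : σ → 𝕜} (hv : v ≠ 0) {e j : ℕ} (hej : e ≤ j) :
    (finrank 𝕜 (K [(v, e)] j) : ℤ) < gj σ j := by
  rw [← finrank_Rj' (𝕜 := 𝕜)]
  have h : K [(v, e)] j < Rj 𝕜 σ j := by
    refine lt_of_le_of_ne (K_le _ _) ?_
    intro heq
    obtain ⟨i, hi⟩ : ∃ i, v i ≠ 0 := by
      by_contra hcon
      push Not at hcon
      exact hv (funext hcon)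
    have h1 : (X i ^ j : MvPolynomial σ 𝕜) ∈ Rj 𝕜 σ j := isHomogeneous_X_pow i j
    have h2 := h1
    rw [← heq, mem_K] at h2
    have h3 := h2.2 (v, e) (List.mem_singleton_self _)
    have h4 : (D v ^ (j + 1 - (j + 1 - e))) (X i ^ j : MvPolynomial σ 𝕜) = 0 := by
      have : j + 1 - (j + 1 - e) = e := by omega
      rw [this]; exact h3
    have h5 := (mem_pow_iff hv (show j + 1 - e ≤ j + 1 by omega) h1).2 h4
    have h6 : (X i ^ j : MvPolynomial σ 𝕜) ∈ pointIdeal v :=
      Ideal.pow_le_self (by omega) h5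
    have h7 := mem_pointIdeal.1 h6 1
    rw [one_smul, map_pow, eval_X] at h7
    exact hi (eq_zero_of_pow_eq_zero h7)
  exact_mod_cast Submodule.finrank_lt_finrank_of_lt h

/-- two points with small exponents do not impose independent conditions -/
lemma finrank_two_gt {v w : σ → 𝕜} (hw : w ≠ 0) {e f d : ℕ} (h : e + f ≤ d) :
    gj σ d - sm σ [e, f] d < (finrank 𝕜 (K [(v, e), (w, f)] d) : ℤ) := by
  have h1 := rank_nullity (v, e) [(w, f)] d
  have h2 := finrank_imK_le (v, e) [(w, f)] d
  simp only [show e ≤ d by omega, if_true] at h2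
  have h3 := finrank_one_lt (𝕜 := 𝕜) hw (show f ≤ d - e by omega)
  have h4 := finrank_K_ge (𝕜 := 𝕜) [(w, f)] d
  have h5 : (Module.finrank 𝕜 (K [(w, f)] d) : ℤ) = Module.finrank 𝕜 (K [(v, e), (w, f)] d)
      + Module.finrank 𝕜 (imK (v, e) [(w, f)] d) := by exact_mod_cast h1
  rw [sm_cons, if_pos (show e ≤ d by omega)]
  simp only [List.map_cons, List.map_nil] at h4
  linarith

theorem finrank_gt_of_pair {r : ℕ} {e : Fin r → ℕ} {P : Fin r × σ → 𝕜} {d : ℕ} {i j : Fin r}
    (hij : i ≠ j) (h : e i + e j ≤ d) (hP : (fun k => P (j, k)) ≠ 0) :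
    gj σ d - sm σ (List.ofFn e) d < (finrank 𝕜 (K (ptList e P) d) : ℤ) := by
  classical
  let f : Fin r → (σ → 𝕜) × ℕ := fun k => (fun x => P (k, x), e k)
  let rest : List (Fin r) := ((List.finRange r).erase i).erase j
  have hi : i ∈ List.finRange r := List.mem_finRange i
  have hj : j ∈ (List.finRange r).erase i := by
    rw [List.mem_erase_of_ne (Ne.symm hij)]
    exact List.mem_finRange j
  have hperm : (List.finRange r).Perm (rest ++ [i, j]) := by
    have h1 := List.perm_cons_erase hi
    have h2 := List.perm_cons_erase hj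
    have h3 : (List.finRange r).Perm (i :: j :: rest) := h1.trans (List.Perm.cons i h2)
    exact h3.trans (List.perm_append_comm (l₁ := [i, j]) (l₂ := rest))
  have h1 : (ptList e P).Perm (rest.map f ++ [f i, f j]) := by
    have h2 : ptList e P = (List.finRange r).map f := by
      unfold ptList
      rw [List.ofFn_eq_map]
    rw [h2]
    have h3 := hperm.map f
    rw [List.map_append] at h3
    exact h3
  have h2 : (List.ofFn e).Perm (rest.map e ++ [e i, e j]) := by
    rw [List.ofFn_eq_map]
    have h3 := hperm.map e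
    rw [List.map_append] at h3
    exact h3
  have h3 : sm σ (List.ofFn e) d = sm σ (rest.map e) d + sm σ [e i, e j] d := by
    unfold sm
    rw [(h2.map _).sum_eq, List.map_append, List.sum_append]
  have h4 : K (ptList e P) d = K (rest.map f ++ [f i, f j]) d :=
    K_congr (fun c => h1.mem_iff) d
  have h5 := finrank_append (𝕜 := 𝕜) [f i, f j] d (rest.map f)
  have h6 : (rest.map f).map Prod.snd = rest.map e := by
    rw [List.map_map]; rfl
  rw [h6] at h5
  have h7 := finrank_two_gt (𝕜 := 𝕜) (v := fun x => P (i, x)) hP h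
  rw [h3, h4]
  have h8 : K [f i, f j] d = K [(fun x => P (i, x), e i), (fun x => P (j, x), e j)] d := rfl
  rw [h8] at h5
  linarith

end

end

end Pool.Agent.TH130.FP
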